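import Pool.Agent.Lib_helper35.HDConst

/-!
# The abelianised part of the index of `W n`
-/

set_option autoImplicit false

namespace Pool.Agent.HD

open PowerSeries
open scoped commutatorElement

variable {p j : ℕ} [hp : Fact p.Prime] {X : Type} (e : X ≃ Bool × ZMod p)

lemma prod_sec {M : Type} [CommGroup M] (φ : A p j →* M) {i k : Bool} (hk : k ≠ i) (g : FF p j) :
    ∏ x : ZMod p, φ (ret k ((Ps e g).sec (lt e i x))) = φ (ret k g) := by
  induction g using FF_ind with
  | h1 => simp
  | ho l a =>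
    rw [Ps_io]
    by_cases hl : l = i
    · subst hl
      have h1 : ∀ x, φ (ret k (bsec e l a (lt e l x))) = 1 := fun x => by
        rw [bsec_same, ret_io_ne (Ne.symm hk), map_one]
      simp only [h1, Finset.prod_const_one]
      rw [ret_io_ne (Ne.symm hk), map_one]
    · have hlk : l = k := by rw [bool_ne hl, bool_ne hk]
      subst hlk
      rw [Finset.prod_eq_single (0 : ZMod p)]
      · simp only [bsec_ne_zero e (Ne.symm hk)]
      · intro x _ hx
        simp only [bsec_ne e (Ne.symm hk) _ hx, map_one]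
      · intro h; exact absurd (Finset.mem_univ _) h
  | hm g h hg hh =>
    rw [map_mul (ret k), map_mul φ, ← hg, ← hh]
    simp only [map_mul, Wr.mul_sec, Ps_perm, Finset.prod_mul_distrib]
    congr 1
    exact Fintype.prod_equiv (Equiv.addRight ((ret i h).lab)) _ _ (fun x => rfl)

lemma coeff_tt_mul (k : ℤ) (h : R p) {m : ℕ} (hm : m < j + 1) :
    coeff m (((tt p j ^ k : (R p)ˣ) : R p) * h) = coeff m h := by
  have h1 := dvd_tt_zpow_sub_one p j k
  have h2 : (X : R p) ^ (j + 1) ∣ ((tt p j ^ k : (R p)ˣ) : R p) * h - h := by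
    have : ((tt p j ^ k : (R p)ˣ) : R p) * h - h = (((tt p j ^ k : (R p)ˣ) : R p) - 1) * h := by ring
    rw [this]
    exact h1.mul_right _
  have h3 := PowerSeries.X_pow_dvd_iff.1 h2 m hm
  rw [map_sub, sub_eq_zero] at h3
  exact h3

/-- the abelian invariants of the factor -/
noncomputable def phiA (a : ℕ) : A p j →* Multiplicative (ZMod (p ^ a) × (Fin (j + 1) → ZMod p)) where
  toFun g := Multiplicative.ofAdd ((g.k : ZMod (p ^ a)), fun m => coeff m.1 g.h)
  map_one' := by
    rw [A.one_k, A.one_h]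
    simp only [Int.cast_zero, map_zero]
    rfl
  map_mul' g h := by
    rw [← ofAdd_add]
    congr 1
    refine Prod.ext ?_ (funext fun m => ?_)
    · simp
    · simp only [A.mul_h, map_add, coeff_tt_mul g.k h.h m.2, Prod.snd_add, Pi.add_apply]
      ring

lemma phiA_eq_one (a : ℕ) (g : A p j) : phiA a g = 1 ↔ g ∈ (A.Lev a (j + 1) : Subgroup (A p j)) := by
  rw [A.mem_Lev, PowerSeries.X_pow_dvd_iff]
  show Multiplicative.ofAdd _ = Multiplicative.ofAdd 0 ↔ _
  rw [Multiplicative.ofAdd.injective.eq_iff, Prod.mk_eq_zero, ZMod.intCast_zmod_eq_zero_iff_dvd]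
  apply and_congr Iff.rfl
  constructor
  · intro h m hm
    exact congrFun h ⟨m, hm⟩
  · intro h
    funext m
    exact h m.1 m.2

variable (j) in
/-- the subgroup of elements with trivial abelian invariants -/
noncomputable def Dn (p : ℕ) [Fact p.Prime] (n : ℕ) : Subgroup (FF p j) :=
  ((A.Lev (rho p j n) (j + 1) : Subgroup (A p j)).prod
    (A.Lev (rho p j n) (j + 1) : Subgroup (A p j))).comap ((ret true).prod (ret false))

lemma mem_Dn {n : ℕ} {g : FF p j} :
    g ∈ Dn j p n ↔ ∀ i, ret i g ∈ (A.Lev (rho p j n) (j + 1) : Subgroup (A p j)) := by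
  rw [Dn, Subgroup.mem_comap, Subgroup.mem_prod]
  constructor
  · rintro ⟨h1, h2⟩ i
    cases i
    · exact h2
    · exact h1
  · intro h; exact ⟨h true, h false⟩

lemma index_Dn (n : ℕ) : (Dn j p n).index = p ^ (2 * (rho p j n + (j + 1))) := by
  rw [Dn, Subgroup.index_comap_of_surjective, Subgroup.index_prod, A.index_Lev, ← pow_add]
  · congr 1; ring
  · rintro ⟨a, b⟩
    refine ⟨io true a * io false b, ?_⟩
    rw [MonoidHom.prod_apply, map_mul, map_mul, ret_io_same, ret_io_same, ret_io_ne (by simp),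
      ret_io_ne (by simp), mul_one, one_mul]

lemma Alev_le_Lev {n : ℕ} (hn : j + 1 ≤ n) {m : ℕ} (hm : n ≤ m) :
    A.Alev p j m ≤ (A.Lev (rho p j n) (j + 1) : Subgroup (A p j)) := by
  rintro g ⟨h1, h2⟩
  refine ⟨dvd_trans ?_ h1, dvd_trans (pow_dvd_pow _ (hn.trans hm)) h2⟩
  exact_mod_cast pow_dvd_pow p (rho_mono p j hm)

lemma Pn_le_Dn {n : ℕ} (hn : j + 1 ≤ n) (i : Bool) : Pn j e i n ≤ Dn j p n := by
  intro g hg
  rw [mem_Dn]
  intro k
  by_cases hk : k = i
  · subst hk
    exact Alev_le_Lev hn (Nat.le_succ n) (Pn_le_Rn e k n hg)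
  · rw [← phiA_eq_one, ← prod_sec e _ hk]
    apply Finset.prod_eq_one
    intro x _
    rw [phiA_eq_one]
    exact Alev_le_Lev hn le_rfl (ret_mem_Alev e (hg x).2 k)

lemma comm_le_Dn (n : ℕ) : commutator (FF p j) ≤ Dn j p n := by
  rw [commutator_eq_closure, Subgroup.closure_le]
  rintro _ ⟨x, y, rfl⟩
  rw [SetLike.mem_coe, mem_Dn]
  intro i
  rw [map_commutatorElement, ← phiA_eq_one, map_commutatorElement,
    commutatorElement_eq_one_iff_mul_comm, mul_comm]

lemma mul_ret_mem_commutator (g : FF p j) :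
    (io true (ret true g) * io false (ret false g))⁻¹ * g ∈ commutator (FF p j) := by
  have key : (Abelianization.of g) = Abelianization.of (io true (ret true g))
      * Abelianization.of (io false (ret false g)) := by
    induction g using FF_ind with
    | h1 => simp
    | ho i a =>
      cases i
      · rw [ret_io_same, ret_io_ne (by simp)]; simp
      · rw [ret_io_same, ret_io_ne (by simp)]; simp
    | hm x y hx hy =>
      simp only [map_mul]
      rw [hx, hy]
      simp only [mul_assoc]
      rw [mul_left_comm (Abelianization.of (io false (ret false x)))]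
  rw [← Abelianization.ker_of, MonoidHom.mem_ker, map_mul, map_inv, map_mul, key]
  simp

lemma io_mem_of_Lev {n : ℕ} (i : Bool) {a : A p j}
    (ha : a ∈ (A.Lev (rho p j n) (j + 1) : Subgroup (A p j))) :
    io i a ∈ commutator (FF p j) ⊔ Wn j e n := by
  obtain ⟨h1, ⟨h, hh⟩⟩ := ha
  rw [A.eq_lam_mul_s a, map_mul]
  refine mul_mem (Subgroup.mem_sup_left ?_) (Subgroup.mem_sup_right ?_)
  · rw [hh, ← A.comm_s_lam, map_commutatorElement]
    exact Subgroup.commutator_mem_commutator (Subgroup.mem_top _) (Subgroup.mem_top _)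
  · apply Pn_le_Wn e (!i) n
    rw [mem_Pn]
    have hmem : (A.s p j ^ a.k) ∈ A.Alev p j n := by
      rw [A.s_zpow]
      exact ⟨h1, dvd_zero _⟩
    intro x
    refine ⟨io_fix_ne e i _ x, ?_⟩
    rw [Ps_io_sec]
    by_cases hx : x = 0
    · subst hx
      rw [bsec_ne_zero e (by simp)]
      exact io_mem_Sn e hmem
    · rw [bsec_ne e (by simp) _ hx]; exact one_mem _

lemma comm_sup_Wn {n : ℕ} (hn : j + 1 ≤ n) : commutator (FF p j) ⊔ Wn j e n = Dn j p n := by
  apply le_antisymm
  · exact sup_le (comm_le_Dn n) (sup_le (Pn_le_Dn e hn true) (Pn_le_Dn e hn false))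
  · intro g hg
    rw [mem_Dn] at hg
    have h1 := mul_ret_mem_commutator g
    have h2 : g = (io true (ret true g) * io false (ret false g))
        * ((io true (ret true g) * io false (ret false g))⁻¹ * g) := by group
    rw [h2]
    exact mul_mem (mul_mem (io_mem_of_Lev e true (hg true)) (io_mem_of_Lev e false (hg false)))
      (Subgroup.mem_sup_left h1)

lemma index_Wn {n : ℕ} (hn : j + 1 ≤ n) :
    (Wn j e n).index = eps (j := j) e n * p ^ (2 * (rho p j n + (j + 1))) := by
  have h1 : (Wn j e n).relIndex (commutator (FF p j) ⊔ Wn j e n)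
      * (commutator (FF p j) ⊔ Wn j e n).index = (Wn j e n).index :=
    Subgroup.relIndex_mul_index le_sup_right
  rw [Subgroup.relIndex_sup_right, comm_sup_Wn e hn, index_Dn] at h1
  exact h1.symm

end Pool.Agent.HD
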