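import Pool.Agent.Lib_helper35.HDRec

/-!
# The finite automaton and its levels
-/

set_option autoImplicit false

namespace Pool.Agent.HD

open PowerSeries
open scoped commutatorElement

variable {p j : ℕ} [hp : Fact p.Prime] {X : Type} (e : X ≃ Bool × ZMod p)

variable (j) in
/-- truncated power series -/
noncomputable def hpoly (v : Fin (j + 1) → ZMod p) : R p :=
  PowerSeries.mk fun n => if h : n < j + 1 then v ⟨n, h⟩ else 0

lemma exists_hpoly (h : R p) (hh : ∀ n, j + 1 ≤ n → coeff n h = 0) : ∃ v, h = hpoly j v := by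
  refine ⟨fun m => coeff m.1 h, ?_⟩
  ext n
  rw [hpoly, coeff_mk]
  split_ifs with hn
  · rfl
  · exact hh n (by omega)

lemma coeff_hpoly (v : Fin (j + 1) → ZMod p) {n : ℕ} (hn : j + 1 ≤ n) : coeff n (hpoly j v) = 0 := by
  rw [hpoly, coeff_mk, dif_neg (by omega)]

lemma exists_hpoly_add (h : R p) : ∃ v h', h = hpoly j v + (PowerSeries.X : R p) ^ (j + 1) * h' := by
  have h1 : (PowerSeries.X : R p) ^ (j + 1) ∣ h - hpoly j (fun m => coeff m.1 h) := by
    rw [PowerSeries.X_pow_dvd_iff]
    intro m hm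
    rw [map_sub, hpoly, coeff_mk, dif_pos hm, sub_self]
  obtain ⟨u, hu⟩ := h1
  exact ⟨_, u, by rw [← hu]; ring⟩

/-- generators of the factor -/
noncomputable def gen (b : Bool) (v : Fin (j + 1) → ZMod p) : A p j := ⟨if b then 1 else 0, hpoly j v⟩

lemma gen_sec (b : Bool) (v : Fin (j + 1) → ZMod p) (x : ZMod p) :
    ∃ v', (gen b v : A p j).sec x = gen b v' := by
  have h1 : ∀ n, j + 1 ≤ n → coeff n ((gen b v : A p j).sec x).h = 0 := by
    intro n hn
    simp only [A.sec, gen, coeff_shift, map_add, coeff_hpoly v (by omega : j + 1 ≤ n + 1), add_zero]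
    cases b
    · simp
    · simp only [if_true, zpow_one, tt_val, add_mul, one_mul, map_add]
      rw [coeff_C, if_neg (by omega), zero_add, coeff_X_pow_mul', if_pos (by omega), coeff_C,
        if_neg (by omega)]
  obtain ⟨v', hv'⟩ := exists_hpoly _ h1
  exact ⟨v', A.ext rfl hv'⟩

variable (j) in
/-- the states of the automaton -/
noncomputable def autS : Set (AutT X) :=
  Set.range (fun x : Bool × Bool × (Fin (j + 1) → ZMod p) =>
    actHom (Ps e) (io x.1 (gen x.2.1 x.2.2 : A p j)))

lemma gen_zero : (gen false 0 : A p j) = 1 := by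
  apply A.ext
  · rfl
  · show hpoly j 0 = 0
    ext n
    rw [hpoly, coeff_mk]
    split_ifs <;> simp

lemma isAutomaton_autS : IsAutomaton (autS j e) := by
  constructor
  · exact Set.finite_range _
  · rintro _ ⟨⟨i, b, v⟩, rfl⟩ x
    obtain ⟨i', y, rfl⟩ := exists_lt e x
    have key : ∃ x' : Bool × Bool × (Fin (j + 1) → ZMod p),
        (Ps e (io i (gen b v : A p j))).sec (lt e i' y) = io x'.1 (gen x'.2.1 x'.2.2) := by
      rw [Ps_io_sec]
      by_cases hi : i' = i
      · subst hi
        obtain ⟨v', hv'⟩ := gen_sec b v y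
        exact ⟨(i', b, v'), by rw [bsec_same, hv']⟩
      · by_cases hy : y = 0
        · subst hy
          exact ⟨(i, b, v), by rw [bsec_ne_zero e hi]⟩
        · exact ⟨(i, false, 0), by rw [bsec_ne e hi _ hy, gen_zero, map_one]⟩
    obtain ⟨x', hx'⟩ := key
    refine ⟨_, ⟨x', rfl⟩, fun w => ?_⟩
    simp only [actHom_apply, act_cons, act_nil, hx', List.singleton_append]

lemma subgroup_eq_top {n : ℕ} (K : Subgroup (A p j)) (h1 : ∀ b v, gen b v ∈ K)
    (h2 : A.Alev p j n ≤ K) : K = ⊤ := by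
  have hs : A.s p j ∈ K := by
    have : A.s p j = gen true 0 := by
      apply A.ext
      · rfl
      · show (0 : R p) = hpoly j 0
        ext n
        rw [hpoly, coeff_mk]
        split_ifs <;> simp
    rw [this]; exact h1 _ _
  have hX : ∀ h, A.lam h ∈ K → A.lam ((PowerSeries.X : R p) ^ (j + 1) * h) ∈ K := by
    intro h hh
    rw [← A.comm_s_lam, commutatorElement_def]
    exact mul_mem (mul_mem (mul_mem hs hh) (inv_mem hs)) (inv_mem hh)
  have happ : ∀ N : ℕ, ∀ h : R p, ∃ h0, A.lam h0 ∈ K ∧ (PowerSeries.X : R p) ^ ((j + 1) * N) ∣ h - h0 := by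
    intro N
    induction N with
    | zero => intro h; exact ⟨0, by rw [A.lam_zero]; exact one_mem _, by simp⟩
    | succ N ih =>
      intro h
      obtain ⟨v, h', rfl⟩ := exists_hpoly_add (j := j) h
      obtain ⟨h0, hh0, hd⟩ := ih h'
      refine ⟨hpoly j v + (PowerSeries.X : R p) ^ (j + 1) * h0, ?_, ?_⟩
      · rw [← A.lam_mul]
        exact mul_mem (h1 false v) (hX _ hh0)
      · have : hpoly j v + (PowerSeries.X : R p) ^ (j + 1) * h'
            - (hpoly j v + (PowerSeries.X : R p) ^ (j + 1) * h0)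
            = (PowerSeries.X : R p) ^ (j + 1) * (h' - h0) := by ring
        rw [this, Nat.mul_succ, add_comm, pow_add]
        exact mul_dvd_mul_left _ hd
  rw [eq_top_iff]
  intro a _
  rw [A.eq_lam_mul_s a]
  refine mul_mem ?_ (Subgroup.zpow_mem _ hs _)
  obtain ⟨h0, hh0, hd⟩ := happ n a.h
  have e1 : (A.lam a.h : A p j) = A.lam (a.h - h0) * A.lam h0 := by
    rw [A.lam_mul]; congr 1; ring
  rw [e1]
  refine mul_mem (h2 ⟨dvd_zero _, dvd_trans (pow_dvd_pow _ ?_) hd⟩) hh0
  exact Nat.le_mul_of_pos_left _ (by omega)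

lemma range_le (n : ℕ) :
    (actHom (Ps (p := p) (j := j) e)).range ≤ Subgroup.closure (autS j e) ⊔ st n := by
  rintro _ ⟨g, rfl⟩
  induction g using FF_ind with
  | h1 => rw [map_one]; exact one_mem _
  | hm x y hx hy => rw [map_mul]; exact mul_mem hx hy
  | ho i a =>
    have h1 := subgroup_eq_top (n := n)
      ((Subgroup.closure (autS j e) ⊔ st n).comap ((actHom (Ps e)).comp (io i : A p j →* FF p j)))
      (fun b v => Subgroup.mem_sup_left (Subgroup.subset_closure ⟨(i, b, v), rfl⟩))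
      (fun a ha => Subgroup.mem_sup_right (io_mem_Sn e ha))
    have : a ∈ ((Subgroup.closure (autS j e) ⊔ st n).comap
      ((actHom (Ps e)).comp (io i : A p j →* FF p j))) := by rw [h1]; trivial
    exact this

lemma lev_autS (n : ℕ) : lev n (clos (Subgroup.closure (autS j e))) = p ^ ell j e n := by
  rw [lev_clos, ← ell_spec, Sn, St, Subgroup.index_comap, lev_eq]
  have h1 : Subgroup.closure (autS j e) ≤ (actHom (Ps (p := p) (j := j) e)).range := by
    rw [Subgroup.closure_le]
    rintro _ ⟨x, rfl⟩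
    exact ⟨_, rfl⟩
  have h2 : (actHom (Ps (p := p) (j := j) e)).range ⊔ st n = Subgroup.closure (autS j e) ⊔ st n :=
    le_antisymm (sup_le (range_le e n) le_sup_right) (sup_le_sup_right h1 _)
  rw [← Subgroup.relIndex_sup_right (H := Subgroup.closure (autS j e)), ← h2, Subgroup.relIndex_sup_right]

variable (j) in
/-- the group of vertex permutations -/
noncomputable def labP : Subgroup (Equiv.Perm X) where
  carrier := {σ | ∃ g : FF p j, σ = (Ps e g).perm}
  one_mem' := ⟨1, by simp⟩
  mul_mem' := by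
    rintro _ _ ⟨g, rfl⟩ ⟨h, rfl⟩
    exact ⟨g * h, by simp⟩
  inv_mem' := by
    rintro _ ⟨g, rfl⟩
    exact ⟨g⁻¹, by simp⟩

lemma isPGroup_labP : IsPGroup p (labP j e) := by
  rintro ⟨_, g, rfl⟩
  refine ⟨1, Subtype.ext ?_⟩
  rw [pow_one]
  show ((Ps e g).perm) ^ p = 1
  apply perm_ext e
  intro i x
  have : ∀ n : ℕ, ((Ps e g).perm ^ n) (lt e i x) = lt e i (x + n * (ret i g).lab) := by
    intro n
    induction n with
    | zero => simp
    | succ n ih =>
      rw [pow_succ', Equiv.Perm.mul_apply, ih, Ps_perm]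
      congr 1; push_cast; ring
  rw [this p]
  simp

lemma act_label (u : List X) (g : FF p j) :
    ∃ h : FF p j, ∀ x, act (Ps e) (u ++ [x]) g = act (Ps e) u g ++ [(Ps e h).perm x] := by
  induction u generalizing g with
  | nil => exact ⟨g, fun x => rfl⟩
  | cons y u ih =>
    obtain ⟨h, hh⟩ := ih ((Ps e g).sec y)
    exact ⟨h, fun x => by simp [hh]⟩

lemma closure_le_W {P : Subgroup (Equiv.Perm X)} (hP : labP j e ≤ P) :
    Subgroup.closure (autS j e) ≤ W P := by
  rw [Subgroup.closure_le]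
  rintro _ ⟨x, rfl⟩ u
  obtain ⟨h, hh⟩ := act_label e u (io x.1 (gen x.2.1 x.2.2 : A p j))
  exact ⟨_, hP ⟨h, rfl⟩, hh⟩

end Pool.Agent.HD
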