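import Pool.Agent.Lib_helper35.HDWr

/-!
# Level cardinalities of `W P`
-/

set_option autoImplicit false

namespace Pool.Agent.HD

variable {X : Type}

lemma lev_eq (n : ℕ) (H : Subgroup (AutT X)) : lev n H = (st n).relIndex H := by
  unfold lev
  rw [← Subgroup.relIndex_ker, QuotientGroup.ker_mk']

/-- the wreath recursion of the full automorphism group -/
noncomputable def dec : AutT X →* Wr (AutT X) X :=
  (MulEquiv.ofBijective glueHom ⟨glue_injective, glue_surjective⟩).symm.toMonoidHom

lemma glue_dec (g : AutT X) : glueHom (dec g) = g :=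
  (MulEquiv.ofBijective glueHom ⟨glue_injective, glue_surjective⟩).apply_symm_apply g

lemma dec_glue (a : Wr (AutT X) X) : dec (glueHom a) = a :=
  (MulEquiv.ofBijective glueHom ⟨glue_injective, glue_surjective⟩).symm_apply_apply a

lemma dec_cons (g : AutT X) (x : X) (w : List X) :
    g.1 (x :: w) = (dec g).perm x :: ((dec g).sec x).1 w := by
  conv_lhs => rw [← glue_dec g]
  rfl

lemma act_dec (w : List X) (g : AutT X) : act dec w g = g.1 w := by
  induction w generalizing g with
  | nil => exact (aut_nil g).symm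
  | cons x w ih => rw [act_cons, ih, dec_cons]

lemma St_dec (n : ℕ) : St (dec : AutT X →* _) n = st n := by
  ext g
  rw [mem_St, mem_st]
  simp only [act_dec]

lemma mem_st_succ {n : ℕ} {g : AutT X} :
    g ∈ (st (n + 1) : Subgroup (AutT X)) ↔ ∀ x, (dec g).perm x = x ∧ (dec g).sec x ∈ (st n : Subgroup (AutT X)) := by
  rw [← St_dec, mem_St_succ, St_dec]

lemma st_zero : (st 0 : Subgroup (AutT X)) = ⊤ := by rw [← St_dec, St_zero]

lemma mem_W {P : Subgroup (Equiv.Perm X)} {g : AutT X} :
    g ∈ W P ↔ (dec g).perm ∈ P ∧ ∀ x, (dec g).sec x ∈ W P := by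
  constructor
  · intro h
    constructor
    · obtain ⟨σ, hσ, h1⟩ := h []
      have : σ = (dec g).perm := by
        ext x
        have h2 := h1 x
        rw [List.nil_append, aut_nil, List.nil_append, dec_cons] at h2
        exact (List.cons.inj h2).1.symm
      rwa [← this]
    · intro x u
      obtain ⟨σ, hσ, h1⟩ := h (x :: u)
      refine ⟨σ, hσ, fun y => ?_⟩
      have h2 := h1 y
      rw [List.cons_append, dec_cons, dec_cons, List.cons_append] at h2
      exact (List.cons.inj h2).2
  · rintro ⟨h1, h2⟩ u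
    cases u with
    | nil =>
      refine ⟨_, h1, fun x => ?_⟩
      rw [List.nil_append, aut_nil, List.nil_append, dec_cons, aut_nil]
    | cons x u =>
      obtain ⟨σ, hσ, h3⟩ := h2 x u
      refine ⟨σ, hσ, fun y => ?_⟩
      rw [List.cons_append, dec_cons, dec_cons, h3, List.cons_append]

lemma relIndex_W_succ [Finite X] (P : Subgroup (Equiv.Perm X)) (n : ℕ) :
    (st (n + 1)).relIndex (W P) = Nat.card P * (st n).relIndex (W P) ^ Nat.card X := by
  have key : (st (n + 1)).relIndex (W P)
      = Nat.card (P × (X → (W P ⧸ (st n).subgroupOf (W P)))) := by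
    refine index_eq_of_fun ((st (n + 1)).subgroupOf (W P))
      (fun g => (⟨(dec g.1).perm, (mem_W.1 g.2).1⟩,
        fun x => QuotientGroup.mk ⟨(dec g.1).sec x, (mem_W.1 g.2).2 x⟩)) ?_ ?_
    · rintro ⟨σ, q⟩
      have hq : ∀ x, ∃ k : W P, QuotientGroup.mk k = q x := fun x => QuotientGroup.mk_surjective (q x)
      choose k hk using hq
      have hmem : glueHom (⟨fun x => (k x).1, σ.1⟩ : Wr (AutT X) X) ∈ W P := by
        rw [mem_W, dec_glue]
        exact ⟨σ.2, fun x => (k x).2⟩
      refine ⟨⟨_, hmem⟩, ?_⟩
      refine Prod.ext (Subtype.ext ?_) (funext fun x => ?_)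
      · simp only [dec_glue]
      · simp only [dec_glue]
        exact hk x
    · intro a b
      rw [Subgroup.mem_subgroupOf, mem_st_succ]
      have e1 : (dec ((a⁻¹ * b : W P) : AutT X)) = (dec a.1)⁻¹ * dec b.1 := by
        simp only [Subgroup.coe_mul, Subgroup.coe_inv, map_mul, map_inv]
      rw [e1]
      simp only [Wr.mul_perm, Wr.inv_perm, Wr.mul_sec, Wr.inv_sec, Prod.mk.injEq, Subtype.mk.injEq]
      constructor
      · rintro ⟨h1, h2⟩ x
        constructor
        · rw [h1]; simp
        · have h3 := congrFun h2 x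
          rw [QuotientGroup.eq, Subgroup.mem_subgroupOf] at h3
          rw [← h1]
          simpa using h3
      · intro h
        have h1 : (dec a.1).perm = (dec b.1).perm := by
          ext x
          have := (h x).1
          rw [Equiv.Perm.mul_apply, Equiv.Perm.inv_eq_iff_eq] at this
          exact this.symm
        refine ⟨h1, funext fun x => ?_⟩
        rw [QuotientGroup.eq, Subgroup.mem_subgroupOf]
        have h3 := (h x).2
        rw [← h1] at h3
        simpa using h3
  rw [key, Nat.card_prod, Nat.card_fun]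
  rfl

lemma lev_W [Finite X] (P : Subgroup (Equiv.Perm X)) (n : ℕ) :
    lev n (W P) = Nat.card P ^ (∑ i ∈ Finset.range n, Nat.card X ^ i) := by
  rw [lev_eq]
  induction n with
  | zero => simp [st_zero]
  | succ n ih =>
    rw [relIndex_W_succ, ih, Finset.sum_range_succ', ← pow_mul, pow_zero, add_comm, pow_add, pow_one,
      Finset.sum_mul]
    simp [pow_succ]

lemma W_top : W (⊤ : Subgroup (Equiv.Perm X)) = ⊤ := by
  rw [eq_top_iff]
  intro g _ u
  induction u generalizing g with
  | nil =>
    refine ⟨(dec g).perm, Subgroup.mem_top _, fun x => ?_⟩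
    rw [List.nil_append, aut_nil, List.nil_append, dec_cons, aut_nil]
  | cons x u ih =>
    obtain ⟨σ, hσ, h⟩ := ih (g := (dec g).sec x) (Subgroup.mem_top _)
    refine ⟨σ, hσ, fun y => ?_⟩
    rw [List.cons_append, dec_cons, dec_cons, h, List.cons_append]

lemma card_quot_st [Finite X] (n : ℕ) :
    Nat.card (AutT X ⧸ (st n : Subgroup (AutT X)))
      = (Nat.card X).factorial ^ (∑ i ∈ Finset.range n, Nat.card X ^ i) := by
  have h := lev_W (X := X) ⊤ n
  rw [W_top, lev_eq, Subgroup.relIndex_top_right] at h
  rw [← Subgroup.index_eq_card, h, Subgroup.card_top, Nat.card_perm]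

lemma lev_clos (n : ℕ) (L : Subgroup (AutT X)) : lev n (clos L) = lev n L := by
  unfold lev
  congr 1
  have : (clos L).map (QuotientGroup.mk' (st n)) = L.map (QuotientGroup.mk' (st n)) := by
    apply le_antisymm
    · rintro _ ⟨g, hg, rfl⟩
      obtain ⟨h, hh, h1⟩ := hg n
      exact ⟨h, hh, (QuotientGroup.eq).2 h1⟩
    · apply Subgroup.map_mono
      intro g hg n
      exact ⟨g, hg, by simp⟩
  rw [this]

end Pool.Agent.HD
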