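import Pool.Agent.Lib_helper35.HDLamp
import Pool.Agent.Lib_helper35.HDLev

/-!
# Two lamplighters acting on two blocks of letters
-/

set_option autoImplicit false

namespace Pool.Agent.HD

open PowerSeries

variable {p j : ℕ} [hp : Fact p.Prime] {X : Type} (e : X ≃ Bool × ZMod p)

/-- the free product of two copies of `A` -/
abbrev FF (p j : ℕ) [Fact p.Prime] : Type := Monoid.CoprodI (fun _ : Bool => A p j)

/-- the inclusion of the `i`-th copy -/
noncomputable def io (i : Bool) : A p j →* FF p j := Monoid.CoprodI.of (M := fun _ : Bool => A p j) (i := i)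

/-- induction on the free product -/
lemma FF_ind {C : FF p j → Prop} (g : FF p j) (h1 : C 1) (ho : ∀ i a, C (io i a))
    (hm : ∀ x y, C x → C y → C (x * y)) : C g :=
  Monoid.CoprodI.induction_on g h1 ho hm

/-- the retraction on the `i`-th copy -/
noncomputable def ret (i : Bool) : FF p j →* A p j :=
  Monoid.CoprodI.lift (fun k => if k = i then MonoidHom.id _ else 1)

@[simp] lemma ret_io_same (i : Bool) (a : A p j) : ret i (io i a) = a := by
  simp [ret, io]

lemma ret_io_ne {i k : Bool} (h : k ≠ i) (a : A p j) : ret i (io k a) = 1 := by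
  simp [ret, io, h]

/-- the letter number `x` of the block `i` -/
def lt (i : Bool) (x : ZMod p) : X := e.symm (i, x)

lemma exists_lt (x : X) : ∃ i y, x = lt e i y := ⟨(e x).1, (e x).2, by simp [lt]⟩

lemma lt_inj {i i' : Bool} {x x' : ZMod p} : lt e i x = lt e i' x' ↔ i = i' ∧ x = x' := by
  simp [lt]

/-- rotation of the block `i` by `c` -/
def bperm (i : Bool) (c : ZMod p) : Equiv.Perm X where
  toFun x := e.symm ((e x).1, if (e x).1 = i then (e x).2 + c else (e x).2)
  invFun x := e.symm ((e x).1, if (e x).1 = i then (e x).2 - c else (e x).2)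
  left_inv x := by
    by_cases h : (e x).1 = i
    · simp [h]; rw [← h]; simp
    · simp [h]
  right_inv x := by
    by_cases h : (e x).1 = i
    · simp [h]; rw [← h]; simp
    · simp [h]

@[simp] lemma bperm_same (i : Bool) (c x : ZMod p) : bperm e i c (lt e i x) = lt e i (x + c) := by
  simp [bperm, lt]

lemma bperm_ne {i k : Bool} (h : k ≠ i) (c x : ZMod p) : bperm e i c (lt e k x) = lt e k x := by
  simp [bperm, lt, h]

lemma perm_ext {f g : Equiv.Perm X} (h : ∀ i x, f (lt e i x) = g (lt e i x)) : f = g := by
  ext x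
  obtain ⟨i, y, rfl⟩ := exists_lt e x
  exact h i y

lemma bperm_add (i : Bool) (c d : ZMod p) : bperm e i (c + d) = bperm e i c * bperm e i d := by
  apply perm_ext e
  intro k x
  by_cases h : k = i
  · subst h
    rw [Equiv.Perm.mul_apply, bperm_same, bperm_same, bperm_same]
    congr 1; ring
  · rw [Equiv.Perm.mul_apply, bperm_ne e h, bperm_ne e h, bperm_ne e h]

lemma bperm_zero (i : Bool) : bperm e i (0 : ZMod p) = 1 := by
  apply perm_ext e
  intro k x
  by_cases h : k = i
  · subst h
    rw [bperm_same, add_zero]; rfl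
  · rw [bperm_ne e h]; rfl

/-- sections of the `i`-th copy -/
noncomputable def bsec (i : Bool) (a : A p j) (x : X) : FF p j :=
  if (e x).1 = i then io i (a.sec (e x).2) else if (e x).2 = 0 then io i a else 1

@[simp] lemma bsec_same (i : Bool) (a : A p j) (x : ZMod p) :
    bsec e i a (lt e i x) = io i (a.sec x) := by simp [bsec, lt]

lemma bsec_ne_zero {i k : Bool} (h : k ≠ i) (a : A p j) :
    bsec e i a (lt e k 0) = io i a := by simp [bsec, lt, h]

lemma bsec_ne {i k : Bool} (h : k ≠ i) (a : A p j) {x : ZMod p} (hx : x ≠ 0) :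
    bsec e i a (lt e k x) = 1 := by simp [bsec, lt, h, hx]

lemma fun_ext {B : Type*} {f g : X → B} (h : ∀ i x, f (lt e i x) = g (lt e i x)) : f = g := by
  ext x
  obtain ⟨i, y, rfl⟩ := exists_lt e x
  exact h i y

/-- wreath recursion of the `i`-th copy -/
noncomputable def psi (i : Bool) : A p j →* Wr (FF p j) X where
  toFun a := ⟨bsec e i a, bperm e i a.lab⟩
  map_one' := by
    apply Wr.ext
    · apply fun_ext e
      intro k x
      by_cases h : k = i
      · subst h; simp
      · by_cases hx : x = 0
        · subst hx; simp [bsec_ne_zero e h]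
        · simp [bsec_ne e h _ hx]
    · simp [bperm_zero]
  map_mul' a b := by
    apply Wr.ext
    · apply fun_ext e
      intro k x
      by_cases h : k = i
      · subst h; simp [A.sec_mul]
      · by_cases hx : x = 0
        · subst hx; simp [bsec_ne_zero e h, bperm_ne e h]
        · simp [bsec_ne e h _ hx, bperm_ne e h]
    · simp [bperm_add]

/-- wreath recursion of the free product -/
noncomputable def Ps : FF p j →* Wr (FF p j) X := Monoid.CoprodI.lift (psi e)

lemma Ps_io (i : Bool) (a : A p j) : Ps e (io i a) = ⟨bsec e i a, bperm e i a.lab⟩ := by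
  simp only [Ps, io, Monoid.CoprodI.lift_of]
  rfl

lemma Ps_perm (g : FF p j) (i : Bool) (x : ZMod p) :
    (Ps e g).perm (lt e i x) = lt e i (x + (ret i g).lab) := by
  induction g using FF_ind generalizing x with
  | h1 => simp
  | ho k a =>
    rw [Ps_io]
    by_cases h : k = i
    · subst h; simp
    · rw [ret_io_ne h]
      simp [bperm_ne e (Ne.symm h)]
  | hm g h hg hh =>
    rw [map_mul, Wr.mul_perm, Equiv.Perm.mul_apply, hh, hg, map_mul, A.lab_mul]
    congr 1; ring

lemma ret_sec (g : FF p j) (i : Bool) (x : ZMod p) :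
    ret i ((Ps e g).sec (lt e i x)) = (ret i g).sec x := by
  induction g using FF_ind generalizing x with
  | h1 => simp
  | ho k a =>
    rw [Ps_io]
    by_cases h : k = i
    · subst h; simp
    · rw [ret_io_ne h]
      by_cases hx : x = 0
      · subst hx; simp [bsec_ne_zero e (Ne.symm h), ret_io_ne h]
      · simp [bsec_ne e (Ne.symm h) _ hx]
  | hm g h hg hh =>
    rw [map_mul, Wr.mul_sec, Ps_perm, map_mul, hh, hg, map_mul, A.sec_mul]

end Pool.Agent.HD
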