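import Mathlib

/-!
# Step A: the images of the commutator subgroups are central
-/

set_option autoImplicit false

namespace Pool.Agent.HD

open scoped commutatorElement

section stepA

variable {p : ℕ} [hp : Fact p.Prime] {A C : Type*} [Group A] [Group C] (lab : A → ZMod p)
  (hlab : ∀ a b, lab (a * b) = lab a + lab b) (hsurj : Function.Surjective lab) (hp2 : p ≠ 2)
  (f : Bool → A →* C)
  (hgen : ∀ K : Subgroup C, (∀ i a, f i a ∈ K) → K = ⊤)
  (H1 : ∀ i a b u, lab u ≠ 0 → Commute (f i a) ((f (!i) u)⁻¹ * f i b * f (!i) u))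

include H1 in
lemma z_comm (i : Bool) {v u : A} (hv : lab v ≠ 0) :
    Commute (f (!i) u) ((f i v)⁻¹ * ((f (!i) u)⁻¹ * f i v * f (!i) u)) := by
  have h := H1 (!i) u u⁻¹ v hv
  rw [Bool.not_not, map_inv] at h
  have : (f i v)⁻¹ * ((f (!i) u)⁻¹ * f i v * f (!i) u)
      = (f i v)⁻¹ * (f (!i) u)⁻¹ * f i v * f (!i) u := by group
  rw [this]
  exact h.mul_right (Commute.refl _)

include H1 in
lemma comm_odd (i : Bool) {x y u : A} (hx : lab x ≠ 0) (hy : lab y ≠ 0) (hxy : lab (x * y) ≠ 0)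
    (hu : lab u ≠ 0) : Commute (f (!i) u) (f i (y⁻¹ * x⁻¹ * y * x)) := by
  have h1 := z_comm lab f H1 i (u := u) hx
  have h2 := z_comm lab f H1 i (u := u) hy
  have h3 := z_comm lab f H1 i (u := u) hxy
  have h4 := H1 i y x u hu
  set U := f (!i) u with hU
  set x' := f i x with hx'
  set y' := f i y with hy'
  rw [map_mul, ← hx', ← hy'] at h3
  have key : f i (y⁻¹ * x⁻¹ * y * x) = ((x' * y')⁻¹ * (U⁻¹ * (x' * y') * U)) * (y'⁻¹ * (U⁻¹ * y' * U))⁻¹
      * (x'⁻¹ * (U⁻¹ * x' * U))⁻¹ := by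
    have h5 : y' = (U⁻¹ * x' * U) * y' * (U⁻¹ * x' * U)⁻¹ := by
      rw [← h4.eq]; group
    calc f i (y⁻¹ * x⁻¹ * y * x) = y'⁻¹ * x'⁻¹ * y' * x' := by simp [hx', hy']
      _ = y'⁻¹ * x'⁻¹ * ((U⁻¹ * x' * U) * y' * (U⁻¹ * x' * U)⁻¹) * x' := by rw [← h5]
      _ = _ := by group
  rw [key]
  exact (h3.mul_right h2.inv_right).mul_right h1.inv_right

include hlab hsurj H1 in
lemma comm_all (i : Bool) {x y : A} (hx : lab x ≠ 0) (hy : lab y ≠ 0) (hxy : lab (x * y) ≠ 0)
    (w : A) : Commute (f (!i) w) (f i (y⁻¹ * x⁻¹ * y * x)) := by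
  by_cases hw : lab w = 0
  · obtain ⟨u, hu⟩ := hsurj 1
    have hu0 : lab u ≠ 0 := by rw [hu]; exact one_ne_zero
    have hwu : lab (w * u) ≠ 0 := by rw [hlab, hw, zero_add]; exact hu0
    have h1 := comm_odd lab f H1 i hx hy hxy hwu
    have h2 := comm_odd lab f H1 i hx hy hxy hu0
    have h3 := h1.mul_left h2.inv_left
    rw [map_mul, mul_inv_cancel_right] at h3
    exact h3
  · exact comm_odd lab f H1 i hx hy hxy hw

include hlab hsurj hgen H1 in
lemma comm_center (i : Bool) {x y : A} (hx : lab x ≠ 0) (hy : lab y ≠ 0) (hxy : lab (x * y) ≠ 0) :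
    f i (y⁻¹ * x⁻¹ * y * x) ∈ Subgroup.center C := by
  have h1 := comm_all lab hlab hsurj f H1 i hx hy hxy
  obtain ⟨u, hu⟩ := hsurj 1
  have hu0 : lab u ≠ 0 := by rw [hu]; exact one_ne_zero
  have h2 : ∀ a, Commute (f i a) (f i (y⁻¹ * x⁻¹ * y * x)) := by
    intro a
    have h3 := H1 i a (y⁻¹ * x⁻¹ * y * x) u hu0
    have h4 := h1 u
    have h5 : (f (!i) u)⁻¹ * f i (y⁻¹ * x⁻¹ * y * x) * f (!i) u = f i (y⁻¹ * x⁻¹ * y * x) := by
      rw [mul_assoc, ← h4.eq]; group
    rwa [h5] at h3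
  have h3 := hgen (Subgroup.centralizer {f i (y⁻¹ * x⁻¹ * y * x)}) (by
    intro k a
    rw [Subgroup.mem_centralizer_singleton_iff]
    by_cases hk : k = i
    · subst hk; exact (h2 a).eq
    · have : k = !i := by cases k <;> cases i <;> simp_all
      subst this; exact (h1 a).eq)
  rw [Subgroup.mem_center_iff]
  intro g
  have : g ∈ Subgroup.centralizer {f i (y⁻¹ * x⁻¹ * y * x)} := by rw [h3]; trivial
  exact Subgroup.mem_centralizer_singleton_iff.1 this

include hlab hsurj hp2 hgen H1 in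
/-- The commutator subgroups of the two factors are mapped into the centre. -/
theorem map_commutator_center (i : Bool) (x y : A) : f i ⁅x, y⁆ ∈ Subgroup.center C := by
  set q : A →* C ⧸ Subgroup.center C := (QuotientGroup.mk' (Subgroup.center C)).comp (f i) with hq
  have h2ne : ∀ c : ZMod p, c ≠ 0 → c + c ≠ 0 := by
    intro c hc h
    rw [← two_mul] at h
    rcases mul_eq_zero.1 h with h | h
    · have h' : ((2 : ℕ) : ZMod p) = 0 := by exact_mod_cast h
      rw [ZMod.natCast_eq_zero_iff] at h'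
      exact hp2 ((Nat.prime_dvd_prime_iff_eq hp.out Nat.prime_two).1 h')
    · exact hc h
  have h1 : ∀ x y, lab x ≠ 0 → lab y ≠ 0 → lab (x * y) ≠ 0 → Commute (q x) (q y) := by
    intro x y hx hy hxy
    have h := comm_center lab hlab hsurj f hgen H1 i hx hy hxy
    have h' : q (y⁻¹ * x⁻¹ * y * x) = 1 := by
      rw [hq, MonoidHom.comp_apply, QuotientGroup.mk'_apply, QuotientGroup.eq_one_iff]
      exact h
    rw [map_mul, map_mul, map_mul, map_inv, map_inv] at h'
    have h3 : (q x * q y)⁻¹ * (q y * q x) = 1 := by rw [← h']; group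
    exact (inv_mul_eq_one.1 h3)
  have h2 : ∀ x y, lab y ≠ 0 → Commute (q x) (q y) := by
    intro x y hy
    by_cases hx : lab x = 0
    · have h3 : Commute (q (x * y)) (q y) := by
        apply h1 _ _ _ hy
        · rw [hlab, hlab, hx, zero_add]; exact h2ne _ hy
        · rw [hlab, hx, zero_add]; exact hy
      have h4 := h3.mul_left (Commute.refl (q y)).inv_left
      rwa [map_mul, mul_inv_cancel_right] at h4
    · by_cases hxy : lab (x * y) = 0
      · have h5 : lab x = - lab y := by rw [hlab] at hxy; exact eq_neg_of_add_eq_zero_left hxy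
        have h3 : Commute (q (x * y * y)) (q y) := by
          apply h1 _ _ _ hy
          · rw [hlab, hlab, hxy, zero_add]; exact h2ne _ hy
          · rw [hlab, hxy, zero_add]; exact hy
        have h4 := (h3.mul_left (Commute.refl (q y)).inv_left).mul_left (Commute.refl (q y)).inv_left
        rwa [map_mul, mul_inv_cancel_right, map_mul, mul_inv_cancel_right] at h4
      · exact h1 x y hx hy hxy
  have h3 : ∀ x y, Commute (q x) (q y) := by
    intro x y
    by_cases hy : lab y = 0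
    · obtain ⟨u, hu⟩ := hsurj 1
      have hu0 : lab u ≠ 0 := by rw [hu]; exact one_ne_zero
      have h4 := h2 x (y * u) (by rw [hlab, hy, zero_add]; exact hu0)
      have h5 := h2 x u hu0
      have h6 := h4.mul_right h5.inv_right
      rwa [map_mul, mul_inv_cancel_right] at h6
    · exact h2 x y hy
  have h4 : q ⁅x, y⁆ = 1 := by
    rw [map_commutatorElement, commutatorElement_eq_one_iff_mul_comm]
    exact (h3 x y).eq
  rw [hq, MonoidHom.comp_apply, QuotientGroup.mk'_apply, QuotientGroup.eq_one_iff] at h4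
  exact h4

end stepA

end Pool.Agent.HD
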