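import Pool.Agent.Lib_helper35.HDFinite

/-!
# The index of `W n` and its eventual form
-/

set_option autoImplicit false

namespace Pool.Agent.HD

open PowerSeries
open scoped commutatorElement

lemma Wr.comm_fix {F X : Type} [Group F] {a b : Wr F X} {z : X} (ha : a.perm z = z)
    (hb : b.perm z = z) : (⁅a, b⁆).perm z = z ∧ (⁅a, b⁆).sec z = ⁅a.sec z, b.sec z⁆ := by
  have ha' : a.perm⁻¹ z = z := by rw [Equiv.Perm.inv_eq_iff_eq]; exact ha.symm
  have hb' : b.perm⁻¹ z = z := by rw [Equiv.Perm.inv_eq_iff_eq]; exact hb.symm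
  rw [commutatorElement_def, commutatorElement_def]
  constructor
  · simp only [Wr.mul_perm, Wr.inv_perm, Equiv.Perm.mul_apply, ha', hb', ha, hb]
  · simp only [Wr.mul_sec, Wr.inv_sec, Wr.inv_perm, ha', hb', hb]

variable {p j : ℕ} [hp : Fact p.Prime] {X : Type} (e : X ≃ Bool × ZMod p)

lemma io_fix_ne (i : Bool) (a : A p j) (x : ZMod p) :
    (Ps e (io i a)).perm (lt e (!i) x) = lt e (!i) x := by
  rw [Ps_io, bperm_ne e (by simp)]

lemma comm_mem_Pn (i : Bool) (a b u : A p j) (hu : A.lab u ≠ 0) (n : ℕ) :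
    ⁅io i a, (io (!i) u)⁻¹ * io i b * io (!i) u⁆ ∈ Pn j e (!i) n := by
  set c := (io (!i) u)⁻¹ * io i b * io (!i) u with hc
  have hcfix : ∀ x, (Ps e c).perm (lt e (!i) x) = lt e (!i) x := by
    intro x
    rw [Ps_perm, hc]
    simp only [map_mul, map_inv, ret_io_same]
    rw [ret_io_ne (by simp), mul_one, inv_mul_cancel, A.lab_one, add_zero]
  have hcsec : (Ps e c).sec (lt e (!i) 0) = 1 := by
    rw [hc]
    have h1 : (Ps e (io (!i) u)).perm (lt e (!i) 0) = lt e (!i) u.lab := by
      rw [Ps_io]; simp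
    have h2 : (Ps e (io i b)).sec (lt e (!i) u.lab) = 1 := by
      rw [Ps_io]; exact bsec_ne e (by simp) _ hu
    have h3 : (Ps e (io i b)).perm (lt e (!i) u.lab) = lt e (!i) u.lab := io_fix_ne e i b _
    rw [map_mul, map_mul, map_inv, Wr.mul_sec, Wr.mul_sec, Wr.inv_sec, h1, h2, h3, ← h1]
    simp
  rw [mem_Pn]
  intro x
  rw [map_commutatorElement]
  obtain ⟨h1, h2⟩ := Wr.comm_fix (io_fix_ne e i a x) (hcfix x)
  refine ⟨h1, ?_⟩
  rw [h2]
  by_cases hx : x = 0
  · subst hx
    rw [hcsec, commutatorElement_one_right]; exact one_mem _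
  · have : (Ps e (io i a)).sec (lt e (!i) x) = 1 := by
      rw [Ps_io]; exact bsec_ne e (by simp) _ hx
    rw [this, commutatorElement_one_left]; exact one_mem _

lemma s_sec_zero : A.sec (A.s p j) 0 = A.s p j := by
  ext1
  · rfl
  · simp only [A.sec, A.s, map_zero, mul_zero, add_zero]
    ext n; simp

lemma Ps_io_sec (i : Bool) (a : A p j) (x : X) : (Ps e (io i a)).sec x = bsec e i a x := by
  rw [Ps_io]

lemma comm_s_mem_Sn (n : ℕ) : ⁅io true (A.s p j), io false (A.s p j)⁆ ∈ Sn j e n := by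
  induction n with
  | zero => rw [Sn, St_zero]; trivial
  | succ n ih =>
    rw [mem_Sn_succ]
    intro i x
    have hlab : (A.s p j).lab = 0 := by simp [A.lab, A.s]
    have hfix : ∀ k, (Ps e (io k (A.s p j))).perm (lt e i x) = lt e i x := by
      intro k
      rw [Ps_io, hlab, bperm_zero]; rfl
    rw [map_commutatorElement]
    obtain ⟨h1, h2⟩ := Wr.comm_fix (hfix true) (hfix false)
    refine ⟨h1, ?_⟩
    rw [h2, Ps_io_sec, Ps_io_sec]
    cases i
    · by_cases hx : x = 0
      · subst hx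
        rw [bsec_same, bsec_ne_zero e (by simp), s_sec_zero]
        exact ih
      · rw [bsec_ne e (by simp) _ hx, commutatorElement_one_left]; exact one_mem _
    · by_cases hx : x = 0
      · subst hx
        rw [bsec_same, bsec_ne_zero e (by simp), s_sec_zero]
        exact ih
      · rw [bsec_ne e (i := false) (k := true) (by simp) _ hx, commutatorElement_one_right]; exact one_mem _

lemma Sn_succ_le (n : ℕ) : Sn j e (n + 1) ≤ Sn j e n := by
  induction n with
  | zero => rw [Sn, Sn, St_zero]; exact le_top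
  | succ n ih =>
    intro g hg
    rw [mem_Sn_succ] at hg ⊢
    exact fun i x => ⟨(hg i x).1, ih (hg i x).2⟩

lemma Pn_succ_le (i : Bool) (n : ℕ) : Pn j e i (n + 1) ≤ Pn j e i n := by
  intro g hg x
  exact ⟨(hg x).1, Sn_succ_le e n (hg x).2⟩

lemma Wn_succ_le (n : ℕ) : Wn j e (n + 1) ≤ Wn j e n :=
  sup_le_sup (Pn_succ_le e true n) (Pn_succ_le e false n)

lemma Pn_le_Wn (i : Bool) (n : ℕ) : Pn j e i n ≤ Wn j e n := by
  cases i
  · exact le_sup_right
  · exact le_sup_left

variable (j) in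
/-- the intersection of all `W n` -/
noncomputable def Winf : Subgroup (FF p j) := ⨅ n, Wn j e n

instance Winf_normal : (Winf j e).Normal := by
  unfold Winf
  exact Subgroup.normal_iInf_normal (fun n => Wn_normal e n)

lemma mem_Winf {g : FF p j} : g ∈ Winf j e ↔ ∀ n, g ∈ Wn j e n := by
  rw [Winf, Subgroup.mem_iInf]

lemma relIndex_Winf_ne_zero (hp2 : p ≠ 2) : (Winf j e).relIndex (commutator (FF p j)) ≠ 0 := by
  set f : Bool → A p j →* FF p j ⧸ Winf j e := fun i => (QuotientGroup.mk' (Winf j e)).comp (io i)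
    with hf
  have hgen : ∀ K : Subgroup (FF p j ⧸ Winf j e), (∀ i a, f i a ∈ K) → K = ⊤ := by
    intro K hK
    rw [eq_top_iff]
    intro y _
    obtain ⟨g, rfl⟩ := QuotientGroup.mk_surjective y
    have : ∀ g : FF p j, QuotientGroup.mk' (Winf j e) g ∈ K := by
      intro g
      induction g using FF_ind with
      | h1 => rw [map_one]; exact one_mem _
      | ho i a => exact hK i a
      | hm x y hx hy => rw [map_mul]; exact mul_mem hx hy
    exact this g
  have hmk : ∀ {x y : FF p j}, ⁅x, y⁆ ∈ Winf j e →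
      Commute (QuotientGroup.mk' (Winf j e) x) (QuotientGroup.mk' (Winf j e) y) := by
    intro x y h
    have h1 : QuotientGroup.mk' (Winf j e) ⁅x, y⁆ = 1 := (QuotientGroup.eq_one_iff _).2 h
    rw [map_commutatorElement, commutatorElement_eq_one_iff_mul_comm] at h1
    exact h1
  have H1 : ∀ i a b u, A.lab u ≠ 0 → Commute (f i a) ((f (!i) u)⁻¹ * f i b * f (!i) u) := by
    intro i a b u hu
    have h1 : ⁅io i a, (io (!i) u)⁻¹ * io i b * io (!i) u⁆ ∈ Winf j e := by
      rw [mem_Winf]
      exact fun n => Pn_le_Wn e (!i) n (comm_mem_Pn e i a b u hu n)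
    have h2 := hmk h1
    rw [map_mul, map_mul, map_inv] at h2
    exact h2
  have H3 : Commute (f true (A.s p j)) (f false (A.s p j)) := by
    apply hmk
    rw [mem_Winf]
    intro n
    have h1 := comm_s_mem_Sn (p := p) (j := j) e (n + 1)
    rw [Sn_succ_eq] at h1
    exact Pn_le_Wn e true n h1.1
  have hfin := finite_B2 f hgen H1 H3 hp2
  have h1 : (commutator (FF p j)).map (QuotientGroup.mk' (Winf j e))
      ≤ commutator (FF p j ⧸ Winf j e) := by
    rw [Subgroup.map_le_iff_le_comap, commutator_eq_closure, Subgroup.closure_le]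
    rintro _ ⟨x, y, rfl⟩
    show QuotientGroup.mk' (Winf j e) ⁅x, y⁆ ∈ commutator (FF p j ⧸ Winf j e)
    rw [map_commutatorElement]
    exact Subgroup.commutator_mem_commutator (Subgroup.mem_top _) (Subgroup.mem_top _)
  have h2 : Finite (commutator (FF p j ⧸ Winf j e)) := inferInstance
  have h3 : Finite ((commutator (FF p j)).map (QuotientGroup.mk' (Winf j e))) :=
    Finite.of_injective (Subgroup.inclusion h1) (Subgroup.inclusion_injective h1)
  have h4 := Subgroup.relIndex_ker (QuotientGroup.mk' (Winf j e)) (K := commutator (FF p j))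
  rw [QuotientGroup.ker_mk'] at h4
  rw [h4]
  exact Nat.card_pos.ne'

/-- the defect -/
noncomputable def eps (n : ℕ) : ℕ := (Wn j e n).relIndex (commutator (FF p j))

lemma eps_dvd_succ (n : ℕ) : eps (j := j) e n ∣ eps (j := j) e (n + 1) :=
  Subgroup.relIndex_dvd_of_le_left _ (Wn_succ_le e n)

lemma eps_dvd (n : ℕ) : eps (j := j) e n ∣ (Winf j e).relIndex (commutator (FF p j)) :=
  Subgroup.relIndex_dvd_of_le_left _ (iInf_le _ n)

lemma eps_eventually_const (hp2 : p ≠ 2) :
    ∃ N c, ∀ n, N ≤ n → eps (j := j) e n = c := by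
  have hB := relIndex_Winf_ne_zero (j := j) e hp2
  set B := (Winf j e).relIndex (commutator (FF p j)) with hBdef
  have hmono : Monotone (eps (j := j) e) := by
    apply monotone_nat_of_le_succ
    intro n
    refine Nat.le_of_dvd ?_ (eps_dvd_succ e n)
    exact Nat.pos_of_ne_zero (fun h => hB (Nat.eq_zero_of_zero_dvd (h ▸ eps_dvd e (n + 1))))
  have hbd : ∀ n, eps (j := j) e n ≤ B := fun n => Nat.le_of_dvd (Nat.pos_of_ne_zero hB) (eps_dvd e n)
  -- a bounded monotone sequence of naturals is eventually constant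
  have : ∃ N, ∀ n, N ≤ n → eps (j := j) e n = eps (j := j) e N := by
    by_contra hcon
    push Not at hcon
    have hgrow : ∀ m, ∃ n, m ≤ eps (j := j) e n := by
      intro m
      induction m with
      | zero => exact ⟨0, Nat.zero_le _⟩
      | succ m ih =>
        obtain ⟨N, hN⟩ := ih
        obtain ⟨n, hn, hne⟩ := hcon N
        exact ⟨n, Nat.succ_le_of_lt (lt_of_le_of_lt hN (lt_of_le_of_ne (hmono hn) (Ne.symm hne)))⟩
    obtain ⟨n, hn⟩ := hgrow (B + 1)
    have := hbd n
    omega
  obtain ⟨N, hN⟩ := this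
  exact ⟨N, _, hN⟩

end Pool.Agent.HD
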