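import Pool.Agent.Lib_helper35.HDIndex

/-!
# The counting identities
-/

set_option autoImplicit false

namespace Pool.Agent.HD

open PowerSeries

lemma index_inf_mul_index_sup {G : Type*} [Group G] (P Q : Subgroup G) [P.Normal] [Q.Normal] :
    (P ⊓ Q).index * (P ⊔ Q).index = P.index * Q.index := by
  have h1 : (P ⊓ Q).relIndex P * P.index = (P ⊓ Q).index := Subgroup.relIndex_mul_index inf_le_left
  have h2 : Q.relIndex (P ⊔ Q) * (P ⊔ Q).index = Q.index := Subgroup.relIndex_mul_index le_sup_right
  rw [Subgroup.relIndex_sup_right] at h2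
  rw [Subgroup.inf_relIndex_left] at h1
  rw [← h1, ← h2]; ring

variable {p j : ℕ} [hp : Fact p.Prime] {X : Type} (e : X ≃ Bool × ZMod p)

lemma ret_surjective (i : Bool) : Function.Surjective (ret i : FF p j →* A p j) :=
  fun a => ⟨io i a, ret_io_same i a⟩

variable (j) in
/-- preimage of the level stabiliser of the copy -/
noncomputable def Rn (p : ℕ) [Fact p.Prime] (i : Bool) (n : ℕ) : Subgroup (FF p j) :=
  (A.Alev p j n).comap (ret i)

lemma mem_Rn {i : Bool} {n : ℕ} {g : FF p j} : g ∈ Rn j p i n ↔ ret i g ∈ A.Alev p j n := Iff.rfl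

lemma index_Rn (i : Bool) (n : ℕ) : (Rn j p i n).index = p ^ (rho p j n + n) := by
  rw [Rn, Subgroup.index_comap_of_surjective _ (ret_surjective i), A.index_Alev]

lemma Sn_le_Rn (i : Bool) (n : ℕ) : Sn j e n ≤ Rn j p i n := fun _ h => ret_mem_Alev e h i

lemma Pn_le_Rn (i : Bool) (n : ℕ) : Pn j e i n ≤ Rn j p i (n + 1) := by
  intro g h
  rw [mem_Rn, A.mem_Alev_succ]
  constructor
  · have := (h 0).1
    rw [Ps_perm, lt_inj] at this
    simpa using this.2
  · intro x
    rw [← ret_sec e]
    exact ret_mem_Alev e (h x).2 i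

lemma relIndex_Pn (i : Bool) (n : ℕ) :
    (Pn j e i n).relIndex (Rn j p i (n + 1)) = ((Sn j e n).relIndex (Rn j p i n)) ^ p := by
  have hsec : ∀ g : Rn j p i (n + 1), ∀ x, (Ps e g.1).sec (lt e i x) ∈ Rn j p i n := by
    intro g x
    rw [mem_Rn, ret_sec e]
    exact (A.mem_Alev_succ.1 g.2).2 x
  have hperm : ∀ g : Rn j p i (n + 1), ∀ x, (Ps e g.1).perm (lt e i x) = lt e i x := by
    intro g x
    rw [Ps_perm, (A.mem_Alev_succ.1 g.2).1, add_zero]
  have hperm' : ∀ g : Rn j p i (n + 1), ∀ x, (Ps e g.1).perm⁻¹ (lt e i x) = lt e i x := by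
    intro g x
    rw [Equiv.Perm.inv_eq_iff_eq, hperm]
  have key : (Pn j e i n).relIndex (Rn j p i (n + 1))
      = Nat.card (ZMod p → (Rn j p i n ⧸ (Sn j e n).subgroupOf (Rn j p i n))) := by
    refine index_eq_of_fun ((Pn j e i n).subgroupOf (Rn j p i (n + 1)))
      (fun g x => QuotientGroup.mk ⟨(Ps e g.1).sec (lt e i x), hsec g x⟩) ?_ ?_
    · intro q
      have hq : ∀ x, ∃ k : Rn j p i n, QuotientGroup.mk k = q x :=
        fun x => QuotientGroup.mk_surjective (q x)
      choose k hk using hq
      obtain ⟨g, h1, h2⟩ := exists_secs e i (fun x => (k x).1 * (io i (ret i (k x).1))⁻¹)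
        (fun x => by rw [map_mul, map_inv, ret_io_same, mul_inv_cancel])
      have hg : g ∈ Rn j p i (n + 1) := by
        rw [mem_Rn, A.mem_Alev_succ]
        constructor
        · have := h1 0
          rw [Ps_perm, lt_inj] at this
          simpa using this.2
        · intro x
          rw [← ret_sec e, h2, map_mul, map_inv, ret_io_same, mul_inv_cancel]
          exact one_mem _
      refine ⟨⟨g, hg⟩, funext fun x => ?_⟩
      rw [← hk x, QuotientGroup.eq, Subgroup.mem_subgroupOf]
      simp only [Subgroup.coe_mul, Subgroup.coe_inv, h2]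
      have : ((k x).1 * (io i (ret i (k x).1))⁻¹)⁻¹ * (k x).1 = io i (ret i (k x).1) := by group
      rw [this]
      exact io_mem_Sn e (k x).2
    · intro a b
      rw [Subgroup.mem_subgroupOf, mem_Pn]
      have e1 : (Ps e ((a⁻¹ * b : Rn j p i (n + 1)) : FF p j)) = (Ps e a.1)⁻¹ * Ps e b.1 := by
        simp only [Subgroup.coe_mul, Subgroup.coe_inv, map_mul, map_inv]
      rw [e1]
      constructor
      · intro h x
        constructor
        · rw [Wr.mul_perm, Equiv.Perm.mul_apply, hperm, Wr.inv_perm, hperm']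
        · have h3 := congrFun h x
          rw [QuotientGroup.eq, Subgroup.mem_subgroupOf] at h3
          rw [Wr.mul_sec, hperm, Wr.inv_sec, hperm']
          exact h3
      · intro h
        funext x
        rw [QuotientGroup.eq, Subgroup.mem_subgroupOf]
        have h3 := (h x).2
        rw [Wr.mul_sec, hperm, Wr.inv_sec, hperm'] at h3
        exact h3
  rw [key, Nat.card_fun, Nat.card_zmod]
  rfl

lemma index_Pn (i : Bool) (n : ℕ) :
    (Pn j e i n).index = p ^ (rho p j (n + 1) + (n + 1)) * ((Sn j e n).relIndex (Rn j p i n)) ^ p := by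
  rw [← Subgroup.relIndex_mul_index (Pn_le_Rn e i n), relIndex_Pn, index_Rn, mul_comm]

lemma index_Sn (i : Bool) (n : ℕ) :
    (Sn j e n).index = (Sn j e n).relIndex (Rn j p i n) * p ^ (rho p j n + n) := by
  rw [← Subgroup.relIndex_mul_index (Sn_le_Rn e i n), index_Rn]

variable (j) in
/-- the product of the two block kernels -/
noncomputable def Wn (n : ℕ) : Subgroup (FF p j) := Pn j e true n ⊔ Pn j e false n

instance Wn_normal (n : ℕ) : (Wn j e n).Normal := by unfold Wn; infer_instance

lemma index_Sn_succ (n : ℕ) : (Sn j e (n + 1)).index * (Wn j e n).index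
    = (Pn j e true n).index * (Pn j e false n).index := by
  rw [Sn_succ_eq, Wn, index_inf_mul_index_sup]

end Pool.Agent.HD
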