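import Pool.Agent.Lib_helper35.HDCentral
import Pool.Agent.Lib_helper35.HDCount

/-!
# Step B: the commutator subgroup of the common quotient is finite
-/

set_option autoImplicit false

namespace Pool.Agent.HD

open PowerSeries
open scoped commutatorElement

lemma bool_ne {i k : Bool} (h : k ≠ i) : k = !i := by
  cases i <;> cases k <;> simp_all

lemma mem_center_of_gen {p j : ℕ} [hp : Fact p.Prime] {C : Type} [Group C] (f : Bool → A p j →* C)
    (hgen : ∀ K : Subgroup C, (∀ i a, f i a ∈ K) → K = ⊤) {z : C} (h : ∀ i a, Commute (f i a) z) :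
    z ∈ Subgroup.center C := by
  have h3 := hgen (Subgroup.centralizer {z}) (fun k a => by
    rw [Subgroup.mem_centralizer_singleton_iff]
    exact (h k a).eq)
  rw [Subgroup.mem_center_iff]
  intro g
  have : g ∈ Subgroup.centralizer {z} := by rw [h3]; trivial
  exact Subgroup.mem_centralizer_singleton_iff.1 this

lemma pow_comm_of_central {G : Type} [Group G] {S τ : G} {m : ℕ}
    (hz : ⁅S, τ⁆ ∈ Subgroup.center G) (hτ : τ ^ m = 1) : Commute (S ^ m) τ := by
  have hc := Subgroup.mem_center_iff.1 hz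
  have e1 : S * τ * S⁻¹ = ⁅S, τ⁆ * τ := by rw [commutatorElement_def]; group
  have e2 : ∀ n : ℕ, S ^ n * τ * (S ^ n)⁻¹ = ⁅S, τ⁆ ^ n * τ := by
    intro n
    induction n with
    | zero => simp
    | succ n ih =>
      have h1 : S ^ (n + 1) * τ * (S ^ (n + 1))⁻¹ = S * (S ^ n * τ * (S ^ n)⁻¹) * S⁻¹ := by
        rw [pow_succ']; group
      have hcS : Commute S (⁅S, τ⁆ ^ n) := Commute.pow_right (hc S) n
      have h2 : S * (⁅S, τ⁆ ^ n * τ) * S⁻¹ = ⁅S, τ⁆ ^ n * (S * τ * S⁻¹) := by
        rw [← mul_assoc, hcS.eq]; group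
      rw [h1, ih, h2, e1, pow_succ]; group
  have e4 : ⁅S, τ⁆ ^ m = 1 := by
    have h1 : (S * τ * S⁻¹) ^ m = 1 := by
      rw [conj_pow, hτ]; group
    rw [e1, (Commute.mul_pow (show Commute ⁅S, τ⁆ τ from (hc τ).symm))] at h1
    rwa [hτ, mul_one] at h1
  have e5 := e2 m
  rw [e4, one_mul] at e5
  rw [mul_inv_eq_iff_eq_mul] at e5
  exact e5

lemma finite_commutatorSet_of_center {C : Type} [Group C] (h : Finite (C ⧸ Subgroup.center C)) :
    Finite (commutatorSet C) := by
  have : commutatorSet C ⊆ Set.range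
      (fun ab : (C ⧸ Subgroup.center C) × (C ⧸ Subgroup.center C) => ⁅ab.1.out, ab.2.out⁆) := by
    rintro _ ⟨g, k, rfl⟩
    refine ⟨((g : C ⧸ Subgroup.center C), (k : C ⧸ Subgroup.center C)), ?_⟩
    obtain ⟨⟨z, hz⟩, h1⟩ := QuotientGroup.mk_out_eq_mul (Subgroup.center C) g
    obtain ⟨⟨z', hz'⟩, h2⟩ := QuotientGroup.mk_out_eq_mul (Subgroup.center C) k
    simp only at h1 h2 ⊢
    rw [h1, h2]
    rw [Subgroup.mem_center_iff] at hz hz'
    rw [commutatorElement_def, commutatorElement_def, mul_inv_rev, mul_inv_rev]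
    have e1 : g * z * (k * z') * (z⁻¹ * g⁻¹) * (z'⁻¹ * k⁻¹)
        = g * (z * (k * z') * z⁻¹) * g⁻¹ * z'⁻¹ * k⁻¹ := by group
    have e2 : z * (k * z') * z⁻¹ = k * z' := by rw [← hz]; group
    have e3 : g * (k * z') * g⁻¹ * z'⁻¹ * k⁻¹ = g * k * (z' * g⁻¹) * z'⁻¹ * k⁻¹ := by group
    rw [e1, e2, e3, ← hz' g⁻¹]
    group
  exact ((Set.finite_range _).subset this).to_subtype

section B1

variable {p j : ℕ} [hp : Fact p.Prime]

namespace A

/-- the generator of infinite order -/
noncomputable def s (p j : ℕ) [Fact p.Prime] : A p j := ⟨1, 0⟩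

/-- the lamp elements -/
noncomputable def lam (h : R p) : A p j := ⟨0, h⟩

lemma lam_mul (h h' : R p) : (lam h * lam h' : A p j) = lam (h + h') := by
  ext1 <;> simp [lam, add_comm]

lemma lam_zero : (lam 0 : A p j) = 1 := rfl

lemma lam_pow (h : R p) (n : ℕ) : (lam h ^ n : A p j) = lam ((n : R p) * h) := by
  induction n with
  | zero => simp [lam_zero]
  | succ n ih => rw [pow_succ, ih, lam_mul]; congr 1; push_cast; ring

lemma s_zpow (k : ℤ) : (s p j ^ k) = ⟨k, 0⟩ := by
  induction k using Int.induction_on with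
  | zero => rfl
  | succ n ih => rw [zpow_add_one, ih]; ext1 <;> simp [s]
  | pred n ih => rw [zpow_sub_one, ih]; ext1 <;> simp [s]; ring

lemma eq_lam_mul_s (a : A p j) : a = lam a.h * s p j ^ a.k := by
  rw [s_zpow]; ext1 <;> simp [lam]

lemma comm_s_lam (h : R p) : ⁅s p j, (lam h : A p j)⁆ = lam (X ^ (j + 1) * h) := by
  rw [commutatorElement_def]
  ext1
  · simp [s, lam]
  · simp only [s, lam, mul_h, mul_k, inv_k, inv_h]
    simp only [zpow_one, add_zero, zero_add, mul_zero, neg_zero, zpow_zero, Units.val_one, one_mul]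
    rw [tt_val]
    simp only [add_neg_cancel, zpow_zero, Units.val_one, one_mul]
    ring

lemma comm_h (a b : A p j) : ∃ h : R p, ⁅a, b⁆ = lam (X ^ (j + 1) * h) := by
  obtain ⟨u, hu⟩ := dvd_tt_zpow_sub_one p j a.k
  obtain ⟨v, hv⟩ := dvd_tt_zpow_sub_one p j b.k
  refine ⟨u * b.h - v * a.h, ?_⟩
  have h1 : ⁅a, b⁆ * (b * a) = a * b := by rw [commutatorElement_def]; group
  have h2 : (lam (X ^ (j + 1) * (u * b.h - v * a.h)) : A p j) * (b * a) = a * b := by
    ext1
    · simp [lam, add_comm]
    · simp only [lam, mul_h, zpow_zero, Units.val_one, one_mul]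
      linear_combination (-b.h) * hu + a.h * hv
  exact mul_right_cancel (h1.trans h2.symm)

lemma mem_commutator_iff (a : A p j) : a ∈ commutator (A p j) ↔ ∃ h : R p, a = lam (X ^ (j + 1) * h) := by
  constructor
  · intro h
    rw [commutator_eq_closure] at h
    induction h using Subgroup.closure_induction with
    | mem x hx =>
      obtain ⟨a, b, rfl⟩ := hx
      exact comm_h a b
    | one => exact ⟨0, by rw [mul_zero]; rfl⟩
    | mul x y _ _ hx hy =>
      obtain ⟨u, rfl⟩ := hx
      obtain ⟨v, rfl⟩ := hy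
      exact ⟨u + v, by rw [lam_mul, mul_add]⟩
    | inv x _ hx =>
      obtain ⟨u, rfl⟩ := hx
      refine ⟨-u, ?_⟩
      rw [_root_.inv_eq_iff_mul_eq_one, lam_mul]
      have : X ^ (j + 1) * u + X ^ (j + 1) * -u = 0 := by ring
      rw [this]; rfl
  · rintro ⟨h, rfl⟩
    rw [← comm_s_lam]
    exact Subgroup.commutator_mem_commutator (Subgroup.mem_top _) (Subgroup.mem_top _)

lemma lab_surjective : Function.Surjective (lab : A p j → ZMod p) :=
  fun c => ⟨lam (C c), by simp [lab, lam]⟩

end A

variable {G : Type} [Group G] (f : Bool → A p j →* G)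
  (hgen : ∀ K : Subgroup G, (∀ i a, f i a ∈ K) → K = ⊤)
  (H1 : ∀ i a b u, A.lab u ≠ 0 → Commute (f i a) ((f (!i) u)⁻¹ * f i b * f (!i) u))
  (H3 : Commute (f true (A.s p j)) (f false (A.s p j)))

include hgen H1 H3 in
/-- the case where the two factors have abelian images -/
theorem finite_B1 (hcomm : ∀ i x y, Commute (f i x) (f i y)) : Finite (commutatorSet G) := by
  -- odd-odd commutators are central
  have z1 : ∀ i v u, A.lab v ≠ 0 → A.lab u ≠ 0 →
      (f i v)⁻¹ * ((f (!i) u)⁻¹ * f i v * f (!i) u) ∈ Subgroup.center G := by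
    intro i v u hv hu
    apply mem_center_of_gen f hgen
    intro k a
    by_cases hk : k = i
    · subst hk
      exact (hcomm k a v).inv_right.mul_right (H1 k a v u hu)
    · have hk' : k = !i := by cases k <;> cases i <;> simp_all
      subst hk'
      have h := H1 (!i) a u⁻¹ v hv
      rw [Bool.not_not, map_inv] at h
      have : (f i v)⁻¹ * ((f (!i) u)⁻¹ * f i v * f (!i) u)
          = (f i v)⁻¹ * (f (!i) u)⁻¹ * f i v * f (!i) u := by group
      rw [this]
      exact h.mul_right (hcomm (!i) a u)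
  set q : ∀ i : Bool, A p j →* G ⧸ Subgroup.center G :=
    fun i => (QuotientGroup.mk' (Subgroup.center G)).comp (f i) with hq
  have c1 : ∀ i v u, A.lab v ≠ 0 → A.lab u ≠ 0 → Commute (q i v) (q (!i) u) := by
    intro i v u hv hu
    have h := z1 i v u hv hu
    rw [← QuotientGroup.eq_one_iff] at h
    have h' : (q i v)⁻¹ * ((q (!i) u)⁻¹ * q i v * q (!i) u) = 1 := h
    have h2 := inv_mul_eq_one.1 h'
    have h3 : q (!i) u * q i v = q i v * q (!i) u := by
      conv_lhs => rw [h2]
      group
    exact h3.symm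
  obtain ⟨u0, hu0'⟩ := A.lab_surjective (p := p) (j := j) 1
  have hu0 : A.lab u0 ≠ 0 := by rw [hu0']; exact one_ne_zero
  have c2 : ∀ i v u, A.lab u ≠ 0 → Commute (q i v) (q (!i) u) := by
    intro i v u hu
    by_cases hv : A.lab v = 0
    · have h1 := c1 i (v * u0) u (by rw [A.lab_mul, hv, zero_add]; exact hu0) hu
      have h2 := c1 i u0 u hu0 hu
      have h3 := h1.mul_left h2.inv_left
      rwa [map_mul, mul_inv_cancel_right] at h3
    · exact c1 i v u hv hu
  have c3 : ∀ i v u, Commute (q i v) (q (!i) u) := by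
    intro i v u
    by_cases hu : A.lab u = 0
    · have h1 := c2 i v (u * u0) (by rw [A.lab_mul, hu, zero_add]; exact hu0)
      have h2 := c2 i v u0 hu0
      have h3 := h1.mul_right h2.inv_right
      rwa [map_mul, mul_inv_cancel_right] at h3
    · exact c2 i v u hu
  have c4 : ∀ i k v u, Commute (q i v) (q k u) := by
    intro i k v u
    by_cases hk : k = i
    · subst hk
      exact (hcomm k v u).map (QuotientGroup.mk' (Subgroup.center G))
    · have hk' : k = !i := by cases k <;> cases i <;> simp_all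
      subst hk'
      exact c3 i v u
  -- commutators of generators are central
  have c5 : ∀ i k v u, ⁅f i v, f k u⁆ ∈ Subgroup.center G := by
    intro i k v u
    rw [← QuotientGroup.eq_one_iff]
    have : ((⁅f i v, f k u⁆ : G) : G ⧸ Subgroup.center G) = ⁅q i v, q k u⁆ :=
      map_commutatorElement (QuotientGroup.mk' (Subgroup.center G)) _ _
    rw [this, commutatorElement_eq_one_iff_mul_comm]
    exact (c4 i k v u).eq
  -- lamps in the commutator subgroup are killed
  have k1 : ∀ i h, f i (A.lam (X ^ (j + 1) * h)) = 1 := by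
    intro i h
    rw [← A.comm_s_lam, map_commutatorElement, commutatorElement_eq_one_iff_mul_comm]
    exact (hcomm i _ _).eq
  -- the `p`-th power of `s` is central
  have k2 : ∀ i, f i (A.s p j) ^ p ∈ Subgroup.center G := by
    intro i
    apply mem_center_of_gen f hgen
    intro k a
    apply Commute.symm
    by_cases hk : k = i
    · subst hk; exact (hcomm k _ _).pow_left p
    · have H3' : Commute (f i (A.s p j)) (f k (A.s p j)) := by
        have hk' : k = !i := bool_ne hk
        subst hk'
        cases i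
        · exact H3.symm
        · exact H3
      rw [A.eq_lam_mul_s a, map_mul, map_zpow]
      refine Commute.mul_right ?_ ((H3'.pow_left p).zpow_right _)
      apply pow_comm_of_central (c5 i k (A.s p j) (A.lam a.h))
      rw [← map_pow, A.lam_pow]
      have : CharP (R p) p := charP_of_injective_algebraMap (R := ZMod p) (A := R p)
        (algebraMap (ZMod p) (R p)).injective p
      rw [CharP.cast_eq_zero, zero_mul, A.lam_zero, map_one]
  have k3 : ∀ i a, a ∈ (A.Lev 1 (j + 1) : Subgroup (A p j)) → f i a ∈ Subgroup.center G := by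
    rintro i a ⟨⟨m, hm⟩, ⟨h, hh⟩⟩
    rw [A.eq_lam_mul_s a, map_mul, hh, k1, one_mul, map_zpow, hm, pow_one, zpow_mul, zpow_natCast]
    exact Subgroup.zpow_mem _ (k2 i) m
  -- the quotient by the centre is finite
  apply finite_commutatorSet_of_center
  set Φ : A p j × A p j →* G ⧸ Subgroup.center G :=
    MonoidHom.noncommCoprod (q true) (q false) (fun v u => c3 true v u) with hΦ
  have hΦsurj : Function.Surjective Φ := by
    rw [← MonoidHom.range_eq_top]
    have h1 := hgen (Φ.range.comap (QuotientGroup.mk' (Subgroup.center G))) (by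
      intro i a
      cases i
      · exact ⟨(1, a), by simp [hΦ, hq]⟩
      · exact ⟨(a, 1), by simp [hΦ, hq]⟩)
    rw [eq_top_iff]
    intro y _
    obtain ⟨g, rfl⟩ := QuotientGroup.mk_surjective y
    have : g ∈ Φ.range.comap (QuotientGroup.mk' (Subgroup.center G)) := by rw [h1]; trivial
    exact this
  have hker : ((A.Lev 1 (j + 1) : Subgroup (A p j)).prod
      (A.Lev 1 (j + 1) : Subgroup (A p j))) ≤ Φ.ker := by
    rintro ⟨a, b⟩ ⟨ha, hb⟩
    have h1 : q true a = 1 := (QuotientGroup.eq_one_iff _).2 (k3 true a ha)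
    have h2 : q false b = 1 := (QuotientGroup.eq_one_iff _).2 (k3 false b hb)
    rw [MonoidHom.mem_ker]
    simp [hΦ, h1, h2]
  have hidx : ((A.Lev 1 (j + 1) : Subgroup (A p j)).prod
      (A.Lev 1 (j + 1) : Subgroup (A p j))).index ≠ 0 := by
    rw [Subgroup.index_prod, A.index_Lev]
    have := hp.out.pos
    positivity
  have h5 : Φ.ker.index ≠ 0 := by
    intro h0
    have := Subgroup.index_dvd_of_le hker
    rw [h0] at this
    exact hidx (Nat.eq_zero_of_zero_dvd this)
  rw [Subgroup.index_ker, MonoidHom.range_eq_top.2 hΦsurj, Subgroup.card_top] at h5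
  exact Nat.finite_of_card_ne_zero h5

include hgen H1 H3 in
/-- **The commutator subgroup of the common quotient is finite** (`p` odd). -/
theorem finite_B2 (hp2 : p ≠ 2) : Finite (commutatorSet G) := by
  have hcen : ∀ i, (commutator (A p j)).map (f i) ≤ Subgroup.center G := by
    intro i
    rw [Subgroup.map_le_iff_le_comap, commutator_eq_closure, Subgroup.closure_le]
    rintro _ ⟨x, y, rfl⟩
    exact map_commutator_center A.lab A.lab_mul A.lab_surjective hp2 f hgen H1 i x y
  have hkill : ∀ i h, f i (A.lam (X ^ (2 * (j + 1)) * h)) = 1 := by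
    intro i h
    have e1 : (X ^ (2 * (j + 1)) * h : R p) = X ^ (j + 1) * (X ^ (j + 1) * h) := by
      rw [two_mul, pow_add, mul_assoc]
    rw [e1, ← A.comm_s_lam, map_commutatorElement, commutatorElement_eq_one_iff_mul_comm]
    have h2 : f i (A.lam (X ^ (j + 1) * h)) ∈ Subgroup.center G := by
      apply hcen i
      exact ⟨_, (A.mem_commutator_iff _).2 ⟨h, rfl⟩, rfl⟩
    exact Subgroup.mem_center_iff.1 h2 _
  have hfin : ∀ i, Finite ((commutator (A p j)).map (f i)) := by
    intro i
    have hsub : (((commutator (A p j)).map (f i) : Subgroup G) : Set G) ⊆ Set.range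
        (fun v : Fin (2 * (j + 1)) → ZMod p =>
          f i (A.lam (PowerSeries.mk fun n => if h : n < 2 * (j + 1) then v ⟨n, h⟩ else 0))) := by
      rintro _ ⟨g, hg, rfl⟩
      obtain ⟨h, rfl⟩ := (A.mem_commutator_iff g).1 hg
      set h' := (X ^ (j + 1) * h : R p)
      refine ⟨fun m => coeff m.1 h', ?_⟩
      simp only
      set P : R p := PowerSeries.mk fun n => if h : n < 2 * (j + 1) then coeff n h' else 0 with hP
      have hdiv : (X : R p) ^ (2 * (j + 1)) ∣ h' - P := by
        rw [PowerSeries.X_pow_dvd_iff]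
        intro m hm
        simp [hP, hm]
      obtain ⟨u, hu⟩ := hdiv
      have e2 : h' = P + X ^ (2 * (j + 1)) * u := by rw [← hu]; ring
      rw [e2, ← A.lam_mul, map_mul, hkill, mul_one]
    exact ((Set.finite_range _).subset hsub).to_subtype
  set N : Subgroup G := (commutator (A p j)).map (f true) ⊔ (commutator (A p j)).map (f false) with hN
  have hNcen : N ≤ Subgroup.center G := sup_le (hcen true) (hcen false)
  have hNn : N.Normal := by
    constructor
    intro n hn g
    rw [Subgroup.mem_center_iff.1 (hNcen hn) g, mul_assoc, mul_inv_cancel, mul_one]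
    exact hn
  have hNt : ((commutator (A p j)).map (f true)).Normal := by
    constructor
    intro n hn g
    rw [Subgroup.mem_center_iff.1 (hcen true hn) g, mul_assoc, mul_inv_cancel, mul_one]
    exact hn
  have hNfin : (N : Set G).Finite := by
    have h1 := hfin true
    have h2 := hfin false
    rw [hN, Subgroup.normal_mul]
    exact Set.Finite.mul (Set.toFinite _) (Set.toFinite _)
  set f1 : Bool → A p j →* G ⧸ N := fun i => (QuotientGroup.mk' N).comp (f i) with hf1
  have hgen1 : ∀ K : Subgroup (G ⧸ N), (∀ i a, f1 i a ∈ K) → K = ⊤ := by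
    intro K hK
    have h1 := hgen (K.comap (QuotientGroup.mk' N)) hK
    rw [eq_top_iff]
    intro y _
    obtain ⟨g, rfl⟩ := QuotientGroup.mk_surjective y
    have : g ∈ K.comap (QuotientGroup.mk' N) := by rw [h1]; trivial
    exact this
  have H1' : ∀ i a b u, A.lab u ≠ 0 → Commute (f1 i a) ((f1 (!i) u)⁻¹ * f1 i b * f1 (!i) u) :=
    fun i a b u hu => (H1 i a b u hu).map (QuotientGroup.mk' N)
  have H3' : Commute (f1 true (A.s p j)) (f1 false (A.s p j)) := H3.map (QuotientGroup.mk' N)
  have hcomm : ∀ i x y, Commute (f1 i x) (f1 i y) := by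
    intro i x y
    have h1 : f i ⁅x, y⁆ ∈ N := by
      have h2 : f i ⁅x, y⁆ ∈ (commutator (A p j)).map (f i) :=
        ⟨_, Subgroup.commutator_mem_commutator (Subgroup.mem_top _) (Subgroup.mem_top _), rfl⟩
      cases i
      · exact Subgroup.mem_sup_right h2
      · exact Subgroup.mem_sup_left h2
    have h3 : f1 i ⁅x, y⁆ = 1 := (QuotientGroup.eq_one_iff _).2 h1
    rw [map_commutatorElement, commutatorElement_eq_one_iff_mul_comm] at h3
    exact h3
  have hfin1 := finite_B1 f1 hgen1 H1' H3' hcomm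
  have hsub : commutatorSet G ⊆ (QuotientGroup.mk' N) ⁻¹' (commutatorSet (G ⧸ N)) := by
    rintro _ ⟨x, y, rfl⟩
    exact ⟨_, _, (map_commutatorElement (QuotientGroup.mk' N) x y).symm⟩
  have hpre : ((QuotientGroup.mk' N) ⁻¹' (commutatorSet (G ⧸ N))).Finite := by
    apply Set.Finite.preimage' (Set.toFinite _)
    intro b _
    obtain ⟨g, rfl⟩ := QuotientGroup.mk_surjective b
    refine (hNfin.image (fun n => g * n)).subset ?_
    intro x hx
    have hx' : ((g : G) : G ⧸ N) = x := (show ((x : G) : G ⧸ N) = g from hx).symm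
    rw [QuotientGroup.eq] at hx'
    exact ⟨g⁻¹ * x, hx', by simp⟩
  exact (hpre.subset hsub).to_subtype

end B1

end Pool.Agent.HD
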