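import Pool.Agent.Lib_helper35.HDBlocks

/-!
# Index computations
-/

set_option autoImplicit false

namespace Pool.Agent.HD

open PowerSeries

variable {p j : ℕ} [hp : Fact p.Prime] {X : Type} (e : X ≃ Bool × ZMod p)

variable (j) in
/-- level stabilisers in the free product -/
noncomputable abbrev Sn (n : ℕ) : Subgroup (FF p j) := St (Ps e) n

lemma mem_Sn_succ {n : ℕ} {g : FF p j} :
    g ∈ Sn j e (n + 1) ↔ ∀ i x, (Ps e g).perm (lt e i x) = lt e i x ∧
      (Ps e g).sec (lt e i x) ∈ Sn j e n := by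
  rw [Sn, mem_St_succ]
  constructor
  · intro h i x; exact h _
  · intro h x
    obtain ⟨i, y, rfl⟩ := exists_lt e x
    exact h i y

lemma io_mem_Sn {n : ℕ} {i : Bool} {a : A p j} (h : a ∈ A.Alev p j n) : io i a ∈ Sn j e n := by
  induction n generalizing a with
  | zero => rw [Sn, St_zero]; trivial
  | succ n ih =>
    rw [mem_Sn_succ]
    rw [A.mem_Alev_succ] at h
    intro k x
    rw [Ps_io]
    by_cases hk : k = i
    · subst hk
      simp only [bperm_same, bsec_same, h.1, add_zero, true_and]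
      exact ih (h.2 x)
    · rw [bperm_ne e hk]
      refine ⟨rfl, ?_⟩
      by_cases hx : x = 0
      · subst hx
        simp only [bsec_ne_zero e hk]
        exact ih (A.Alev_succ_le n (A.mem_Alev_succ.2 h))
      · simp only [bsec_ne e hk _ hx]
        exact one_mem _

lemma ret_mem_Alev {n : ℕ} {g : FF p j} (h : g ∈ Sn j e n) (i : Bool) :
    ret i g ∈ A.Alev p j n := by
  induction n generalizing g with
  | zero => rw [A.Alev_zero]; trivial
  | succ n ih =>
    rw [mem_Sn_succ] at h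
    rw [A.mem_Alev_succ]
    constructor
    · have := (h i 0).1
      rw [Ps_perm, lt_inj] at this
      simpa using this.2
    · intro x
      rw [← ret_sec e]
      exact ih (h i x).2

variable (j) in
/-- elements acting trivially on the first `n + 1` levels below the block `i` -/
noncomputable def Pn (i : Bool) (n : ℕ) : Subgroup (FF p j) where
  carrier := {g | ∀ x, (Ps e g).perm (lt e i x) = lt e i x ∧ (Ps e g).sec (lt e i x) ∈ Sn j e n}
  one_mem' := fun x => by simp [one_mem]
  mul_mem' := by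
    intro a b ha hb x
    rw [map_mul, Wr.mul_perm, Equiv.Perm.mul_apply, (hb x).1, Wr.mul_sec, (hb x).1]
    exact ⟨(ha x).1, mul_mem (ha x).2 (hb x).2⟩
  inv_mem' := by
    intro a ha x
    have h1 : (Ps e a).perm⁻¹ (lt e i x) = lt e i x := by
      rw [Equiv.Perm.inv_eq_iff_eq]; exact (ha x).1.symm
    rw [map_inv, Wr.inv_perm, Wr.inv_sec, h1]
    exact ⟨rfl, inv_mem (ha x).2⟩

lemma mem_Pn {i : Bool} {n : ℕ} {g : FF p j} :
    g ∈ Pn j e i n ↔ ∀ x, (Ps e g).perm (lt e i x) = lt e i x ∧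
      (Ps e g).sec (lt e i x) ∈ Sn j e n := Iff.rfl

lemma conj_sec (g n : FF p j) (z : X) (h : (Ps e n).perm ((Ps e g).perm⁻¹ z) = (Ps e g).perm⁻¹ z) :
    (Ps e (g * n * g⁻¹)).perm z = z ∧ (Ps e (g * n * g⁻¹)).sec z
      = (Ps e g).sec ((Ps e g).perm⁻¹ z) * (Ps e n).sec ((Ps e g).perm⁻¹ z)
        * ((Ps e g).sec ((Ps e g).perm⁻¹ z))⁻¹ := by
  constructor
  · simp only [map_mul, map_inv, Wr.mul_perm, Wr.inv_perm, Equiv.Perm.mul_apply]
    rw [h]; simp
  · simp only [map_mul, map_inv, Wr.mul_sec, Wr.inv_perm, Wr.inv_sec]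
    rw [h]

lemma perm_inv_lt (g : FF p j) (i : Bool) (x : ZMod p) :
    (Ps e g).perm⁻¹ (lt e i x) = lt e i (x - (ret i g).lab) := by
  rw [Equiv.Perm.inv_eq_iff_eq, Ps_perm]
  congr 1; ring

instance Pn_normal (i : Bool) (n : ℕ) : (Pn j e i n).Normal := by
  constructor
  intro n' hn g x
  have h1 := perm_inv_lt e g i x
  have h2 := hn (x - (ret i g).lab)
  obtain ⟨h3, h4⟩ := conj_sec e g n' (lt e i x) (by rw [h1]; exact h2.1)
  refine ⟨h3, ?_⟩
  rw [h4, h1]
  exact (inferInstance : (Sn j e n).Normal).conj_mem _ h2.2 _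

lemma Sn_succ_eq (n : ℕ) : Sn j e (n + 1) = Pn j e true n ⊓ Pn j e false n := by
  ext g
  rw [mem_Sn_succ, Subgroup.mem_inf, mem_Pn, mem_Pn]
  constructor
  · intro h; exact ⟨h true, h false⟩
  · rintro ⟨h1, h2⟩ i
    cases i
    · exact h2
    · exact h1

/-- every element of the free product is the section at `lt i 0` of an element that fixes the
letters of the block `i` -/
lemma exists_lift (i : Bool) (y : FF p j) :
    ∃ g : FF p j, (∀ x, (Ps e g).perm (lt e i x) = lt e i x) ∧ (Ps e g).sec (lt e i 0) = y := by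
  induction y using FF_ind with
  | h1 => exact ⟨1, by simp⟩
  | ho k a =>
    by_cases hk : k = i
    · subst hk
      refine ⟨io k ⟨a.k, PowerSeries.X * a.h⟩, fun x => ?_, ?_⟩
      · rw [Ps_io]; simp [A.lab]
      · rw [Ps_io]
        simp only [bsec_same]
        congr 1
        ext1
        · rfl
        · simp [A.sec, shift_X_mul]
    · refine ⟨io k a, fun x => ?_, ?_⟩
      · rw [Ps_io]; simp [bperm_ne e (Ne.symm hk)]
      · rw [Ps_io]; simp [bsec_ne_zero e (Ne.symm hk)]
  | hm g h hg hh =>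
    obtain ⟨g', h1, h2⟩ := hg
    obtain ⟨h', h3, h4⟩ := hh
    refine ⟨g' * h', fun x => ?_, ?_⟩
    · simp [h1, h3]
    · simp [h3, h2, h4]

/-- sections at `lt i 0` of elements that are trivial elsewhere below the block `i` -/
noncomputable def Jn (i : Bool) : Subgroup (FF p j) where
  carrier := {k | ∃ g : FF p j, (∀ x, (Ps e g).perm (lt e i x) = lt e i x) ∧
    (Ps e g).sec (lt e i 0) = k ∧ ∀ x, x ≠ 0 → (Ps e g).sec (lt e i x) = 1}
  one_mem' := ⟨1, by simp⟩
  mul_mem' := by
    rintro a b ⟨g, h1, h2, h3⟩ ⟨g', h1', h2', h3'⟩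
    refine ⟨g * g', fun x => by simp [h1, h1'], by simp [h1', h2, h2'], fun x hx => ?_⟩
    simp [h1', h3 x hx, h3' x hx]
  inv_mem' := by
    rintro a ⟨g, h1, h2, h3⟩
    have h4 : ∀ x, (Ps e g).perm⁻¹ (lt e i x) = lt e i x := fun x => by
      rw [Equiv.Perm.inv_eq_iff_eq]; exact (h1 x).symm
    refine ⟨g⁻¹, fun x => ?_, ?_, fun x hx => ?_⟩
    · rw [map_inv, Wr.inv_perm, h4]
    · rw [map_inv, Wr.inv_sec, h4, h2]
    · rw [map_inv, Wr.inv_sec, h4, h3 x hx, inv_one]

instance Jn_normal (i : Bool) : (Jn e i : Subgroup (FF p j)).Normal := by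
  constructor
  rintro k ⟨g, h1, h2, h3⟩ y
  obtain ⟨y', hy1, hy2⟩ := exists_lift e i y
  have h4 : ∀ x, (Ps e y').perm⁻¹ (lt e i x) = lt e i x := fun x => by
    rw [Equiv.Perm.inv_eq_iff_eq]; exact (hy1 x).symm
  refine ⟨y' * g * y'⁻¹, fun x => ?_, ?_, fun x hx => ?_⟩
  · exact (conj_sec e y' g (lt e i x) (by rw [h4, h1])).1
  · rw [(conj_sec e y' g (lt e i 0) (by rw [h4, h1])).2, h4, h2, hy2]
  · rw [(conj_sec e y' g (lt e i x) (by rw [h4, h1])).2, h4, h3 x hx]
    simp

lemma mul_ret_inv_mem (i : Bool) (g : FF p j) : g * (io i (ret i g))⁻¹ ∈ (Jn e i : Subgroup (FF p j)) := by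
  induction g using FF_ind with
  | h1 => simp [one_mem]
  | ho k a =>
    by_cases hk : k = i
    · subst hk; simp [one_mem]
    · rw [ret_io_ne hk, map_one, inv_one, mul_one]
      refine ⟨io k a, fun x => ?_, ?_, fun x hx => ?_⟩
      · rw [Ps_io]; simp [bperm_ne e (Ne.symm hk)]
      · rw [Ps_io]; simp [bsec_ne_zero e (Ne.symm hk)]
      · rw [Ps_io]; simp [bsec_ne e (Ne.symm hk) _ hx]
  | hm g h hg hh =>
    have : g * h * (io i (ret i (g * h)))⁻¹
        = g * (h * (io i (ret i h))⁻¹) * g⁻¹ * (g * (io i (ret i g))⁻¹) := by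
      rw [map_mul, map_mul]; group
    rw [this]
    exact mul_mem ((Jn_normal e i).conj_mem _ hh _) hg

lemma ker_ret_le (i : Bool) {g : FF p j} (h : ret i g = 1) : g ∈ (Jn e i : Subgroup (FF p j)) := by
  have := mul_ret_inv_mem e i g
  rw [h] at this
  simpa using this

/-- isolated elements at any letter of the block -/
lemma exists_isolated (i : Bool) (x : ZMod p) {k : FF p j} (hk : ret i k = 1) :
    ∃ g : FF p j, (∀ y, (Ps e g).perm (lt e i y) = lt e i y) ∧
      ∀ y, (Ps e g).sec (lt e i y) = if y = x then k else 1 := by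
  obtain ⟨g, h1, h2, h3⟩ := ker_ret_le e i hk
  set τ : A p j := ⟨0, PowerSeries.C x⟩ with hτ
  have hτlab : τ.lab = x := by simp [A.lab, hτ]
  have hτsec : ∀ y, (Ps e (io i τ)).sec (lt e i y) = 1 := fun y => by
    rw [Ps_io]
    simp only [bsec_same]
    have : τ.sec y = 1 := by
      ext1
      · rfl
      · simp only [A.sec, hτ, zpow_zero, Units.val_one, one_mul, A.one_h]
        rw [← map_add, shift_C]
    rw [this, map_one]
  have hinv : ∀ y, (Ps e (io i τ)).perm⁻¹ (lt e i y) = lt e i (y - x) := fun y => by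
    rw [perm_inv_lt, ret_io_same, hτlab]
  refine ⟨io i τ * g * (io i τ)⁻¹, fun y => ?_, fun y => ?_⟩
  · exact (conj_sec e (io i τ) g (lt e i y) (by rw [hinv, h1])).1
  · rw [(conj_sec e (io i τ) g (lt e i y) (by rw [hinv, h1])).2, hinv, hτsec]
    by_cases hy : y = x
    · subst hy; simp [h2]
    · rw [h3 _ (sub_ne_zero.2 hy)]; simp [hy]

/-- prescribing all sections below the block `i` by elements of the kernel of the retraction -/
lemma exists_secs (i : Bool) (k : ZMod p → FF p j) (hk : ∀ x, ret i (k x) = 1) :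
    ∃ g : FF p j, (∀ y, (Ps e g).perm (lt e i y) = lt e i y) ∧
      ∀ y, (Ps e g).sec (lt e i y) = k y := by
  classical
  have key : ∀ s : Finset (ZMod p), ∃ g : FF p j, (∀ y, (Ps e g).perm (lt e i y) = lt e i y) ∧
      ∀ y, (Ps e g).sec (lt e i y) = if y ∈ s then k y else 1 := by
    intro s
    induction s using Finset.induction_on with
    | empty => exact ⟨1, by simp, by simp⟩
    | insert a s ha ih =>
      obtain ⟨g, h1, h2⟩ := ih
      obtain ⟨g', h1', h2'⟩ := exists_isolated e i a (hk a)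
      refine ⟨g * g', fun y => by simp [h1, h1'], fun y => ?_⟩
      rw [map_mul, Wr.mul_sec, h1', h2, h2']
      by_cases hy : y = a
      · subst hy; simp [ha]
      · simp [hy]
  obtain ⟨g, h1, h2⟩ := key Finset.univ
  exact ⟨g, h1, by simpa using h2⟩

end Pool.Agent.HD
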