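import Mathlib

/-!
# Linear independence of `1`, `∑ q^(-p^r)`, `∑ q^(-2 p^r)` over the rationals
-/

set_option autoImplicit false

namespace Pool.Agent.HD

/-- indicator of the numbers `J * p^r` -/
noncomputable def dd (p J i : ℕ) : ℤ := by
  classical
  exact if ∃ r, i = J * p ^ r then 1 else 0

lemma dd_of {p J i : ℕ} (h : ∃ r, i = J * p ^ r) : dd p J i = 1 := by simp [dd, h]
lemma dd_of_not {p J i : ℕ} (h : ¬ ∃ r, i = J * p ^ r) : dd p J i = 0 := by simp [dd, h]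
lemma abs_dd_le (p J i : ℕ) : |dd p J i| ≤ 1 := by
  unfold dd; split_ifs <;> simp

section run

variable {q : ℕ} (hq : 2 ≤ q) (c : ℕ → ℤ) (B : ℤ) (hB : ∀ i, |c i| ≤ B)

include hq hB

lemma summable_c : Summable (fun i => (c i : ℝ) / (q : ℝ) ^ i) := by
  have hq' : (1 : ℝ) < q := by exact_mod_cast hq
  have hg : Summable (fun i : ℕ => (B : ℝ) * ((1 : ℝ) / q) ^ i) :=
    (summable_geometric_of_lt_one (by positivity) (by rw [div_lt_one (by linarith)]; exact hq')).mul_left _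
  refine Summable.of_norm_bounded hg (fun i => ?_)
  rw [norm_div, norm_pow, Real.norm_eq_abs, Real.norm_eq_abs, abs_of_pos (by linarith : (0 : ℝ) < q),
    div_eq_mul_inv, one_div, inv_pow]
  have : |(c i : ℝ)| ≤ B := by exact_mod_cast hB i
  gcongr

lemma tail_bound (M : ℕ) :
    |(∑' i, (c i : ℝ) / (q : ℝ) ^ i) - ∑ i ∈ Finset.range M, (c i : ℝ) / (q : ℝ) ^ i|
      ≤ 2 * B / (q : ℝ) ^ M := by
  have hq' : (1 : ℝ) < q := by exact_mod_cast hq
  have hq2 : (2 : ℝ) ≤ q := by exact_mod_cast hq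
  have hs := summable_c hq c B hB
  have h1 := hs.sum_add_tsum_nat_add M
  have h2 : (∑' i, (c i : ℝ) / (q : ℝ) ^ i) - ∑ i ∈ Finset.range M, (c i : ℝ) / (q : ℝ) ^ i
      = ∑' i, (c (i + M) : ℝ) / (q : ℝ) ^ (i + M) := by rw [← h1]; ring
  rw [h2]
  have hB0 : (0 : ℝ) ≤ B := by
    have := hB 0
    exact_mod_cast (abs_nonneg _).trans this
  have hg : Summable (fun i : ℕ => (B : ℝ) / (q : ℝ) ^ M * ((1 : ℝ) / q) ^ i) :=
    (summable_geometric_of_lt_one (by positivity) (by rw [div_lt_one (by linarith)]; exact hq')).mul_left _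
  have h3 : ∀ i, ‖(c (i + M) : ℝ) / (q : ℝ) ^ (i + M)‖ ≤ (B : ℝ) / (q : ℝ) ^ M * ((1 : ℝ) / q) ^ i := by
    intro i
    rw [norm_div, norm_pow, Real.norm_eq_abs, Real.norm_eq_abs,
      abs_of_pos (by linarith : (0 : ℝ) < q), pow_add]
    have : |(c (i + M) : ℝ)| ≤ B := by exact_mod_cast hB (i + M)
    have e : (B : ℝ) / (q : ℝ) ^ M * ((1 : ℝ) / q) ^ i = B / ((q : ℝ) ^ i * (q : ℝ) ^ M) := by
      rw [one_div, inv_pow]; field_simp
    rw [e]
    gcongr
  have h4 := tsum_of_norm_bounded hg.hasSum h3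
  rw [Real.norm_eq_abs] at h4
  refine h4.trans ?_
  rw [tsum_mul_left, tsum_geometric_of_lt_one (by positivity) (by rw [div_lt_one (by linarith)]; exact hq')]
  have h5 : (1 - (1 : ℝ) / q)⁻¹ ≤ 2 := by
    rw [inv_le_comm₀ _ (by norm_num)]
    · have : (1 : ℝ) / q ≤ 1 / 2 := by gcongr
      linarith
    · have : (1 : ℝ) / q ≤ 1 / 2 := by gcongr
      linarith
  calc (B : ℝ) / (q : ℝ) ^ M * (1 - (1 : ℝ) / q)⁻¹ ≤ (B : ℝ) / (q : ℝ) ^ M * 2 := by gcongr
    _ = 2 * B / (q : ℝ) ^ M := by ring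

lemma zero_run (r : ℚ) (hr : (∑' i, (c i : ℝ) / (q : ℝ) ^ i) = r) :
    ∃ L : ℕ, ∀ N : ℕ, (∀ i, N ≤ i → i < N + L → c i = 0) →
      ∑ i ∈ Finset.range N, (c i : ℝ) / (q : ℝ) ^ i = r := by
  have hq' : (1 : ℝ) < q := by exact_mod_cast hq
  have hq0 : (0 : ℝ) < q := by linarith
  have hden : (0 : ℝ) < r.den := by exact_mod_cast r.den_pos
  obtain ⟨L, hL⟩ := pow_unbounded_of_one_lt ((r.den : ℝ) * (2 * B)) hq'
  refine ⟨L, fun N hN => ?_⟩
  have hsum : ∑ i ∈ Finset.range (N + L), (c i : ℝ) / (q : ℝ) ^ i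
      = ∑ i ∈ Finset.range N, (c i : ℝ) / (q : ℝ) ^ i := by
    rw [Finset.sum_range_add]
    have : ∑ x ∈ Finset.range L, (c (N + x) : ℝ) / (q : ℝ) ^ (N + x) = 0 := by
      apply Finset.sum_eq_zero
      intro x hx
      rw [hN (N + x) (Nat.le_add_right _ _) (by have := Finset.mem_range.1 hx; omega)]
      simp
    rw [this, add_zero]
  have hb := tail_bound hq c B hB (N + L)
  rw [hr, hsum] at hb
  set S := ∑ i ∈ Finset.range N, (c i : ℝ) / (q : ℝ) ^ i with hS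
  -- an integer
  obtain ⟨z, hz⟩ : ∃ z : ℤ, (q : ℝ) ^ N * S = z := by
    refine ⟨∑ i ∈ Finset.range N, c i * (q : ℤ) ^ (N - i), ?_⟩
    rw [hS, Finset.mul_sum]
    push_cast
    apply Finset.sum_congr rfl
    intro i hi
    have hi' : i ≤ N := (Finset.mem_range.1 hi).le
    have : (q : ℝ) ^ N = (q : ℝ) ^ (N - i) * (q : ℝ) ^ i := by rw [← pow_add, Nat.sub_add_cancel hi']
    rw [this]
    field_simp
  have hz2 : (q : ℝ) ^ N * (r.den : ℝ) * ((r : ℝ) - S) = ((q ^ N * r.num - r.den * z : ℤ) : ℝ) := by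
    push_cast
    rw [← hz]
    have : (r : ℝ) * r.den = r.num := by exact_mod_cast Rat.mul_den_eq_num r
    linear_combination (q : ℝ) ^ N * this
  have hlt : |(((q ^ N * r.num - r.den * z : ℤ)) : ℝ)| < 1 := by
    rw [← hz2, abs_mul, abs_of_pos (by positivity)]
    calc (q : ℝ) ^ N * r.den * |(r : ℝ) - S| ≤ (q : ℝ) ^ N * r.den * (2 * B / (q : ℝ) ^ (N + L)) := by
          gcongr
      _ = (r.den * (2 * B)) / (q : ℝ) ^ L := by rw [pow_add]; field_simp
      _ < 1 := by rw [div_lt_one (by positivity)]; exact hL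
  have hzero : (q ^ N * r.num - r.den * z : ℤ) = 0 := by
    have : |(q ^ N * r.num - r.den * z : ℤ)| < 1 := by exact_mod_cast hlt
    exact Int.abs_lt_one_iff.1 this
  rw [hzero, Int.cast_zero] at hz2
  have : (r : ℝ) - S = 0 := by
    rcases mul_eq_zero.1 hz2 with h | h
    · exact absurd h (by positivity)
    · exact h
  linarith

end run

section indep

variable {p q : ℕ} (hp : 3 ≤ p) (hq : 2 ≤ q)

include hp

lemma gap1 {r i : ℕ} (h1 : 2 * p ^ r < i) (h2 : i < p ^ (r + 1)) : dd p 1 i = 0 ∧ dd p 2 i = 0 := by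
  have hp1 : 1 < p := by omega
  constructor
  · apply dd_of_not
    rintro ⟨s, hs⟩
    rw [one_mul] at hs
    have h3 : p ^ r < p ^ s := by omega
    have h4 : p ^ s < p ^ (r + 1) := by omega
    have h5 := (Nat.pow_lt_pow_iff_right hp1).1 h3
    have h6 := (Nat.pow_lt_pow_iff_right hp1).1 h4
    omega
  · apply dd_of_not
    rintro ⟨s, hs⟩
    have h3 : p ^ r < p ^ s := by omega
    have h4 : p ^ s < p ^ (r + 1) := by omega
    have h5 := (Nat.pow_lt_pow_iff_right hp1).1 h3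
    have h6 := (Nat.pow_lt_pow_iff_right hp1).1 h4
    omega

lemma gap2 {r i : ℕ} (h1 : p ^ r < i) (h2 : i < 2 * p ^ r) : dd p 1 i = 0 ∧ dd p 2 i = 0 := by
  have hp1 : 1 < p := by omega
  constructor
  · apply dd_of_not
    rintro ⟨s, hs⟩
    rw [one_mul] at hs
    have h3 : p ^ r < p ^ s := by omega
    have h5 := (Nat.pow_lt_pow_iff_right hp1).1 h3
    have h6 : p ^ (r + 1) ≤ p ^ s := Nat.pow_le_pow_right (by omega) h5
    have h7 : 2 * p ^ r ≤ p ^ (r + 1) := by rw [pow_succ']; gcongr; omega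
    omega
  · apply dd_of_not
    rintro ⟨s, hs⟩
    have h4 : p ^ s < p ^ r := by omega
    have h6 := (Nat.pow_lt_pow_iff_right hp1).1 h4
    have h7 : p ^ (s + 1) ≤ p ^ r := Nat.pow_le_pow_right (by omega) h6
    have h8 : 2 * p ^ s ≤ p ^ (s + 1) := by rw [pow_succ']; gcongr; omega
    omega

lemma dd_1_2 (hodd : Odd p) (r : ℕ) : dd p 1 (p ^ r) = 1 ∧ dd p 2 (p ^ r) = 0
    ∧ dd p 1 (2 * p ^ r) = 0 ∧ dd p 2 (2 * p ^ r) = 1 := by
  refine ⟨dd_of ⟨r, by ring⟩, dd_of_not ?_, dd_of_not ?_, dd_of ⟨r, rfl⟩⟩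
  · rintro ⟨s, hs⟩
    have h1 : Odd (p ^ r) := hodd.pow
    rw [hs] at h1
    exact (Nat.not_odd_iff_even.2 (even_two_mul _)) h1
  · rintro ⟨s, hs⟩
    have h1 : Odd (p ^ s) := hodd.pow
    rw [one_mul] at hs
    rw [← hs] at h1
    exact (Nat.not_odd_iff_even.2 (even_two_mul _)) h1

include hq

theorem lin_indep (hodd : Odd p) (a b : ℤ) (r : ℚ)
    (h : (∑' i, ((a * dd p 1 i + b * dd p 2 i : ℤ) : ℝ) / (q : ℝ) ^ i) = r) : a = 0 ∧ b = 0 := by
  have hp1 : 1 < p := by omega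
  set c : ℕ → ℤ := fun i => a * dd p 1 i + b * dd p 2 i with hc
  have hB : ∀ i, |c i| ≤ |a| + |b| := by
    intro i
    have h1 := abs_dd_le p 1 i
    have h2 := abs_dd_le p 2 i
    calc |c i| ≤ |a * dd p 1 i| + |b * dd p 2 i| := abs_add_le _ _
      _ = |a| * |dd p 1 i| + |b| * |dd p 2 i| := by rw [abs_mul, abs_mul]
      _ ≤ |a| * 1 + |b| * 1 := by gcongr
      _ = _ := by ring
  obtain ⟨L, hL⟩ := zero_run hq c (|a| + |b|) hB r h
  have hpL : L < p ^ L := Nat.lt_pow_self hp1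
  -- gaps after `2 p^s` and after `p^s`
  have hz1 : ∀ s, L ≤ s → ∀ i, 2 * p ^ s + 1 ≤ i → i < p ^ (s + 1) → c i = 0 := by
    intro s hs i hi1 hi2
    obtain ⟨e1, e2⟩ := gap1 hp (by omega : 2 * p ^ s < i) hi2
    simp [hc, e1, e2]
  have hz2 : ∀ s, L ≤ s → ∀ i, p ^ s + 1 ≤ i → i < 2 * p ^ s → c i = 0 := by
    intro s hs i hi1 hi2
    obtain ⟨e1, e2⟩ := gap2 hp (by omega : p ^ s < i) hi2
    simp [hc, e1, e2]
  have hlen : ∀ s, L ≤ s → L < p ^ s := fun s hs =>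
    lt_of_lt_of_le hpL (Nat.pow_le_pow_right (by omega) hs)
  have hlen' : ∀ s, 3 * p ^ s ≤ p ^ (s + 1) := fun s => by rw [pow_succ']; gcongr
  have hS1 : ∀ s, L ≤ s → ∑ i ∈ Finset.range (2 * p ^ s + 1), (c i : ℝ) / (q : ℝ) ^ i = r := by
    intro s hs
    apply hL
    intro i hi1 hi2
    apply hz1 s hs i hi1
    have := hlen s hs
    have := hlen' s
    omega
  have hS2 : ∀ s, L ≤ s → ∑ i ∈ Finset.range (p ^ s + 1), (c i : ℝ) / (q : ℝ) ^ i = r := by
    intro s hs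
    apply hL
    intro i hi1 hi2
    apply hz2 s hs i hi1
    have := hlen s hs
    omega
  have hext : ∀ M N, M ≤ N → (∀ i, M ≤ i → i < N → c i = 0) →
      ∑ i ∈ Finset.range N, (c i : ℝ) / (q : ℝ) ^ i = ∑ i ∈ Finset.range M, (c i : ℝ) / (q : ℝ) ^ i := by
    intro M N hMN h0
    obtain ⟨k, rfl⟩ := Nat.exists_eq_add_of_le hMN
    rw [Finset.sum_range_add]
    have : ∑ x ∈ Finset.range k, (c (M + x) : ℝ) / (q : ℝ) ^ (M + x) = 0 := by
      apply Finset.sum_eq_zero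
      intro x hx
      rw [h0 (M + x) (Nat.le_add_right _ _) (by have := Finset.mem_range.1 hx; omega)]
      simp
    rw [this, add_zero]
  have hqpos : (0 : ℝ) < q := by exact_mod_cast (by omega : 0 < q)
  constructor
  · have e1 := hS2 (L + 1) (by omega)
    rw [Finset.sum_range_succ, hext (2 * p ^ L + 1) (p ^ (L + 1)) (by have := hlen' L; have := hlen L le_rfl; omega)
      (hz1 L le_rfl), hS1 L le_rfl] at e1
    have e2 : (c (p ^ (L + 1)) : ℝ) / (q : ℝ) ^ (p ^ (L + 1)) = 0 := by linarith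
    have e3 : (c (p ^ (L + 1)) : ℝ) = 0 := by
      rcases div_eq_zero_iff.1 e2 with h | h
      · exact h
      · exact absurd h (by positivity)
    obtain ⟨d1, d2, _, _⟩ := dd_1_2 hp hodd (L + 1)
    have e4 : c (p ^ (L + 1)) = 0 := by exact_mod_cast e3
    simpa [hc, d1, d2] using e4
  · have e1 := hS1 L le_rfl
    rw [Finset.sum_range_succ, hext (p ^ L + 1) (2 * p ^ L) (by have := hlen L le_rfl; omega)
      (hz2 L le_rfl), hS2 L le_rfl] at e1
    have e2 : (c (2 * p ^ L) : ℝ) / (q : ℝ) ^ (2 * p ^ L) = 0 := by linarith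
    have e3 : (c (2 * p ^ L) : ℝ) = 0 := by
      rcases div_eq_zero_iff.1 e2 with h | h
      · exact h
      · exact absurd h (by positivity)
    obtain ⟨_, _, d1, d2⟩ := dd_1_2 hp hodd L
    have e4 : c (2 * p ^ L) = 0 := by exact_mod_cast e3
    simpa [hc, d1, d2] using e4

end indep

end Pool.Agent.HD
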