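import Pool.Agent.Lib_helper35.HDWr

/-!
# The lamplighter-type group of affine maps `f ↦ t^k f + h` of `F_p[[X]]`, `t = 1 + X^(j+1)`
-/

set_option autoImplicit false

namespace Pool.Agent.HD

open PowerSeries

variable (p j : ℕ) [hp : Fact p.Prime]

/-- the ring of power series over the field with `p` elements -/
abbrev R (p : ℕ) : Type := PowerSeries (ZMod p)

lemma isUnit_base : IsUnit (1 + X ^ (j + 1) : R p) := by
  rw [PowerSeries.isUnit_iff_constantCoeff]
  simp

/-- the unit `1 + X^(j+1)` -/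
noncomputable def tt : (R p)ˣ := (isUnit_base p j).unit

lemma tt_val : (tt p j : R p) = 1 + X ^ (j + 1) := rfl

lemma tt_pow_char (r : ℕ) : ((tt p j ^ p ^ r : (R p)ˣ) : R p) = 1 + X ^ ((j + 1) * p ^ r) := by
  have : CharP (R p) p := charP_of_injective_algebraMap (R := ZMod p) (A := R p)
    (algebraMap (ZMod p) (R p)).injective p
  rw [Units.val_pow_eq_pow_val, tt_val, add_pow_char_pow, one_pow, pow_mul]

/-- the level ideal -/
noncomputable abbrev Iv (n : ℕ) : Ideal (R p) := Ideal.span {(X : R p) ^ n}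

/-- image of `t` in the quotient -/
noncomputable def tq (n : ℕ) : (R p ⧸ Iv p n)ˣ :=
  Units.map (Ideal.Quotient.mk (Iv p n)).toMonoidHom (tt p j)

lemma tq_zpow_eq_one_iff (n : ℕ) (k : ℤ) :
    tq p j n ^ k = 1 ↔ (X : R p) ^ n ∣ ((tt p j ^ k : (R p)ˣ) : R p) - 1 := by
  unfold tq
  rw [← map_zpow, Units.ext_iff, Units.coe_map, Units.val_one]
  rw [show ((1 : R p ⧸ Iv p n)) = (Ideal.Quotient.mk (Iv p n)) 1 from (map_one _).symm]
  rw [RingHom.toMonoidHom_eq_coe, MonoidHom.coe_coe, Ideal.Quotient.eq, Ideal.mem_span_singleton]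

lemma exists_rho (n : ℕ) : ∃ r, n ≤ (j + 1) * p ^ r := by
  refine ⟨n, ?_⟩
  calc n ≤ p ^ n := (Nat.lt_pow_self hp.out.one_lt).le
    _ ≤ (j + 1) * p ^ n := Nat.le_mul_of_pos_left _ (by omega)

/-- the exponent of the order of `t` modulo `X^n` -/
noncomputable def rho (n : ℕ) : ℕ := Nat.find (exists_rho p j n)

lemma rho_spec (n : ℕ) : n ≤ (j + 1) * p ^ rho p j n := Nat.find_spec (exists_rho p j n)

lemma lt_of_lt_rho {n r : ℕ} (h : r < rho p j n) : (j + 1) * p ^ r < n :=
  not_le.1 (Nat.find_min (exists_rho p j n) h)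

lemma rho_le_iff {n r : ℕ} : rho p j n ≤ r ↔ n ≤ (j + 1) * p ^ r := by
  constructor
  · intro h
    exact (rho_spec p j n).trans (Nat.mul_le_mul_left _ (Nat.pow_le_pow_right hp.out.pos h))
  · intro h
    exact Nat.find_min' _ h

lemma rho_mono : Monotone (rho p j) := by
  intro m n h
  rw [rho_le_iff]
  exact h.trans (rho_spec p j n)

lemma rho_zero : rho p j 0 = 0 := Nat.le_zero.1 ((rho_le_iff p j).2 (Nat.zero_le _))

lemma X_pow_dvd_X_pow_iff {a b : ℕ} : (X : R p) ^ a ∣ X ^ b ↔ a ≤ b := by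
  constructor
  · intro h
    by_contra hab
    push Not at hab
    have := (PowerSeries.X_pow_dvd_iff.1 h) b hab
    rw [PowerSeries.coeff_X_pow] at this
    simp at this
  · exact fun h => pow_dvd_pow _ h

lemma tq_pow (n r : ℕ) : tq p j n ^ p ^ r = 1 ↔ n ≤ (j + 1) * p ^ r := by
  have := tq_zpow_eq_one_iff p j n ((p ^ r : ℕ) : ℤ)
  rw [zpow_natCast, zpow_natCast, tt_pow_char] at this
  rw [this, add_sub_cancel_left, X_pow_dvd_X_pow_iff]

lemma orderOf_tq (n : ℕ) : orderOf (tq p j n) = p ^ rho p j n := by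
  rcases h : rho p j n with _ | r
  · have := (tq_pow p j n 0).2 (by rw [← h]; exact rho_spec p j n)
    rw [pow_zero, pow_one] at this
    rw [this, orderOf_one, pow_zero]
  · apply orderOf_eq_prime_pow
    · rw [tq_pow, not_le]
      exact lt_of_lt_rho p j (by omega)
    · rw [tq_pow, ← h]
      exact rho_spec p j n

lemma dvd_tt_zpow_sub_one_iff (n : ℕ) (k : ℤ) :
    (X : R p) ^ n ∣ ((tt p j ^ k : (R p)ˣ) : R p) - 1 ↔ ((p ^ rho p j n : ℕ) : ℤ) ∣ k := by
  rw [← tq_zpow_eq_one_iff, ← orderOf_dvd_iff_zpow_eq_one, orderOf_tq]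

lemma dvd_tt_zpow_sub_one (k : ℤ) :
    (X : R p) ^ (j + 1) ∣ ((tt p j ^ k : (R p)ˣ) : R p) - 1 := by
  rw [dvd_tt_zpow_sub_one_iff]
  have : rho p j (j + 1) = 0 := Nat.le_zero.1 ((rho_le_iff p j).2 (by simp))
  rw [this]; simp

lemma constCoeff_tt_zpow (k : ℤ) : constantCoeff ((tt p j ^ k : (R p)ˣ) : R p) = 1 := by
  have h := dvd_tt_zpow_sub_one p j k
  have h2 := (PowerSeries.X_pow_dvd_iff.1 h) 0 (by omega)
  rw [map_sub, coeff_zero_eq_constantCoeff_apply, coeff_zero_one, sub_eq_zero] at h2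
  exact h2

/-- The shift operator `f ↦ (f - f(0)) / X`. -/
noncomputable def shift (f : R p) : R p := PowerSeries.mk fun n => coeff (n + 1) f

variable {p} in
@[simp] lemma coeff_shift (f : R p) (n : ℕ) : coeff n (shift p f) = coeff (n + 1) f := by
  simp [shift]

variable {p} in
lemma X_mul_shift (f : R p) : X * shift p f = f - C (constantCoeff f) := by
  ext n
  cases n with
  | zero => simp
  | succ n => simp [coeff_succ_X_mul]

variable {p} in
lemma shift_X_mul (f : R p) : shift p (X * f) = f := by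
  ext n; simp [coeff_succ_X_mul]

variable {p} in
lemma shift_add (f g : R p) : shift p (f + g) = shift p f + shift p g := by
  ext n; simp

variable {p} in
@[simp] lemma shift_C (c : ZMod p) : shift p (C c) = 0 := by
  ext n; simp

variable {p} in
lemma dvd_shift_iff (n : ℕ) (f : R p) :
    (X : R p) ^ n ∣ shift p f ↔ (X : R p) ^ (n + 1) ∣ f - C (constantCoeff f) := by
  rw [← X_mul_shift, pow_succ']
  exact (mul_dvd_mul_iff_left (PowerSeries.X_ne_zero)).symm

/-- the affine group: pairs `(k, h)` standing for `f ↦ t^k f + h` -/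
@[ext] structure A (p j : ℕ) where
  k : ℤ
  h : R p

namespace A

variable {p j}

noncomputable instance : Mul (A p j) := ⟨fun a b => ⟨a.k + b.k, ((tt p j ^ a.k : (R p)ˣ) : R p) * b.h + a.h⟩⟩
noncomputable instance : One (A p j) := ⟨⟨0, 0⟩⟩
noncomputable instance : Inv (A p j) := ⟨fun a => ⟨-a.k, -(((tt p j ^ (-a.k) : (R p)ˣ) : R p) * a.h)⟩⟩

@[simp] lemma mul_k (a b : A p j) : (a * b).k = a.k + b.k := rfl
@[simp] lemma mul_h (a b : A p j) : (a * b).h = ((tt p j ^ a.k : (R p)ˣ) : R p) * b.h + a.h := rfl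
@[simp] lemma one_k : (1 : A p j).k = 0 := rfl
@[simp] lemma one_h : (1 : A p j).h = 0 := rfl
@[simp] lemma inv_k (a : A p j) : (a⁻¹).k = -a.k := rfl
@[simp] lemma inv_h (a : A p j) : (a⁻¹).h = -(((tt p j ^ (-a.k) : (R p)ˣ) : R p) * a.h) := rfl

noncomputable instance : Group (A p j) where
  mul_assoc a b c := by
    ext1
    · simp [add_assoc]
    · simp only [mul_h, mul_k, zpow_add, Units.val_mul]; ring
  one_mul a := by ext1 <;> simp
  mul_one a := by ext1 <;> simp
  inv_mul_cancel a := by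
    ext1
    · simp
    · simp

/-- the first label -/
noncomputable def lab (a : A p j) : ZMod p := constantCoeff a.h

@[simp] lemma lab_mul (a b : A p j) : lab (a * b) = lab a + lab b := by
  simp [lab, constCoeff_tt_zpow, add_comm]

@[simp] lemma lab_one : lab (1 : A p j) = 0 := by simp [lab]

@[simp] lemma lab_inv (a : A p j) : lab a⁻¹ = - lab a := by
  have := lab_mul a⁻¹ a
  rw [inv_mul_cancel, lab_one] at this
  exact eq_neg_of_add_eq_zero_left this.symm

/-- the section at the letter `x` -/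
noncomputable def sec (a : A p j) (x : ZMod p) : A p j :=
  ⟨a.k, shift p (((tt p j ^ a.k : (R p)ˣ) : R p) * C x + a.h)⟩

@[simp] lemma sec_k (a : A p j) (x : ZMod p) : (sec a x).k = a.k := rfl

lemma X_mul_sec_h (a : A p j) (x : ZMod p) :
    X * (sec a x).h = ((tt p j ^ a.k : (R p)ˣ) : R p) * C x + a.h - C (x + lab a) := by
  unfold sec
  simp only [X_mul_shift]
  rw [map_add, map_mul, constCoeff_tt_zpow, one_mul, constantCoeff_C]
  rfl

lemma sec_mul (a b : A p j) (x : ZMod p) : sec (a * b) x = sec a (x + lab b) * sec b x := by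
  ext1
  · simp
  · apply mul_left_cancel₀ (PowerSeries.X_ne_zero (R := ZMod p))
    have e : X * (sec a (x + lab b) * sec b x).h
        = ((tt p j ^ a.k : (R p)ˣ) : R p) * (X * (sec b x).h) + X * (sec a (x + lab b)).h := by
      rw [mul_h, sec_k]; ring
    rw [e, X_mul_sec_h, X_mul_sec_h, X_mul_sec_h]
    simp only [mul_k, mul_h, zpow_add, Units.val_mul, lab_mul, map_add]
    ring

@[simp] lemma sec_one (x : ZMod p) : sec (1 : A p j) x = 1 := by
  ext1
  · simp
  · simp [sec]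

/-- the subgroup of those `(k, h)` with `p^a ∣ k` and `X^b ∣ h` -/
def Lev (a b : ℕ) : Subgroup (A p j) where
  carrier := {g | ((p ^ a : ℕ) : ℤ) ∣ g.k ∧ (X : R p) ^ b ∣ g.h}
  one_mem' := ⟨dvd_zero _, dvd_zero _⟩
  mul_mem' := by
    rintro g g' ⟨h1, h2⟩ ⟨h3, h4⟩
    exact ⟨dvd_add h1 h3, dvd_add (h4.mul_left _) h2⟩
  inv_mem' := by
    rintro g ⟨h1, h2⟩
    exact ⟨(dvd_neg).2 h1, (dvd_neg).2 (h2.mul_left _)⟩

lemma mem_Lev {a b : ℕ} {g : A p j} :
    g ∈ (Lev a b : Subgroup (A p j)) ↔ ((p ^ a : ℕ) : ℤ) ∣ g.k ∧ (X : R p) ^ b ∣ g.h := Iff.rfl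

lemma index_Lev (a b : ℕ) : (Lev a b : Subgroup (A p j)).index = p ^ (a + b) := by
  have h := index_eq_of_fun (Lev a b : Subgroup (A p j))
    (fun g => ((g.k : ZMod (p ^ a)), fun m : Fin b => coeff m.1 g.h)) ?_ ?_
  · rw [h, Nat.card_prod, Nat.card_fun, Nat.card_zmod, Nat.card_zmod, Nat.card_fin, pow_add]
  · rintro ⟨u, v⟩
    refine ⟨⟨(u.cast : ℤ), PowerSeries.mk fun n => if h : n < b then v ⟨n, h⟩ else 0⟩, ?_⟩
    refine Prod.ext ?_ (funext fun m => ?_)
    · haveI : NeZero (p ^ a) := ⟨pow_ne_zero _ hp.out.ne_zero⟩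
      simp
    · simp
  · intro g g'
    rw [mem_Lev, Prod.mk.injEq]
    apply and_congr
    · rw [eq_comm, ← sub_eq_zero, ← Int.cast_sub, ZMod.intCast_zmod_eq_zero_iff_dvd]
      rw [mul_k, inv_k, neg_add_eq_sub]
    · rw [mul_h, inv_h, inv_k, ← sub_eq_add_neg, ← mul_sub, Units.dvd_mul_left]
      rw [PowerSeries.X_pow_dvd_iff]
      constructor
      · intro h m hm
        rw [map_sub, sub_eq_zero]
        exact (congrFun h ⟨m, hm⟩).symm
      · intro h
        funext m
        have := h m.1 m.2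
        rw [map_sub, sub_eq_zero] at this
        exact this.symm

variable (p j) in
/-- the level stabilisers -/
noncomputable def Alev (n : ℕ) : Subgroup (A p j) := Lev (rho p j n) n

lemma mem_Alev_succ {n : ℕ} {a : A p j} :
    a ∈ Alev p j (n + 1) ↔ lab a = 0 ∧ ∀ x, sec a x ∈ Alev p j n := by
  unfold Alev
  simp only [mem_Lev]
  constructor
  · rintro ⟨h1, h2⟩
    have h0 : lab a = 0 := by
      have := (PowerSeries.X_pow_dvd_iff.1 h2) 0 (by omega)
      simpa [lab] using this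
    refine ⟨h0, fun x => ⟨?_, ?_⟩⟩
    · rw [sec_k]
      refine dvd_trans ?_ h1
      exact_mod_cast pow_dvd_pow p (rho_mono p j (Nat.le_succ n))
    · have h3 : (X : R p) ^ (n + 1) ∣ X * (sec a x).h := by
        rw [X_mul_sec_h, h0, add_zero]
        have h4 : ((tt p j ^ a.k : (R p)ˣ) : R p) * C x + a.h - C x
            = (((tt p j ^ a.k : (R p)ˣ) : R p) - 1) * C x + a.h := by ring
        rw [h4]
        refine dvd_add (Dvd.dvd.mul_right ?_ _) h2
        rw [dvd_tt_zpow_sub_one_iff]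
        exact h1
      rw [pow_succ'] at h3
      exact (mul_dvd_mul_iff_left (PowerSeries.X_ne_zero)).1 h3
  · rintro ⟨h0, h⟩
    have h2 : (X : R p) ^ (n + 1) ∣ a.h := by
      have h3 := mul_dvd_mul_left (X : R p) (h 0).2
      rw [X_mul_sec_h, h0, ← pow_succ'] at h3
      simpa using h3
    refine ⟨?_, h2⟩
    rw [← dvd_tt_zpow_sub_one_iff]
    have h3 := mul_dvd_mul_left (X : R p) (h 1).2
    rw [X_mul_sec_h, h0, ← pow_succ'] at h3
    have h4 := dvd_sub h3 h2
    have e : ((tt p j ^ a.k : (R p)ˣ) : R p) * C 1 + a.h - C (1 + 0) - a.h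
        = ((tt p j ^ a.k : (R p)ˣ) : R p) - 1 := by
      rw [add_zero, map_one]; ring
    rwa [e] at h4

lemma Alev_zero : Alev p j 0 = ⊤ := by
  unfold Alev
  rw [rho_zero]
  ext g
  simp [mem_Lev]

lemma Alev_succ_le (n : ℕ) : Alev p j (n + 1) ≤ Alev p j n := by
  rintro g ⟨h1, h2⟩
  refine ⟨dvd_trans ?_ h1, dvd_trans (pow_dvd_pow _ (Nat.le_succ n)) h2⟩
  exact_mod_cast pow_dvd_pow p (rho_mono p j (Nat.le_succ n))

lemma index_Alev (n : ℕ) : (Alev p j n).index = p ^ (rho p j n + n) := index_Lev _ _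

end A

end Pool.Agent.HD
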