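import Pool.Agent.Lib_helper35.HDAuto

/-!
# Irrationality of the dimensions
-/

set_option autoImplicit false

namespace Pool.Agent.HD

open Filter Topology

variable {p j : ℕ} [hp : Fact p.Prime]

lemma geom_sum_real {q : ℝ} (hq : 1 < q) (n : ℕ) :
    (∑ i ∈ Finset.range n, q ^ i) = (q ^ n - 1) / (q - 1) :=
  geom_sum_eq hq.ne' n

lemma tendsto_ratio {q : ℝ} (hq : 1 < q) : Tendsto (fun n : ℕ => q ^ n / ∑ i ∈ Finset.range n, q ^ i)
    atTop (𝓝 (q - 1)) := by
  have hq0 : 0 < q := by linarith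
  have hq1 : (q - 1) ≠ 0 := by linarith
  have h1 : Tendsto (fun n : ℕ => (q - 1) / (1 - (1 / q) ^ n)) atTop (𝓝 ((q - 1) / (1 - 0))) := by
    apply Tendsto.div tendsto_const_nhds
    · exact (tendsto_pow_atTop_nhds_zero_of_lt_one (by positivity)
        (by rw [div_lt_one hq0]; exact hq)).const_sub 1
    · norm_num
  rw [sub_zero, div_one] at h1
  refine h1.congr' ?_
  filter_upwards [eventually_ge_atTop 1] with n hn
  rw [geom_sum_real hq]
  have h2 : (1 : ℝ) < q ^ n := one_lt_pow₀ hq (by omega)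
  have h3 : q ^ n - 1 ≠ 0 := by linarith
  have h4 : 1 - (1 / q) ^ n ≠ 0 := by
    rw [one_div, inv_pow]
    have : (q ^ n)⁻¹ < 1 := inv_lt_one_of_one_lt₀ h2
    linarith
  rw [one_div, inv_pow] at h4 ⊢
  have h5 : q ^ n ≠ 0 := by positivity
  field_simp

/-- The data extracted from the construction for the parameter `j`. -/
theorem dims {X : Type} [Finite X] (e : X ≃ Bool × ZMod p) (hp2 : p ≠ 2)
    (Q : Subgroup (Equiv.Perm X)) (hQ : Nat.card Q = p ^ 2) :
    ∃ r : ℚ, ∃ κ : ℝ,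
      κ = (r : ℝ) + (((2 * p - 2 : ℚ) / (2 * p * (2 * p - 1)) : ℚ) : ℝ) * TT p (2 * p) (j + 1) ∧
      relDim Q (clos (Subgroup.closure (autS j e))) = κ * ((2 * p - 1 : ℚ) / 2 : ℚ) ∧
      Dim (clos (Subgroup.closure (autS j e)))
        = κ * ((2 * p - 1) * Real.log p / Real.log ((2 * p).factorial)) := by
  obtain ⟨r, hr⟩ := limit_ell (j := j) e hp2
  set κ := (r : ℝ) + (((2 * p - 2 : ℚ) / (2 * p * (2 * p - 1)) : ℚ) : ℝ) * TT p (2 * p) (j + 1) with hκ
  have hp3 : 3 ≤ p := by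
    have := hp.out.two_le
    omega
  have hcX : Nat.card X = 2 * p := by
    rw [Nat.card_congr e, Nat.card_prod, Nat.card_zmod]; simp
  have hlogp : 0 < Real.log p := Real.log_pos (by exact_mod_cast hp.out.one_lt)
  have hq1 : (1 : ℝ) < ((2 * p : ℕ) : ℝ) := by exact_mod_cast (by omega : 1 < 2 * p)
  have hratio := tendsto_ratio hq1
  have hq : ((2 * p : ℕ) : ℝ) = 2 * p := by push_cast; ring
  have hqpos : (0 : ℝ) < ((2 * p : ℕ) : ℝ) := by linarith
  refine ⟨r, κ, rfl, ?_, ?_⟩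
  · apply Tendsto.liminf_eq
    have h1 := (hr.mul hratio).mul_const (1 / 2 : ℝ)
    have e1 : κ * (((2 * p : ℕ) : ℝ) - 1) * (1 / 2) = κ * (((2 * p - 1 : ℚ) / 2 : ℚ) : ℝ) := by
      push_cast; ring
    rw [e1] at h1
    refine h1.congr (fun n => ?_)
    rw [lev_autS, lev_W, hQ, hcX]
    push_cast
    rw [Real.log_pow, Real.log_pow, Real.log_pow]
    push_cast
    rw [← hq]
    have : (((2 * p : ℕ) : ℝ) ^ n) ≠ 0 := by positivity
    by_cases hs : (∑ i ∈ Finset.range n, ((2 * p : ℕ) : ℝ) ^ i) = 0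
    · rw [hs]; simp
    · field_simp
  · apply Tendsto.liminf_eq
    have h1 := (hr.mul hratio).mul_const (Real.log p / Real.log ((2 * p).factorial))
    have e1 : κ * (((2 * p : ℕ) : ℝ) - 1) * (Real.log p / Real.log ((2 * p).factorial))
        = κ * ((2 * p - 1) * Real.log p / Real.log ((2 * p).factorial)) := by
      rw [hq]; ring
    rw [e1] at h1
    refine h1.congr (fun n => ?_)
    rw [lev_autS, card_quot_st, hcX]
    push_cast
    rw [Real.log_pow, Real.log_pow]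
    push_cast
    rw [← hq]
    have : (((2 * p : ℕ) : ℝ) ^ n) ≠ 0 := by positivity
    have hf : Real.log ((2 * p).factorial : ℝ) ≠ 0 := by
      apply (Real.log_pos _).ne'
      exact_mod_cast (by
        calc 1 < 2 * p := by omega
          _ ≤ (2 * p).factorial := Nat.self_le_factorial _)
    by_cases hs : (∑ i ∈ Finset.range n, ((2 * p : ℕ) : ℝ) ^ i) = 0
    · rw [hs]; simp
    · field_simp

lemma TT_indep (hp2 : p ≠ 2) (a b : ℚ) (r : ℚ)
    (h : (a : ℝ) * TT p (2 * p) 1 + (b : ℝ) * TT p (2 * p) 2 = r) : a = 0 ∧ b = 0 := by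
  have hp3 : 3 ≤ p := by
    have := hp.out.two_le
    omega
  have hodd : Odd p := hp.out.odd_of_ne_two hp2
  have hs1 : Summable (fun i => (dd p 1 i : ℝ) / ((2 * p : ℕ) : ℝ) ^ i) :=
    summable_c (q := 2 * p) (by omega) _ 1 (abs_dd_le p 1)
  have hs2 : Summable (fun i => (dd p 2 i : ℝ) / ((2 * p : ℕ) : ℝ) ^ i) :=
    summable_c (q := 2 * p) (by omega) _ 1 (abs_dd_le p 2)
  have key := lin_indep (p := p) (q := 2 * p) hp3 (by omega) hodd (a.num * b.den) (b.num * a.den)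
    (r * a.den * b.den) (by
      have e1 : ∀ i, (((a.num * b.den) * dd p 1 i + (b.num * a.den) * dd p 2 i : ℤ) : ℝ)
          / ((2 * p : ℕ) : ℝ) ^ i = ((a.num * b.den : ℤ) : ℝ) * ((dd p 1 i : ℝ) / ((2 * p : ℕ) : ℝ) ^ i)
          + ((b.num * a.den : ℤ) : ℝ) * ((dd p 2 i : ℝ) / ((2 * p : ℕ) : ℝ) ^ i) := by
        intro i; push_cast; ring
      simp only [e1]
      rw [(hs1.mul_left _).tsum_add (hs2.mul_left _), tsum_mul_left, tsum_mul_left]
      have ha : (a : ℝ) * a.den = a.num := by exact_mod_cast Rat.mul_den_eq_num a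
      have hb : (b : ℝ) * b.den = b.num := by exact_mod_cast Rat.mul_den_eq_num b
      have h' : (a : ℝ) * (∑' i, (dd p 1 i : ℝ) / ((2 * p : ℕ) : ℝ) ^ i)
        + (b : ℝ) * (∑' i, (dd p 2 i : ℝ) / ((2 * p : ℕ) : ℝ) ^ i) = r := h
      push_cast
      rw [← ha, ← hb]
      push_cast at h'
      rw [← h']
      ring)
  obtain ⟨k1, k2⟩ := key
  constructor
  · rcases mul_eq_zero.1 k1 with h | h
    · exact Rat.num_eq_zero.1 h
    · exact absurd (by exact_mod_cast h) b.den_ne_zero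
  · rcases mul_eq_zero.1 k2 with h | h
    · exact Rat.num_eq_zero.1 h
    · exact absurd (by exact_mod_cast h) a.den_ne_zero

lemma card_sylow (hp2 : p ≠ 2) (Q : Sylow p (Equiv.Perm (Fin (2 * p)))) :
    Nat.card (Q : Subgroup (Equiv.Perm (Fin (2 * p)))) = p ^ 2 := by
  have h := Q.card_eq_multiplicity
  rw [h, Nat.card_perm, Nat.card_fin, mul_comm, Nat.factorization_factorial_mul hp.out,
    Nat.factorization_factorial_eq_zero_of_lt (by have := hp.out.two_le; omega)]

/-- **Main theorem.** -/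
theorem main (hp2 : p ≠ 2) :
    ∃ (Q : Sylow p (Equiv.Perm (Fin (2 * p)))) (S : Set (AutT (Fin (2 * p)))),
      IsAutomaton S ∧ Subgroup.closure S ≤ W (Q : Subgroup (Equiv.Perm (Fin (2 * p)))) ∧
      Irrational (relDim (Q : Subgroup (Equiv.Perm (Fin (2 * p)))) (clos (Subgroup.closure S))) ∧
      Irrational (Dim (clos (Subgroup.closure S))) := by
  have hp3 : 3 ≤ p := by
    have := hp.out.two_le
    omega
  have hcard : Fintype.card (Fin (2 * p)) = Fintype.card (Bool × ZMod p) := by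
    simp [ZMod.card]
  set e := Fintype.equivOfCardEq hcard
  set g : ℚ := (2 * p - 2 : ℚ) / (2 * p * (2 * p - 1)) with hg
  have hp3' : (3 : ℚ) ≤ p := by exact_mod_cast hp3
  have hgne : g ≠ 0 := by
    rw [hg]
    have h1 : (2 * p - 2 : ℚ) ≠ 0 := by linarith
    have h2 : (2 * p - 1 : ℚ) ≠ 0 := by linarith
    have h3 : (p : ℚ) ≠ 0 := by linarith
    positivity
  -- the two candidates
  have hj : ∀ j : ℕ, ∃ Q : Sylow p (Equiv.Perm (Fin (2 * p))), labP j e ≤ Q := fun j =>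
    (isPGroup_labP (j := j) e).exists_le_sylow
  obtain ⟨Q0, hQ0⟩ := hj 0
  obtain ⟨Q1, hQ1⟩ := hj 1
  obtain ⟨r0, κ0, hκ0, hrel0, hdim0⟩ := dims (j := 0) e hp2 Q0 (card_sylow hp2 Q0)
  obtain ⟨r1, κ1, hκ1, hrel1, hdim1⟩ := dims (j := 1) e hp2 Q1 (card_sylow hp2 Q1)
  rw [← hg, zero_add] at hκ0
  rw [← hg, show (1 + 1 : ℕ) = 2 from rfl] at hκ1
  have irr0 : Irrational κ0 := by
    rintro ⟨x, hx⟩
    have := (TT_indep (p := p) hp2 g 0 (x - r0) (by push_cast; rw [hx, hκ0]; ring)).1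
    exact hgne this
  have irr1 : Irrational κ1 := by
    rintro ⟨x, hx⟩
    have := (TT_indep (p := p) hp2 0 g (x - r1) (by push_cast; rw [hx, hκ1]; ring)).2
    exact hgne this
  have hhalf : ((2 * p - 1 : ℚ) / 2 : ℚ) ≠ 0 := by
    have h2 : (2 * p - 1 : ℚ) ≠ 0 := by linarith
    positivity
  have irel0 : Irrational (relDim (Q0 : Subgroup (Equiv.Perm (Fin (2 * p))))
      (clos (Subgroup.closure (autS 0 e)))) := by
    rw [hrel0]; exact irr0.mul_ratCast hhalf
  have irel1 : Irrational (relDim (Q1 : Subgroup (Equiv.Perm (Fin (2 * p))))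
      (clos (Subgroup.closure (autS 1 e)))) := by
    rw [hrel1]; exact irr1.mul_ratCast hhalf
  set c0 : ℝ := (2 * p - 1) * Real.log p / Real.log ((2 * p).factorial) with hc0
  have hc0pos : c0 ≠ 0 := by
    have h1 : (0 : ℝ) < Real.log p := Real.log_pos (by exact_mod_cast hp.out.one_lt)
    have h2 : (0 : ℝ) < Real.log ((2 * p).factorial : ℝ) := by
      apply Real.log_pos
      exact_mod_cast (by
        calc 1 < 2 * p := by omega
          _ ≤ (2 * p).factorial := Nat.self_le_factorial _)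
    have h3 : (0 : ℝ) < 2 * p - 1 := by
      have : (3 : ℝ) ≤ p := by exact_mod_cast hp3
      linarith
    rw [hc0]; positivity
  by_cases hd0 : Irrational (Dim (clos (Subgroup.closure (autS 0 e))))
  · exact ⟨Q0, autS 0 e, isAutomaton_autS e, closure_le_W e hQ0, irel0, hd0⟩
  · refine ⟨Q1, autS 1 e, isAutomaton_autS e, closure_le_W e hQ1, irel1, ?_⟩
    rintro ⟨y, hy⟩
    rw [Irrational, not_not] at hd0
    obtain ⟨x, hx⟩ := hd0
    rw [hdim0] at hx
    rw [hdim1] at hy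
    -- `κ0 c0 = x`, `κ1 c0 = y`
    have hy0 : (y : ℝ) ≠ 0 := by
      rw [hy]
      exact mul_ne_zero irr1.ne_zero hc0pos
    have h1 : κ0 * y = κ1 * x := by
      rw [hx, hy]; ring
    have h2 := TT_indep (p := p) hp2 (g * y) (-(g * x)) (x * r1 - y * r0) (by
      push_cast
      rw [hκ0, hκ1] at h1
      linear_combination h1)
    have h3 : y ≠ 0 := by exact_mod_cast hy0
    exact (mul_ne_zero hgne h3) h2.1

end Pool.Agent.HD
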