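import Pool.Agent.Lib_helper35.HDAbel
import Pool.Agent.Lib_helper35.HDIrr

/-!
# The recursion for the logarithms of the level orders, and the limit
-/

set_option autoImplicit false

namespace Pool.Agent.HD

open Filter Topology

variable {p j : ℕ} [hp : Fact p.Prime] {X : Type} (e : X ≃ Bool × ZMod p)

lemma exists_pow_of_dvd {p : ℕ} (hp : p.Prime) {m n : ℕ} (h : m ∣ p ^ n) : ∃ k, m = p ^ k :=
  let ⟨k, _, hk⟩ := (Nat.dvd_prime_pow hp).1 h
  ⟨k, hk⟩

lemma Sn_pow (n : ℕ) : ∃ l, (Sn j e n).index = p ^ l := by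
  induction n with
  | zero => exact ⟨0, by rw [Sn, St_zero, Subgroup.index_top, pow_zero]⟩
  | succ n ih =>
    obtain ⟨l, hl⟩ := ih
    have hQ : ∀ i, ∃ k, (Sn j e n).relIndex (Rn j p i n) = p ^ k := fun i =>
      exists_pow_of_dvd hp.out (n := l) (by rw [← hl, index_Sn e i n]; exact dvd_mul_right _ _)
    obtain ⟨k1, hk1⟩ := hQ true
    obtain ⟨k2, hk2⟩ := hQ false
    have h := index_Sn_succ (j := j) e n
    rw [index_Pn, index_Pn, hk1, hk2, ← pow_mul, ← pow_mul, ← pow_add, ← pow_add, ← pow_add] at h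
    exact exists_pow_of_dvd hp.out (Dvd.intro _ h)

variable (j) in
/-- the logarithm of the order of the `n`-th level quotient -/
noncomputable def ell (n : ℕ) : ℕ := (Sn_pow (j := j) e n).choose

lemma ell_spec (n : ℕ) : (Sn j e n).index = p ^ ell j e n := (Sn_pow (j := j) e n).choose_spec

lemma rec_ell (hp2 : p ≠ 2) : ∃ (N : ℕ) (c : ℤ), ∀ n, N ≤ n →
    (ell j e (n + 1) : ℤ) = 2 * p * ell j e n + 2 * rho p j (n + 1) + 2 * (n + 1)
      - 2 * p * (rho p j n + n) - 2 * rho p j n + c := by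
  obtain ⟨N, ε, hN⟩ := eps_eventually_const (j := j) e hp2
  -- the constant is a power of `p`
  have hS : ∀ i n, (Sn j e n).relIndex (Rn j p i n) * p ^ (rho p j n + n) = p ^ ell j e n := by
    intro i n
    rw [← index_Sn, ell_spec]
  have hQ : ∀ i n, ∃ k, (Sn j e n).relIndex (Rn j p i n) = p ^ k ∧ k + (rho p j n + n) = ell j e n := by
    intro i n
    obtain ⟨k, hk⟩ := exists_pow_of_dvd hp.out (Dvd.intro _ (hS i n))
    refine ⟨k, hk, ?_⟩
    have := hS i n
    rw [hk, ← pow_add] at this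
    exact Nat.pow_right_injective hp.out.two_le this
  have hW : ∀ n, ∃ w, (Wn j e n).index = p ^ w := by
    intro n
    obtain ⟨k1, hk1, _⟩ := hQ true n
    obtain ⟨k2, hk2, _⟩ := hQ false n
    have h := index_Sn_succ (j := j) e n
    rw [index_Pn, index_Pn, hk1, hk2, ← pow_mul, ← pow_mul, ← pow_add, ← pow_add, ← pow_add] at h
    exact exists_pow_of_dvd hp.out (Dvd.intro_left _ h)
  have hε : ∃ e0, ε = p ^ e0 := by
    obtain ⟨w, hw⟩ := hW (max N (j + 1))
    have h := index_Wn (j := j) e (le_max_right N (j + 1))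
    rw [hw, hN _ (le_max_left _ _)] at h
    exact exists_pow_of_dvd hp.out (Dvd.intro _ h.symm)
  obtain ⟨e0, he0⟩ := hε
  refine ⟨max N (j + 1), -(2 * (j + 1) + e0 : ℤ), fun n hn => ?_⟩
  obtain ⟨k1, hk1, h1⟩ := hQ true n
  obtain ⟨k2, hk2, h2⟩ := hQ false n
  have h := index_Sn_succ (j := j) e n
  rw [index_Wn e ((le_max_right N (j + 1)).trans hn), hN n ((le_max_left N (j + 1)).trans hn), he0,
    ell_spec, index_Pn, index_Pn, hk1, hk2, ← pow_mul, ← pow_mul, ← pow_add, ← pow_add, ← pow_add,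
    ← pow_add, ← pow_add] at h
  have h3 := Nat.pow_right_injective hp.out.two_le h
  have h4 : k1 = k2 := by omega
  subst h4
  have h1' : (k1 : ℤ) = ell j e n - (rho p j n + n) := by
    have : ((k1 + (rho p j n + n) : ℕ) : ℤ) = (ell j e n : ℕ) := by rw [h1]
    push_cast at this
    linarith
  have h3' : ((ell j e (n + 1) + (e0 + 2 * (rho p j n + (j + 1))) : ℕ) : ℤ)
      = ((rho p j (n + 1) + (n + 1) + k1 * p + (rho p j (n + 1) + (n + 1) + k1 * p) : ℕ) : ℤ) := by
    exact_mod_cast h3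
  push_cast at h3'
  rw [h1'] at h3'
  linear_combination h3'

lemma rho_succ (n : ℕ) : (rho p j (n + 1) : ℤ) = rho p j n + dd p (j + 1) n := by
  have hp1 := hp.out.one_lt
  by_cases h : ∃ r, n = (j + 1) * p ^ r
  · rw [dd_of h]
    obtain ⟨r, hr⟩ := h
    have h1 : rho p j n = r := by
      apply le_antisymm
      · rw [rho_le_iff, hr]
      · by_contra hlt
        push Not at hlt
        have h2 := rho_spec p j n
        have h3 : (j + 1) * p ^ rho p j n < (j + 1) * p ^ r :=
          Nat.mul_lt_mul_of_pos_left ((Nat.pow_lt_pow_iff_right hp1).2 hlt) (by omega)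
        omega
    have h2 : rho p j (n + 1) = r + 1 := by
      apply le_antisymm
      · rw [rho_le_iff, hr, pow_succ]
        have : 1 ≤ (j + 1) * p ^ r := Nat.mul_pos (by omega) (pow_pos hp.out.pos _)
        calc (j + 1) * p ^ r + 1 ≤ (j + 1) * p ^ r * 2 := by omega
          _ ≤ (j + 1) * p ^ r * p := Nat.mul_le_mul_left _ hp.out.two_le
          _ = (j + 1) * (p ^ r * p) := by ring
      · by_contra hlt
        push Not at hlt
        have h3 : rho p j (n + 1) ≤ r := by omega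
        rw [rho_le_iff] at h3
        omega
    rw [h1, h2]; push_cast; ring
  · rw [dd_of_not h, add_zero]
    congr 1
    apply le_antisymm
    · rw [rho_le_iff]
      have h1 := rho_spec p j n
      rcases h1.lt_or_eq with h2 | h2
      · exact h2
      · exact absurd ⟨_, h2⟩ h
    · exact rho_mono p j (Nat.le_succ n)

lemma rho_le_self (n : ℕ) : rho p j n ≤ n := by
  rw [rho_le_iff]
  calc n ≤ p ^ n := (Nat.lt_pow_self hp.out.one_lt).le
    _ ≤ (j + 1) * p ^ n := Nat.le_mul_of_pos_left _ (by omega)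

/-- The lacunary sum. -/
noncomputable def TT (p q J : ℕ) : ℝ := ∑' i, (dd p J i : ℝ) / (q : ℝ) ^ i

theorem limit_ell (hp2 : p ≠ 2) : ∃ r : ℚ, Tendsto (fun n => (ell j e n : ℝ) / ((2 * p : ℕ) : ℝ) ^ n)
    atTop (𝓝 ((r : ℝ) + (((2 * p - 2 : ℚ) / (2 * p * (2 * p - 1)) : ℚ) : ℝ) * TT p (2 * p) (j + 1))) := by
  obtain ⟨N, c, hN⟩ := rec_ell (j := j) e hp2
  set q : ℝ := ((2 * p : ℕ) : ℝ) with hqdef
  have hp3 : 2 ≤ p := hp.out.two_le
  have hq4 : (4 : ℝ) ≤ q := by
    rw [hqdef]; exact_mod_cast (by omega : 4 ≤ 2 * p)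
  have hq0 : (0 : ℝ) < q := by linarith
  have hq1 : (q - 1) ≠ 0 := by linarith
  have hqp : q = 2 * p := by rw [hqdef]; push_cast; ring
  set α : ℝ := -q / (q - 1) with hα
  set β : ℝ := (2 - q) / (q - 1) with hβ
  set γ : ℝ := (2 + β + c) / (q - 1) with hγ
  set κ : ℝ := (q - 2) / (q - 1) with hκ
  set b : ℕ → ℝ := fun n => ell j e n + α * rho p j n + β * n + γ with hb
  have hrec : ∀ n, N ≤ n → b (n + 1) = q * b n + κ * dd p (j + 1) n := by
    intro n hn
    have h1 : (ell j e (n + 1) : ℝ) = 2 * p * ell j e n + 2 * rho p j (n + 1) + 2 * (n + 1)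
      - 2 * p * (rho p j n + n) - 2 * rho p j n + c := by exact_mod_cast hN n hn
    have h2 : (rho p j (n + 1) : ℝ) = rho p j n + dd p (j + 1) n := by
      exact_mod_cast rho_succ (p := p) (j := j) n
    simp only [hb]
    rw [h1, h2]
    push_cast
    rw [← hqp]
    rw [hγ, hκ, hα, hβ]
    field_simp
    ring
  have hsum : ∀ m, b (N + m) / q ^ (N + m) = b N / q ^ N
      + κ / q * ∑ i ∈ Finset.range m, (dd p (j + 1) (N + i) : ℝ) / q ^ (N + i) := by
    intro m
    induction m with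
    | zero => simp
    | succ m ih =>
      have e3 : b (N + m + 1) / q ^ (N + m + 1) = b (N + m) / q ^ (N + m)
          + κ / q * ((dd p (j + 1) (N + m) : ℝ) / q ^ (N + m)) := by
        rw [hrec (N + m) (Nat.le_add_right _ _), pow_succ]
        field_simp
      rw [← add_assoc, e3, ih, Finset.sum_range_succ]
      ring
  have hB : ∀ i, |dd p (j + 1) i| ≤ (1 : ℤ) := abs_dd_le p (j + 1)
  have hs : Summable (fun i => (dd p (j + 1) i : ℝ) / q ^ i) :=
    summable_c (q := 2 * p) (by omega) _ 1 hB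
  have hlim1 : Tendsto (fun m => ∑ i ∈ Finset.range m, (dd p (j + 1) (N + i) : ℝ) / q ^ (N + i)) atTop
      (𝓝 (TT p (2 * p) (j + 1) - ∑ i ∈ Finset.range N, (dd p (j + 1) i : ℝ) / q ^ i)) := by
    have h1 := hs.hasSum.tendsto_sum_nat
    have h2 := (tendsto_add_atTop_iff_nat N).2 h1
    have h3 := h2.sub_const (∑ i ∈ Finset.range N, (dd p (j + 1) i : ℝ) / q ^ i)
    refine h3.congr (fun m => ?_)
    rw [add_comm m N, Finset.sum_range_add]
    ring
  -- the rational constant
  set r1 : ℝ := b N / q ^ N - κ / q * ∑ i ∈ Finset.range N, (dd p (j + 1) i : ℝ) / q ^ i with hr1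
  have hlim2 : Tendsto (fun n => b n / q ^ n) atTop (𝓝 (r1 + κ / q * TT p (2 * p) (j + 1))) := by
    rw [← tendsto_add_atTop_iff_nat N]
    have h1 := (hlim1.const_mul (κ / q)).const_add (b N / q ^ N)
    have e1 : r1 + κ / q * TT p (2 * p) (j + 1) = b N / q ^ N + κ / q * (TT p (2 * p) (j + 1)
        - ∑ i ∈ Finset.range N, (dd p (j + 1) i : ℝ) / q ^ i) := by rw [hr1]; ring
    rw [e1]
    refine h1.congr (fun m => ?_)
    rw [add_comm m N, hsum]
  have hlin : Tendsto (fun n : ℕ => (n : ℝ) / q ^ n) atTop (𝓝 0) := by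
    have h := tendsto_self_mul_const_pow_of_lt_one (r := 1 / q) (by positivity)
      (by rw [div_lt_one (by linarith)]; linarith)
    refine h.congr (fun n => ?_)
    rw [one_div, inv_pow]; rfl
  have hconst : Tendsto (fun n : ℕ => (1 : ℝ) / q ^ n) atTop (𝓝 0) := by
    have h := tendsto_pow_atTop_nhds_zero_of_lt_one (r := 1 / q) (by positivity)
      (by rw [div_lt_one (by linarith)]; linarith)
    refine h.congr (fun n => ?_)
    rw [one_div, one_div, inv_pow]
  have hrho : Tendsto (fun n : ℕ => (rho p j n : ℝ) / q ^ n) atTop (𝓝 0) := by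
    refine squeeze_zero (fun n => by positivity) (fun n => ?_) hlin
    have : (rho p j n : ℝ) ≤ n := by exact_mod_cast rho_le_self n
    gcongr
  have hcorr : Tendsto (fun n : ℕ => (α * rho p j n + β * n + γ) / q ^ n) atTop (𝓝 0) := by
    have h := ((hrho.const_mul α).add (hlin.const_mul β)).add (hconst.const_mul γ)
    simp only [mul_zero, add_zero] at h
    refine h.congr (fun n => ?_)
    ring
  have hlim3 : Tendsto (fun n => (ell j e n : ℝ) / q ^ n) atTop (𝓝 (r1 + κ / q * TT p (2 * p) (j + 1))) := by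
    have h := hlim2.sub hcorr
    rw [sub_zero] at h
    refine h.congr (fun n => ?_)
    simp only [hb]
    ring
  -- rationality of `r1`
  set qq : ℚ := 2 * p with hqq
  have hqqR : ((qq : ℚ) : ℝ) = q := by rw [hqq, hqp]; push_cast; ring
  refine ⟨((ell j e N : ℚ) + (-qq / (qq - 1)) * rho p j N + ((2 - qq) / (qq - 1)) * N
      + (2 + ((2 - qq) / (qq - 1)) + c) / (qq - 1)) / qq ^ N
      - ((qq - 2) / (qq - 1)) / qq * ∑ i ∈ Finset.range N, (dd p (j + 1) i : ℚ) / qq ^ i, ?_⟩
  have e1 : (((qq - 2) / (qq * (qq - 1)) : ℚ) : ℝ) = κ / q := by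
    push_cast
    rw [hqqR, hκ]
    field_simp
  have e2 : (((2 * p - 2 : ℚ) / (2 * p * (2 * p - 1)) : ℚ) : ℝ) = κ / q := by
    rw [← e1]
  rw [e2]
  convert hlim3 using 3
  rw [hr1]
  simp only [hb]
  push_cast
  rw [hqqR]

end Pool.Agent.HD
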