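import Mathlib

/-!
# Automorphisms of the rooted tree of words, congruence subgroups, Hausdorff dimension
-/

set_option autoImplicit false

namespace Pool.Agent.HD

/-- The automorphism group of the rooted tree of words over `X`: the permutations of the set of
words that preserve length and the relation of being an initial segment. -/
def AutT (X : Type) : Subgroup (Equiv.Perm (List X)) where
  carrier := {g | (∀ u, (g u).length = u.length) ∧ ∀ u v, g u <+: g (u ++ v)}
  one_mem' := ⟨fun u => rfl, fun u v => List.prefix_append u v⟩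
  mul_mem' := by
    rintro a b ⟨ha1, ha2⟩ ⟨hb1, hb2⟩
    refine ⟨fun u => by simp [ha1, hb1], fun u v => ?_⟩
    obtain ⟨w, hw⟩ := hb2 u v
    simp only [Equiv.Perm.coe_mul, Function.comp]
    rw [← hw]
    exact ha2 _ _
  inv_mem' := by
    rintro a ⟨ha1, ha2⟩
    have hlen : ∀ u, (a⁻¹ u).length = u.length := fun u => by
      rw [← ha1 (a⁻¹ u)]; simp
    refine ⟨hlen, fun u v => ?_⟩
    have h1 : (a⁻¹ (u ++ v)) = (a⁻¹ (u ++ v)).take u.length ++ (a⁻¹ (u ++ v)).drop u.length :=
      (List.take_append_drop _ _).symm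
    have h2 := ha2 ((a⁻¹ (u ++ v)).take u.length) ((a⁻¹ (u ++ v)).drop u.length)
    rw [← h1] at h2
    have h3 : a (a⁻¹ (u ++ v)) = u ++ v := by simp
    rw [h3] at h2
    have h4 : (a ((a⁻¹ (u ++ v)).take u.length)).length = u.length := by
      rw [ha1, List.length_take, hlen]; simp
    have h5 : a ((a⁻¹ (u ++ v)).take u.length) = u := by
      have := List.prefix_append u v
      exact (List.prefix_of_prefix_length_le h2 this (by omega)).eq_of_length h4
    have h6 : (a⁻¹ (u ++ v)).take u.length = a⁻¹ u := by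
      rw [Equiv.Perm.eq_inv_iff_eq]; exact h5
    rw [← h6]
    exact List.take_prefix _ _

variable {X : Type}

/-- `st n`: the automorphisms fixing all words of length `n`. -/
def st (n : ℕ) : Subgroup (AutT X) where
  carrier := {g | ∀ w : List X, w.length = n → g.1 w = w}
  one_mem' := fun w _ => rfl
  mul_mem' := by
    intro a b ha hb w hw
    simp only [Subgroup.coe_mul, Equiv.Perm.coe_mul, Function.comp]
    rw [hb w hw, ha w hw]
  inv_mem' := by
    intro a ha w hw
    simp only [Subgroup.coe_inv]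
    rw [Equiv.Perm.inv_eq_iff_eq]
    exact (ha w hw).symm

lemma mem_st {n : ℕ} {g : AutT X} : g ∈ st n ↔ ∀ w : List X, w.length = n → g.1 w = w := Iff.rfl

instance st_normal (n : ℕ) : (st n : Subgroup (AutT X)).Normal := by
  constructor
  intro a ha g w hw
  simp only [Subgroup.coe_mul, Subgroup.coe_inv, Equiv.Perm.coe_mul, Function.comp]
  have h1 : (g.1⁻¹ w).length = n := by
    have := (g⁻¹).2.1 w
    simp only [Subgroup.coe_inv] at this
    rw [this, hw]
  rw [ha _ h1]; simp

/-- The order of the image of `H` in `Aut T / st n`. -/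
noncomputable def lev (n : ℕ) (H : Subgroup (AutT X)) : ℕ :=
  Nat.card (H.map (QuotientGroup.mk' (st n)))

/-- The Hausdorff dimension of `H` in `Aut T`. -/
noncomputable def Dim (H : Subgroup (AutT X)) : ℝ :=
  Filter.liminf (fun n : ℕ => Real.log (lev n H) / Real.log (Nat.card (AutT X ⧸ (st n : Subgroup (AutT X)))))
    Filter.atTop

/-- The group of tree automorphisms all of whose vertex permutations lie in `P`. -/
def W (P : Subgroup (Equiv.Perm X)) : Subgroup (AutT X) where
  carrier := {g | ∀ u : List X, ∃ σ ∈ P, ∀ x, g.1 (u ++ [x]) = g.1 u ++ [σ x]}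
  one_mem' := fun u => ⟨1, P.one_mem, fun x => rfl⟩
  mul_mem' := by
    intro a b ha hb u
    obtain ⟨σ, hσ, h1⟩ := hb u
    obtain ⟨τ, hτ, h2⟩ := ha (b.1 u)
    refine ⟨τ * σ, P.mul_mem hτ hσ, fun x => ?_⟩
    simp only [Subgroup.coe_mul, Equiv.Perm.coe_mul, Function.comp]
    rw [h1, h2]
  inv_mem' := by
    intro a ha u
    obtain ⟨σ, hσ, h1⟩ := ha (a.1⁻¹ u)
    refine ⟨σ⁻¹, P.inv_mem hσ, fun x => ?_⟩
    simp only [Subgroup.coe_inv]
    rw [Equiv.Perm.inv_eq_iff_eq, h1]
    simp

/-- The Hausdorff dimension of `H` relative to `W P`. -/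
noncomputable def relDim (P : Subgroup (Equiv.Perm X)) (H : Subgroup (AutT X)) : ℝ :=
  Filter.liminf (fun n : ℕ => Real.log (lev n H) / Real.log (lev n (W P))) Filter.atTop

/-- The closure of `L` in the profinite topology, `⋂ₙ L · st n`. -/
def clos (L : Subgroup (AutT X)) : Subgroup (AutT X) where
  carrier := {g | ∀ n : ℕ, ∃ h ∈ L, h⁻¹ * g ∈ (st n : Subgroup (AutT X))}
  one_mem' := fun n => ⟨1, L.one_mem, by simp⟩
  mul_mem' := by
    intro a b ha hb n
    obtain ⟨h, hh, h1⟩ := ha n
    obtain ⟨k, hk, h2⟩ := hb n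
    refine ⟨h * k, L.mul_mem hh hk, ?_⟩
    have : (h * k)⁻¹ * (a * b) = (k⁻¹ * (h⁻¹ * a) * k⁻¹⁻¹) * (k⁻¹ * b) := by group
    rw [this]
    exact (st n).mul_mem ((st_normal n).conj_mem _ h1 _) h2
  inv_mem' := by
    intro a ha n
    obtain ⟨h, hh, h1⟩ := ha n
    refine ⟨h⁻¹, L.inv_mem hh, ?_⟩
    have : h⁻¹⁻¹ * a⁻¹ = h * (h⁻¹ * a)⁻¹ * h⁻¹ := by group
    rw [this]
    exact (st_normal n).conj_mem _ ((st n).inv_mem h1) _

/-- A finite invertible automaton: a finite set of tree automorphisms containing all their sections. -/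
def IsAutomaton (S : Set (AutT X)) : Prop :=
  S.Finite ∧ ∀ s ∈ S, ∀ x : X, ∃ s' ∈ S, ∀ w : List X, s.1 (x :: w) = s.1 [x] ++ s'.1 w

end Pool.Agent.HD
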