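import Pool.Agent.Lib_helper35.HDTree

/-!
# Wreath recursion, self-similar actions, level cardinalities of `W P`
-/

set_option autoImplicit false

namespace Pool.Agent.HD

/-- Elements of the permutational wreath product. -/
@[ext] structure Wr (F X : Type) where
  sec : X → F
  perm : Equiv.Perm X

namespace Wr

variable {F X : Type} [Group F]

instance : Mul (Wr F X) := ⟨fun a b => ⟨fun x => a.sec (b.perm x) * b.sec x, a.perm * b.perm⟩⟩
instance : One (Wr F X) := ⟨⟨fun _ => 1, 1⟩⟩
instance : Inv (Wr F X) := ⟨fun a => ⟨fun x => (a.sec (a.perm⁻¹ x))⁻¹, a.perm⁻¹⟩⟩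

@[simp] lemma mul_sec (a b : Wr F X) (x : X) : (a * b).sec x = a.sec (b.perm x) * b.sec x := rfl
@[simp] lemma mul_perm (a b : Wr F X) : (a * b).perm = a.perm * b.perm := rfl
@[simp] lemma one_sec (x : X) : (1 : Wr F X).sec x = 1 := rfl
@[simp] lemma one_perm : (1 : Wr F X).perm = 1 := rfl
@[simp] lemma inv_sec (a : Wr F X) (x : X) : (a⁻¹).sec x = (a.sec (a.perm⁻¹ x))⁻¹ := rfl
@[simp] lemma inv_perm (a : Wr F X) : (a⁻¹).perm = a.perm⁻¹ := rfl

instance : Group (Wr F X) where
  mul_assoc a b c := by
    ext x
    · simp [mul_assoc]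
    · simp [mul_assoc]
  one_mul a := by ext x <;> simp
  mul_one a := by ext x <;> simp
  inv_mul_cancel a := by ext x <;> simp

end Wr

section act

variable {F X : Type} [Group F] (Ψ : F →* Wr F X)

/-- the action on words of a group with a wreath recursion -/
def act : List X → F → List X
  | [], _ => []
  | x :: w, g => (Ψ g).perm x :: act w ((Ψ g).sec x)

@[simp] lemma act_nil (g : F) : act Ψ [] g = [] := rfl
@[simp] lemma act_cons (x : X) (w : List X) (g : F) :
    act Ψ (x :: w) g = (Ψ g).perm x :: act Ψ w ((Ψ g).sec x) := rfl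

@[simp] lemma act_one (w : List X) : act Ψ w 1 = w := by
  induction w with
  | nil => rfl
  | cons x w ih => simp [ih]

lemma act_mul (w : List X) (g h : F) : act Ψ w (g * h) = act Ψ (act Ψ w h) g := by
  induction w generalizing g h with
  | nil => rfl
  | cons x w ih => simp [ih]

@[simp] lemma length_act (w : List X) (g : F) : (act Ψ w g).length = w.length := by
  induction w generalizing g with
  | nil => rfl
  | cons x w ih => simp [ih]

lemma act_append (u v : List X) (g : F) : ∃ h : F, act Ψ (u ++ v) g = act Ψ u g ++ act Ψ v h := by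
  induction u generalizing g with
  | nil => exact ⟨g, rfl⟩
  | cons x u ih =>
    obtain ⟨h, hh⟩ := ih ((Ψ g).sec x)
    exact ⟨h, by simp [hh]⟩

/-- the action as a homomorphism to the group of tree automorphisms -/
def actHom : F →* AutT X where
  toFun g := ⟨⟨fun w => act Ψ w g, fun w => act Ψ w g⁻¹,
    fun w => by show act Ψ (act Ψ w g) g⁻¹ = w; rw [← act_mul]; simp,
    fun w => by show act Ψ (act Ψ w g⁻¹) g = w; rw [← act_mul]; simp⟩,
    ⟨fun u => length_act Ψ u g, fun u v => by
      obtain ⟨h, hh⟩ := act_append Ψ u v g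
      exact ⟨act Ψ v h, hh.symm⟩⟩⟩
  map_one' := by
    apply Subtype.ext
    ext1 w
    exact act_one Ψ w
  map_mul' g h := by
    apply Subtype.ext
    ext1 w
    exact act_mul Ψ w g h

@[simp] lemma actHom_apply (g : F) (w : List X) : (actHom Ψ g).1 w = act Ψ w g := rfl

/-- level stabilisers -/
def St (n : ℕ) : Subgroup F := (st n).comap (actHom Ψ)

instance (n : ℕ) : (St Ψ n).Normal := by unfold St; infer_instance

lemma mem_St {n : ℕ} {g : F} : g ∈ St Ψ n ↔ ∀ w : List X, w.length = n → act Ψ w g = w := Iff.rfl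

lemma St_zero : St Ψ 0 = ⊤ := by
  ext g
  simp only [mem_St, Subgroup.mem_top, iff_true]
  intro w hw
  rw [List.length_eq_zero_iff.1 hw]; rfl

lemma mem_St_succ {n : ℕ} {g : F} :
    g ∈ St Ψ (n + 1) ↔ ∀ x, (Ψ g).perm x = x ∧ (Ψ g).sec x ∈ St Ψ n := by
  constructor
  · intro h x
    constructor
    · have := h (x :: List.replicate n x) (by simp)
      simp only [actHom_apply, act_cons] at this
      exact (List.cons.inj this).1
    · intro w hw
      have := h (x :: w) (by simp [hw])
      simp only [actHom_apply, act_cons] at this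
      exact (List.cons.inj this).2
  · intro h w hw
    cases w with
    | nil => simp at hw
    | cons x w =>
      simp only [actHom_apply, act_cons]
      rw [(h x).1]
      rw [show act Ψ w ((Ψ g).sec x) = w from (h x).2 w (by simpa using hw)]

end act

/-- counting cosets through a map that need not be a homomorphism -/
lemma index_eq_of_fun {G : Type*} {α : Type*} [Group G] (H : Subgroup G) (f : G → α)
    (hs : Function.Surjective f) (h : ∀ a b, f a = f b ↔ a⁻¹ * b ∈ H) : H.index = Nat.card α := by
  unfold Subgroup.index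
  refine Nat.card_congr (Equiv.ofBijective (Quotient.lift f ?_) ⟨?_, ?_⟩)
  · intro a b hab
    exact (h a b).2 (QuotientGroup.leftRel_apply.1 hab)
  · intro a b
    refine Quotient.inductionOn₂ a b ?_
    intro a b hab
    exact Quotient.sound (QuotientGroup.leftRel_apply.2 ((h a b).1 hab))
  · intro y
    obtain ⟨x, hx⟩ := hs y
    exact ⟨Quotient.mk _ x, hx⟩

section decomp

variable {X : Type}

/-- assembling a tree automorphism from its root permutation and its sections -/
def glue (a : Wr (AutT X) X) : AutT X :=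
  ⟨⟨fun w => match w with
      | [] => []
      | x :: w => a.perm x :: (a.sec x).1 w,
    fun w => match w with
      | [] => []
      | x :: w => a.perm⁻¹ x :: ((a.sec (a.perm⁻¹ x))⁻¹).1 w,
    fun w => by cases w <;> simp, fun w => by cases w <;> simp⟩,
   ⟨fun w => by cases w with
      | nil => rfl
      | cons x w => simp [(a.sec x).2.1],
    fun u v => by
      cases u with
      | nil => exact List.nil_prefix
      | cons x u =>
        obtain ⟨w, hw⟩ := (a.sec x).2.2 u v
        exact ⟨w, by simp [hw]⟩⟩⟩

@[simp] lemma glue_nil (a : Wr (AutT X) X) : (glue a).1 [] = [] := rfl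
@[simp] lemma glue_cons (a : Wr (AutT X) X) (x : X) (w : List X) :
    (glue a).1 (x :: w) = a.perm x :: (a.sec x).1 w := rfl

lemma aut_ext {g h : AutT X} (H : ∀ w, g.1 w = h.1 w) : g = h :=
  Subtype.ext (Equiv.ext H)

/-- gluing as a homomorphism -/
def glueHom : Wr (AutT X) X →* AutT X where
  toFun := glue
  map_one' := aut_ext fun w => by cases w <;> rfl
  map_mul' a b := aut_ext fun w => by cases w <;> simp

lemma glue_injective : Function.Injective (glueHom : Wr (AutT X) X →* AutT X) := by
  intro a b h
  have h' : ∀ x w, a.perm x :: (a.sec x).1 w = b.perm x :: (b.sec x).1 w := fun x w =>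
    congrArg (fun g : AutT X => g.1 (x :: w)) h
  apply Wr.ext
  · funext x
    exact aut_ext fun w => (List.cons.inj (h' x w)).2
  · exact Equiv.ext fun x => (List.cons.inj (h' x [])).1

lemma aut_nil (g : AutT X) : g.1 [] = [] := List.length_eq_zero_iff.1 (g.2.1 [])

lemma aut_cons (g : AutT X) (x : X) : ∃ y, ∀ w, ∃ v, g.1 (x :: w) = y :: v := by
  have h1 : (g.1 [x]).length = 1 := g.2.1 [x]
  obtain ⟨y, hy⟩ := List.length_eq_one_iff.1 h1
  refine ⟨y, fun w => ?_⟩
  obtain ⟨v, hv⟩ := g.2.2 [x] w
  exact ⟨v, by rw [← List.singleton_append (x := x), ← hv, hy]; rfl⟩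

/-- the root permutation, as a function -/
noncomputable def rootF (g : AutT X) (x : X) : X := (aut_cons g x).choose

lemma rootF_spec (g : AutT X) (x : X) (w : List X) : ∃ v, g.1 (x :: w) = rootF g x :: v :=
  (aut_cons g x).choose_spec w

lemma rootF_spec' (g : AutT X) (x : X) (w : List X) :
    g.1 (x :: w) = rootF g x :: (g.1 (x :: w)).tail := by
  obtain ⟨v, hv⟩ := rootF_spec g x w
  rw [hv]; rfl

lemma rootF_mul (g h : AutT X) (x : X) : rootF (g * h) x = rootF g (rootF h x) := by
  have h1 := rootF_spec' (g * h) x []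
  simp only [Subgroup.coe_mul, Equiv.Perm.coe_mul, Function.comp] at h1
  obtain ⟨v, hv⟩ := rootF_spec h x []
  rw [hv] at h1
  obtain ⟨v', hv'⟩ := rootF_spec g (rootF h x) v
  rw [hv'] at h1
  exact (List.cons.inj h1).1.symm

lemma rootF_one (x : X) : rootF (1 : AutT X) x = x := by
  obtain ⟨v, hv⟩ := rootF_spec (1 : AutT X) x []
  exact (List.cons.inj hv).1.symm

/-- the root permutation -/
noncomputable def root (g : AutT X) : Equiv.Perm X :=
  ⟨rootF g, rootF g⁻¹, fun x => by rw [← rootF_mul]; simp [rootF_one],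
    fun x => by rw [← rootF_mul]; simp [rootF_one]⟩

lemma root_cons (g : AutT X) (x : X) (w : List X) :
    g.1 (x :: w) = root g x :: (g.1 (x :: w)).tail := rootF_spec' g x w

/-- the section at a letter -/
noncomputable def sect (g : AutT X) (x : X) : AutT X :=
  ⟨⟨fun w => (g.1 (x :: w)).tail, fun w => (g.1⁻¹ (root g x :: w)).tail,
    fun w => by
      show (g.1⁻¹ (root g x :: (g.1 (x :: w)).tail)).tail = w
      rw [← root_cons]; simp,
    fun w => by
      show (g.1 (x :: (g.1⁻¹ (root g x :: w)).tail)).tail = w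
      have h1 : g.1⁻¹ (root g x :: w) = x :: (g.1⁻¹ (root g x :: w)).tail := by
        have := root_cons g⁻¹ (root g x) w
        have h2 : root g⁻¹ (root g x) = x := by
          show rootF g⁻¹ (rootF g x) = x
          rw [← rootF_mul]; simp [rootF_one]
        rw [h2] at this
        exact this
      rw [← h1]; simp⟩,
   ⟨fun u => by simp [g.2.1], fun u v => by
      obtain ⟨w, hw⟩ := g.2.2 (x :: u) v
      refine ⟨w, ?_⟩
      simp only [Equiv.coe_fn_mk]
      rw [← List.cons_append, ← hw, root_cons g x u]
      rfl⟩⟩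

lemma glue_surjective : Function.Surjective (glueHom : Wr (AutT X) X →* AutT X) := by
  intro g
  refine ⟨⟨sect g, root g⟩, aut_ext fun w => ?_⟩
  cases w with
  | nil => exact (aut_nil g).symm
  | cons x w => exact (root_cons g x w).symm

end decomp

end Pool.Agent.HD
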