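import Mathlib

set_option autoImplicit false
set_option linter.all false

namespace Pool.Agent.StdId

open List

section Walk

variable {ι G : Type*} [AddCommGroup G] [DecidableEq G] (d : ι → G)

/-- total degree of a word -/
def degs (l : List ι) : G := (l.map d).sum

/-- number of nonempty initial segments of the word with degree `u` -/
def vis : G → List ι → ℕ
  | _, [] => 0
  | u, (a :: l) => (if d a = u then 1 else 0) + vis (u - d a) l

@[simp] lemma degs_nil : degs d ([] : List ι) = 0 := rfl
@[simp] lemma degs_cons (a : ι) (l : List ι) : degs d (a :: l) = d a + degs d l := by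
  simp [degs]
lemma degs_append (l₁ l₂ : List ι) : degs d (l₁ ++ l₂) = degs d l₁ + degs d l₂ := by
  simp [degs]

@[simp] lemma vis_nil (u : G) : vis d u ([] : List ι) = 0 := rfl
lemma vis_cons (u : G) (a : ι) (l : List ι) :
    vis d u (a :: l) = (if d a = u then 1 else 0) + vis d (u - d a) l := rfl

lemma vis_append (u : G) (l₁ l₂ : List ι) :
    vis d u (l₁ ++ l₂) = vis d u l₁ + vis d (u - degs d l₁) l₂ := by
  induction l₁ generalizing u with
  | nil => simp
  | cons a l ih =>
    simp only [List.cons_append, vis_cons, ih, degs_cons]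
    rw [sub_sub, add_assoc]

lemma vis_pos_of_degs {l : List ι} (hl : l ≠ []) : 1 ≤ vis d (degs d l) l := by
  obtain ⟨l', a, rfl⟩ : ∃ l' a, l = l' ++ [a] := by
    rcases List.eq_nil_or_concat l with h | ⟨l', a, h⟩
    · exact absurd h hl
    · exact ⟨l', a, by simpa using h⟩
  rw [vis_append, degs_append]
  simp [vis_cons]

/-- `α` is the shortest initial segment of degree `v` -/
def First (v : G) (α : List ι) : Prop :=
  degs d α = v ∧ vis d v α = if v = 0 then 0 else 1

/-- nonempty word of degree zero, no proper nonempty initial segment of which has degree zero -/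
def Irr (B : List ι) : Prop := B ≠ [] ∧ degs d B = 0 ∧ vis d 0 B = 1

/-- number of initial segments (the empty one included) of degree `u` -/
def visT (u : G) (l : List ι) : ℕ := (if u = 0 then 1 else 0) + vis d u l

lemma exists_first (v : G) (l : List ι) (h : 1 ≤ visT d v l) :
    ∃ α γ, l = α ++ γ ∧ First d v α := by
  induction l generalizing v with
  | nil =>
    refine ⟨[], [], rfl, ?_⟩
    by_cases hv : v = 0
    · subst hv; simp [First]
    · simp [visT, hv] at h
  | cons a l ih =>
    by_cases hv : v = 0
    · subst hv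
      exact ⟨[], a :: l, rfl, by simp [First]⟩
    · by_cases ha : d a = v
      · refine ⟨[a], l, rfl, ?_⟩
        simp [First, ha, hv, vis_cons]
      · have hv' : v - d a ≠ 0 := by
          intro h0; exact ha (sub_eq_zero.1 h0).symm
        have h1 : 1 ≤ visT d (v - d a) l := by
          simpa [visT, hv, vis_cons, ha, hv'] using h
        obtain ⟨α, γ, h2, h3⟩ := ih _ h1
        refine ⟨a :: α, γ, by simp [h2], ?_⟩
        refine ⟨?_, ?_⟩
        · rw [degs_cons, h3.1]; abel
        · rw [vis_cons, h3.2]; simp [ha, hv, hv']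

lemma exists_block (l : List ι) (h : 1 ≤ vis d 0 l) :
    ∃ B γ, l = B ++ γ ∧ Irr d B := by
  cases l with
  | nil => simp at h
  | cons a l =>
    by_cases ha : d a = 0
    · exact ⟨[a], l, rfl, by simp, by simp [ha], by simp [vis_cons, ha]⟩
    · have ha' : (0 : G) - d a ≠ 0 := by simpa using ha
      have h1 : 1 ≤ visT d (0 - d a) l := by
        simpa [visT, vis_cons, ha, ha'] using h
      obtain ⟨α, γ, h2, h3⟩ := exists_first d _ _ h1
      refine ⟨a :: α, γ, by simp [h2], by simp, ?_, ?_⟩
      · rw [degs_cons, h3.1]; abel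
      · rw [vis_cons, h3.2]; simp [ha]

lemma exists_blocks (p : ℕ) (l : List ι) (h : p ≤ vis d 0 l) :
    ∃ Bs : List (List ι), ∃ β, l = Bs.flatten ++ β ∧ Bs.length = p ∧ ∀ B ∈ Bs, Irr d B := by
  induction p generalizing l with
  | zero => exact ⟨[], l, by simp, rfl, by simp⟩
  | succ p ih =>
    obtain ⟨B, γ, rfl, hB⟩ := exists_block d l (by omega)
    have h1 : p ≤ vis d 0 γ := by
      rw [vis_append, hB.2.1, hB.2.2, sub_zero] at h; omega
    obtain ⟨Bs, β, rfl, h2, h3⟩ := ih γ h1
    refine ⟨B :: Bs, β, by simp, by simp [h2], ?_⟩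
    intro C hC
    rcases List.mem_cons.1 hC with rfl | hC
    · exact hB
    · exact h3 C hC

/-- `t` is the decomposition of `l` at the first `p + 1` visits of `v` -/
def IsDec (v : G) (p : ℕ) (l : List ι) (t : List ι × List (List ι) × List ι) : Prop :=
  l = t.1 ++ (t.2.1.flatten ++ t.2.2) ∧ First d v t.1 ∧ t.2.1.length = p ∧
    ∀ B ∈ t.2.1, Irr d B

lemma exists_dec (v : G) (p : ℕ) (l : List ι) (h : p + 1 ≤ visT d v l) :
    ∃ t, IsDec d v p l t := by
  obtain ⟨α, γ, rfl, hα⟩ := exists_first d v l (by omega)
  have h1 : p ≤ vis d 0 γ := by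
    rw [visT, vis_append, hα.1, hα.2, sub_self] at h
    split_ifs at h <;> omega
  obtain ⟨Bs, β, rfl, h2, h3⟩ := exists_blocks d p γ h1
  exact ⟨(α, Bs, β), rfl, hα, h2, h3⟩

lemma first_unique_aux (v : G) (α γ : List ι) (h : First d v α) (h' : First d v (α ++ γ)) :
    γ = [] := by
  by_contra hγ
  have h1 : degs d γ = 0 := by
    have := h'.1
    rw [degs_append, h.1] at this
    simpa using this
  have h2 := vis_pos_of_degs d hγ
  rw [h1] at h2
  have h3 := h'.2
  rw [vis_append, h.1, h.2, sub_self] at h3
  omega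

lemma irr_unique_aux (B γ : List ι) (h : Irr d B) (h' : Irr d (B ++ γ)) :
    γ = [] := by
  by_contra hγ
  have h1 : degs d γ = 0 := by
    have := h'.2.1
    rw [degs_append, h.2.1] at this
    simpa using this
  have h2 := vis_pos_of_degs d hγ
  rw [h1] at h2
  have h3 := h'.2.2
  rw [vis_append, h.2.1, h.2.2, sub_self] at h3
  omega

lemma first_unique (v : G) (α α' γ γ' : List ι) (h : First d v α) (h' : First d v α')
    (he : α ++ γ = α' ++ γ') : α = α' ∧ γ = γ' := by
  rcases List.append_eq_append_iff.1 he with ⟨as, h1, h2⟩ | ⟨as, h1, h2⟩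
  · subst h1
    have := first_unique_aux d v α as h h'
    subst this
    simp_all
  · subst h1
    have := first_unique_aux d v α' as h' h
    subst this
    simp_all

lemma irr_unique (B B' γ γ' : List ι) (h : Irr d B) (h' : Irr d B')
    (he : B ++ γ = B' ++ γ') : B = B' ∧ γ = γ' := by
  rcases List.append_eq_append_iff.1 he with ⟨as, h1, h2⟩ | ⟨as, h1, h2⟩
  · subst h1
    have := irr_unique_aux d B as h h'
    subst this
    simp_all
  · subst h1
    have := irr_unique_aux d B' as h' h
    subst this
    simp_all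

lemma blocks_unique (Bs Bs' : List (List ι)) (β β' : List ι)
    (hl : Bs.length = Bs'.length) (h : ∀ B ∈ Bs, Irr d B) (h' : ∀ B ∈ Bs', Irr d B)
    (he : Bs.flatten ++ β = Bs'.flatten ++ β') : Bs = Bs' ∧ β = β' := by
  induction Bs generalizing Bs' with
  | nil =>
    cases Bs' with
    | nil => simpa using he
    | cons _ _ => simp at hl
  | cons B Bs ih =>
    cases Bs' with
    | nil => simp at hl
    | cons B' Bs' =>
      simp only [List.flatten_cons, List.append_assoc] at he
      obtain ⟨h1, h2⟩ := irr_unique d B B' _ _ (h B (by simp)) (h' B' (by simp)) he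
      obtain ⟨h3, h4⟩ := ih Bs' (by simpa using hl) (fun C hC => h C (by simp [hC]))
        (fun C hC => h' C (by simp [hC])) h2
      exact ⟨by rw [h1, h3], h4⟩

lemma dec_unique (v : G) (p : ℕ) (l : List ι) (t t' : List ι × List (List ι) × List ι)
    (h : IsDec d v p l t) (h' : IsDec d v p l t') : t = t' := by
  obtain ⟨α, Bs, β⟩ := t
  obtain ⟨α', Bs', β'⟩ := t'
  obtain ⟨h1, h2⟩ := first_unique d v α α' _ _ h.2.1 h'.2.1 (h.1.symm.trans h'.1)
  obtain ⟨h3, h4⟩ := blocks_unique d Bs Bs' β β' (h.2.2.1.trans h'.2.2.1.symm) h.2.2.2 h'.2.2.2 h2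
  simp [h1, h3, h4]

lemma vis_flatten (w : G) (Bs : List (List ι)) (β : List ι) (h : ∀ B ∈ Bs, degs d B = 0) :
    vis d w (Bs.flatten ++ β) = (Bs.map (vis d w)).sum + vis d w β := by
  induction Bs with
  | nil => simp
  | cons B Bs ih =>
    simp only [List.flatten_cons, List.append_assoc, List.map_cons, List.sum_cons]
    rw [vis_append, h B (by simp), sub_zero, ih (fun C hC => h C (by simp [hC]))]
    ring

lemma visT_perm (u v : G) (α β : List ι) (Bs Bs' : List (List ι)) (hp : Bs' ~ Bs)
    (h : ∀ B ∈ Bs, degs d B = 0) :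
    visT d u (α ++ (Bs'.flatten ++ β)) = visT d u (α ++ (Bs.flatten ++ β)) := by
  have h' : ∀ B ∈ Bs', degs d B = 0 := fun B hB => h B (hp.mem_iff.1 hB)
  simp only [visT, vis_append, vis_flatten d _ _ _ h, vis_flatten d _ _ _ h']
  rw [(hp.map (vis d (u - degs d α))).sum_eq]

lemma sum_vis [Fintype G] (l : List ι) : ∑ u : G, vis d u l = l.length := by
  induction l with
  | nil => simp
  | cons a l ih =>
    simp only [vis_cons, Finset.sum_add_distrib, List.length_cons]
    have h1 : ∑ u : G, vis d (u - d a) l = ∑ u : G, vis d u l :=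
      Equiv.sum_comp (Equiv.subRight (d a)) (fun u => vis d u l)
    rw [h1, ih]
    simp [add_comm]

lemma sum_visT [Fintype G] (l : List ι) : ∑ u : G, visT d u l = l.length + 1 := by
  simp only [visT, Finset.sum_add_distrib, sum_vis]
  simp [add_comm]

end Walk


section Sign

variable {ι : Type*} [LinearOrder ι]

/-- number of inversions of a word -/
def inv : List ι → ℕ
  | [] => 0
  | (a :: l) => l.countP (fun b => decide (b < a)) + inv l

/-- number of pairs (a in l₁, b in l₂) with b < a -/
def cross (l₁ l₂ : List ι) : ℕ := (l₁.map (fun a => l₂.countP (fun b => decide (b < a)))).sum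

lemma inv_append (l₁ l₂ : List ι) : inv (l₁ ++ l₂) = inv l₁ + cross l₁ l₂ + inv l₂ := by
  induction l₁ with
  | nil => simp [inv, cross]
  | cons a l ih =>
    simp only [List.cons_append, inv, ih, List.countP_append, cross, List.map_cons, List.sum_cons]
    ring

lemma cross_append_left (l₁ l₂ l₃ : List ι) : cross (l₁ ++ l₂) l₃ = cross l₁ l₃ + cross l₂ l₃ := by
  simp [cross]

lemma cross_append_right (l₁ l₂ l₃ : List ι) : cross l₁ (l₂ ++ l₃) = cross l₁ l₂ + cross l₁ l₃ := by
  induction l₁ with
  | nil => simp [cross]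
  | cons a l ih =>
    simp only [cross, List.map_cons, List.sum_cons, List.countP_append] at ih ⊢
    omega

lemma cross_cons_right (l : List ι) (b : ι) (l' : List ι) :
    cross l (b :: l') = l.countP (fun a => decide (b < a)) + cross l l' := by
  induction l with
  | nil => simp [cross]
  | cons a l ih =>
    simp only [cross, List.map_cons, List.sum_cons, List.countP_cons] at ih ⊢
    omega

lemma cross_add_cross (l₁ l₂ : List ι) (h : ∀ a ∈ l₁, ∀ b ∈ l₂, a ≠ b) :
    cross l₁ l₂ + cross l₂ l₁ = l₁.length * l₂.length := by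
  induction l₁ with
  | nil => simp [cross]
  | cons a l ih =>
    have ih' := ih (fun x hx => h x (by simp [hx]))
    rw [cross_cons_right]
    have h1 : cross (a :: l) l₂ = l₂.countP (fun b => decide (b < a)) + cross l l₂ := by
      simp [cross]
    have h2 : l₂.countP (fun b => decide (b < a)) + l₂.countP (fun b => decide (a < b))
        = l₂.length := by
      have h3 := List.length_eq_countP_add_countP (fun b => decide (b < a)) (l := l₂)
      rw [h3]
      congr 1
      apply List.countP_congr
      intro b hb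
      have hab := h a (by simp) b hb
      simp only [decide_eq_true_eq, Bool.not_eq_true, decide_eq_false_iff_not, not_lt]
      exact ⟨fun h => h.le, fun h => lt_of_le_of_ne h hab⟩
    rw [h1, List.length_cons, Nat.add_mul]
    omega

/-- sign of a word -/
def sg (l : List ι) : ℤ := (-1) ^ inv l

lemma sg_swap (α A B β : List ι) (h : ∀ a ∈ A, ∀ b ∈ B, a ≠ b) :
    sg (α ++ (B ++ (A ++ β))) = (-1) ^ (A.length * B.length) * sg (α ++ (A ++ (B ++ β))) := by
  have key : inv (α ++ (B ++ (A ++ β))) + cross A B = inv (α ++ (A ++ (B ++ β))) + cross B A := by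
    simp only [inv_append, cross_append_left, cross_append_right]
    ring
  have h2 := cross_add_cross A B h
  unfold sg
  have h3 : inv (α ++ (B ++ (A ++ β))) + 2 * cross A B =
      A.length * B.length + inv (α ++ (A ++ (B ++ β))) := by omega
  have h4 : ((-1 : ℤ)) ^ (inv (α ++ (B ++ (A ++ β))) + 2 * cross A B) =
      (-1) ^ inv (α ++ (B ++ (A ++ β))) := by
    rw [pow_add, pow_mul]; simp
  rw [← h4, h3, pow_add]

lemma sg_mul_self (l : List ι) : sg l * sg l = 1 := by
  unfold sg; rw [← pow_add, ← two_mul, pow_mul]; simp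

/-- Sum of the signs over all insertions of the block `t` in `ys`. -/
def eins (t : ℕ) : List ℕ → ℤ
  | [] => 1
  | (y :: ys) => 1 + (-1) ^ (t * y) * eins t ys

lemma eins_even (t : ℕ) (ht : Even t) (ys : List ℕ) : eins t ys = ys.length + 1 := by
  induction ys with
  | nil => simp [eins]
  | cons y ys ih =>
    rw [eins, ih, Even.neg_one_pow (ht.mul_right y)]
    push_cast [List.length_cons]; ring

lemma eins_odd (t : ℕ) (ht : Odd t) (ys : List ℕ) (h : ∀ y ∈ ys, Odd y) :
    eins t ys = if Even ys.length then 1 else 0 := by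
  induction ys with
  | nil => simp [eins]
  | cons y ys ih =>
    rw [eins, ih (fun z hz => h z (by simp [hz])), Odd.neg_one_pow (ht.mul (h y (by simp)))]
    by_cases he : Even ys.length
    · have : ¬ Even (y :: ys).length := by
        rw [List.length_cons, Nat.even_add_one]; simpa using he
      rw [if_pos he, if_neg this]; norm_num
    · have : Even (y :: ys).length := by
        rw [List.length_cons, Nat.even_add_one]; simpa using he
      rw [if_neg he, if_pos this]; norm_num

lemma sum_aux (t : List ι) (ys : List (List ι)) (α β : List ι)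
    (h : ∀ y ∈ ys, ∀ a ∈ t, ∀ b ∈ y, a ≠ b) :
    ((permutations'Aux t ys).map (fun l => sg (α ++ (l.flatten ++ β)))).sum =
      eins t.length (ys.map List.length) * sg (α ++ (t ++ (ys.flatten ++ β))) := by
  induction ys generalizing α with
  | nil => simp [eins]
  | cons y ys ih =>
    simp only [permutations'Aux, List.map_cons, List.sum_cons, List.map_map, Function.comp_def,
      List.flatten_cons, List.append_assoc, eins]
    have ih' := ih (α ++ y) (fun z hz => h z (by simp [hz]))
    simp only [List.append_assoc] at ih'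
    rw [ih', sg_swap α t y _ (h y (by simp))]
    ring

lemma sum_flatMap' {κ : Type*} (l : List κ) (f : κ → List ℤ) :
    (l.flatMap f).sum = (l.map (fun a => (f a).sum)).sum := by
  induction l with
  | nil => simp
  | cons a l ih => simp [ih]

/-- signed sum over all rearrangements of the blocks -/
def psum (α β : List ι) (Bs : List (List ι)) : ℤ :=
  ((permutations' Bs).map (fun l => sg (α ++ (l.flatten ++ β)))).sum

lemma psum_cons (α β : List ι) (t : List ι) (ts : List (List ι))
    (h : ∀ y ∈ ts, ∀ a ∈ t, ∀ b ∈ y, a ≠ b) :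
    psum α β (t :: ts) = ((permutations' ts).map
      (fun ys => eins t.length (ys.map List.length) * sg (α ++ (t ++ (ys.flatten ++ β))))).sum := by
  unfold psum
  rw [permutations', List.map_flatMap, sum_flatMap']
  congr 1
  apply List.map_congr_left
  intro ys hys
  apply sum_aux
  intro y hy
  exact h y ((mem_permutations'.1 hys).mem_iff.1 hy)

lemma psum_cons_even (α β : List ι) (t : List ι) (ts : List (List ι)) (ht : Even t.length)
    (h : ∀ y ∈ ts, ∀ a ∈ t, ∀ b ∈ y, a ≠ b) :
    psum α β (t :: ts) = (ts.length + 1) * psum (α ++ t) β ts := by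
  rw [psum_cons _ _ _ _ h]
  unfold psum
  rw [← List.sum_map_mul_left]
  congr 1
  apply List.map_congr_left
  intro ys hys
  rw [eins_even _ ht, List.length_map, (mem_permutations'.1 hys).length_eq, List.append_assoc]

lemma psum_cons_odd (α β : List ι) (t : List ι) (ts : List (List ι)) (ht : Odd t.length)
    (hts : ∀ y ∈ ts, Odd y.length)
    (h : ∀ y ∈ ts, ∀ a ∈ t, ∀ b ∈ y, a ≠ b) :
    psum α β (t :: ts) = (if Even ts.length then 1 else 0) * psum (α ++ t) β ts := by
  rw [psum_cons _ _ _ _ h]
  unfold psum
  rw [← List.sum_map_mul_left]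
  congr 1
  apply List.map_congr_left
  intro ys hys
  rw [eins_odd _ ht, List.length_map, (mem_permutations'.1 hys).length_eq, List.append_assoc]
  intro y hy
  obtain ⟨z, hz, rfl⟩ := List.mem_map.1 hy
  exact hts z ((mem_permutations'.1 hys).mem_iff.1 hz)

lemma psum_perm (α β : List ι) (Bs Bs' : List (List ι)) (h : Bs ~ Bs') :
    psum α β Bs = psum α β Bs' := by
  unfold psum
  exact ((Perm.permutations' h).map _).sum_eq

/-- The signed sum over all rearrangements of `p` pairwise disjoint blocks is divisible by `p`. -/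
lemma dvd_psum (p : ℕ) (hp : 2 ≤ p) (α β : List ι) (Bs : List (List ι)) (hl : Bs.length = p)
    (h : Bs.Pairwise (fun A B => ∀ a ∈ A, ∀ b ∈ B, a ≠ b)) :
    (p : ℤ) ∣ psum α β Bs := by
  by_cases hev : ∃ t ∈ Bs, Even t.length
  · obtain ⟨t, ht, hte⟩ := hev
    obtain ⟨l₁, l₂, rfl⟩ := List.append_of_mem ht
    have hperm : (l₁ ++ t :: l₂) ~ (t :: (l₁ ++ l₂)) := List.perm_middle
    rw [psum_perm _ _ _ _ hperm]
    have hsymm : Std.Symm (fun A B : List ι => ∀ a ∈ A, ∀ b ∈ B, a ≠ b) :=
      ⟨fun A B h a ha b hb => (h b hb a ha).symm⟩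
    have h' := (hperm.pairwise_iff (fun {A B} h => by
      intro a ha b hb; exact (h b hb a ha).symm)).1 h
    rw [List.pairwise_cons] at h'
    rw [psum_cons_even _ _ _ _ hte h'.1]
    have : (l₁ ++ l₂).length + 1 = p := by
      rw [← hl]; simp; omega
    rw [← this]
    push_cast
    exact Dvd.intro _ rfl
  · push Not at hev
    simp only [Nat.not_even_iff_odd] at hev
    have : psum α β Bs = 0 := by
      match Bs, hl, h, hev with
      | [], hl, _, _ => simp at hl; omega
      | [t], hl, _, _ => simp at hl; omega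
      | t :: t' :: ts, hl, h, hev =>
        rw [List.pairwise_cons] at h
        have h1 := psum_cons_odd α β t (t' :: ts) (hev t (by simp))
          (fun y hy => hev y (by simp at hy ⊢; tauto)) h.1
        have h2 := psum_cons_odd (α ++ t) β t' ts (hev t' (by simp))
          (fun y hy => hev y (by simp [hy])) (List.pairwise_cons.1 h.2).1
        rw [h1, h2]
        by_cases he : Even ts.length <;> simp [he, Nat.even_add_one]
    rw [this]
    exact dvd_zero _

/-- The sign of a word given by a function on `Fin n`. -/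
lemma sg_ofFn {n : ℕ} (f : Fin n → ι) (hf : Function.Injective f) :
    sg (List.ofFn f) = ∏ i, ∏ j ∈ Finset.Ioi i, (if f i < f j then (1 : ℤ) else -1) := by
  induction n with
  | zero => simp [sg, inv]
  | succ n ih =>
    rw [List.ofFn_succ, Fin.prod_univ_succ]
    have h1 : sg (f 0 :: List.ofFn (fun i : Fin n => f i.succ)) =
        (-1) ^ ((List.ofFn (fun i : Fin n => f i.succ)).countP (fun b => decide (b < f 0))) *
          sg (List.ofFn (fun i : Fin n => f i.succ)) := by
      simp [sg, inv, pow_add]
    rw [h1, ih (fun i => f i.succ) (fun i j h => Fin.succ_injective _ (hf h))]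
    congr 1
    · have : (Finset.Ioi (0 : Fin (n+1))) = Finset.univ.map (Fin.succEmb n) := by
        ext x; simp [Fin.pos_iff_ne_zero, Fin.exists_succ_eq]
      rw [this, Finset.prod_map]
      have h2 : ∀ (m : ℕ) (g : Fin m → ι) (c : ι), (∀ i, g i ≠ c) →
          (-1 : ℤ) ^ ((List.ofFn g).countP (fun b => decide (b < c))) =
          ∏ i, (if c < g i then (1 : ℤ) else -1) := by
        intro m
        induction m with
        | zero => intro g c _; simp
        | succ m ih2 =>
          intro g c hg
          rw [List.ofFn_succ, List.countP_cons, pow_add, Fin.prod_univ_succ,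
            ih2 _ _ (fun i => hg i.succ), mul_comm]
          congr 1
          by_cases h3 : g 0 < c
          · simp [h3, not_lt.2 h3.le]
          · have : c < g 0 := lt_of_le_of_ne (not_lt.1 h3) (hg 0).symm
            simp [h3, this]
      rw [h2]
      · rfl
      · intro i h3
        exact Fin.succ_ne_zero i (hf h3)
    · apply Finset.prod_congr rfl
      intro i _
      have : Finset.Ioi i.succ = (Finset.Ioi i).map (Fin.succEmb n) := by
        ext x
        simp only [Finset.mem_Ioi, Finset.mem_map, Fin.coe_succEmb]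
        constructor
        · intro h
          obtain ⟨y, rfl⟩ := Fin.exists_succ_eq.2 (Fin.ne_zero_of_lt h)
          exact ⟨y, Fin.succ_lt_succ_iff.1 h, rfl⟩
        · rintro ⟨y, hy, rfl⟩
          exact Fin.succ_lt_succ_iff.2 hy
      rw [this, Finset.prod_map]
      rfl

lemma sign_eq_sg {n : ℕ} (σ : Equiv.Perm (Fin n)) :
    ((Equiv.Perm.sign σ : ℤˣ) : ℤ) = sg (List.ofFn (fun i => σ i)) := by
  rw [sg_ofFn _ σ.injective, Equiv.Perm.sign_eq_prod_prod_Ioi]
  push_cast
  apply Finset.prod_congr rfl
  intro i _
  apply Finset.prod_congr rfl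
  intro j _
  split_ifs <;> simp

end Sign


section Main

variable {G : Type*} [AddCommGroup G] [DecidableEq G] [Fintype G]
variable {N : ℕ}

/-- all words in which every letter occurs exactly once -/
def words (N : ℕ) : Finset (List (Fin N)) :=
  Finset.univ.image (fun σ : Equiv.Perm (Fin N) => List.ofFn (fun i => σ i))

lemma mem_words (l : List (Fin N)) : l ∈ words N ↔ l.Nodup ∧ l.length = N := by
  constructor
  · intro h
    obtain ⟨σ, -, rfl⟩ := Finset.mem_image.1 h
    exact ⟨List.nodup_ofFn.2 σ.injective, by simp⟩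
  · rintro ⟨h1, h2⟩
    have hinj : Function.Injective (fun i : Fin N => l.get (i.cast h2.symm)) := by
      intro i j h
      have := (List.nodup_iff_injective_get.1 h1) h
      simpa using this
    have hbij : Function.Bijective (fun i : Fin N => l.get (i.cast h2.symm)) :=
      Finite.injective_iff_bijective.1 hinj
    refine Finset.mem_image.2 ⟨Equiv.ofBijective _ hbij, Finset.mem_univ _, ?_⟩
    apply List.ext_get
    · simp [h2]
    · intro n h3 h4
      simp

/-- the vertex used for the word, which depends only on the vector of visits -/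
noncomputable def vert (p : ℕ) (n : G → ℕ) : G :=
  open Classical in if h : ∃ v, p + 1 ≤ n v then h.choose else 0

lemma vert_spec (p : ℕ) (n : G → ℕ) (h : ∃ v, p + 1 ≤ n v) : p + 1 ≤ n (vert p n) := by
  unfold vert; rw [dif_pos h]; exact h.choose_spec

/-- the chosen decomposition -/
noncomputable def dec (d : Fin N → G) (p : ℕ) (l : List (Fin N)) :
    List (Fin N) × List (List (Fin N)) × List (Fin N) :=
  open Classical in
  if h : ∃ t, IsDec d (vert p (fun u => visT d u l)) p l t then h.choose else ([], [], [])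

lemma dec_spec (d : Fin N → G) (p : ℕ) (l : List (Fin N))
    (h : ∃ v, p + 1 ≤ visT d v l) :
    IsDec d (vert p (fun u => visT d u l)) p l (dec d p l) := by
  have h1 := exists_dec d (vert p (fun u => visT d u l)) p l (vert_spec p (fun u => visT d u l) h)
  unfold dec
  rw [dif_pos h1]
  exact h1.choose_spec

/-- invariant of a word used to partition the set of all words -/
noncomputable def kap (d : Fin N → G) (p : ℕ) (l : List (Fin N)) :
    (G → ℕ) × (List (Fin N) × Multiset (List (Fin N)) × List (Fin N)) :=
  (fun u => visT d u l, ((dec d p l).1, ((dec d p l).2.1 : Multiset (List (Fin N))),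
    (dec d p l).2.2))

lemma pairwise_disj {ι : Type*} (α β : List ι) (Bs : List (List ι))
    (h : (α ++ (Bs.flatten ++ β)).Nodup) :
    Bs.Pairwise (fun A B => ∀ a ∈ A, ∀ b ∈ B, a ≠ b) := by
  have h1 : Bs.flatten.Nodup := (List.nodup_append.1 (List.nodup_append.1 h).2.1).1
  rw [List.nodup_flatten] at h1
  apply h1.2.imp
  intro A B hAB a ha b hb hab
  subst hab
  exact hAB ha hb

theorem main_homog {A : Type*} [Ring A] (p : ℕ) (hp : p.Prime)
    (hchar : ∀ a : A, (p : ℤ) • a = 0)
    (hN : N = Fintype.card G * p) (d : Fin N → G) (x : Fin N → A)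
    (hcomm : ∀ B B' : List (Fin N), degs d B = 0 → degs d B' = 0 →
      Commute (B.map x).prod (B'.map x).prod) :
    ∑ σ : Equiv.Perm (Fin N),
      ((Equiv.Perm.sign σ : ℤˣ) : ℤ) • (List.ofFn (fun i => x (σ i))).prod = 0 := by
  classical
  have h0 : ∀ σ : Equiv.Perm (Fin N),
      ((Equiv.Perm.sign σ : ℤˣ) : ℤ) • (List.ofFn (fun i => x (σ i))).prod =
      (fun l : List (Fin N) => sg l • (l.map x).prod) (List.ofFn (fun i => σ i)) := by
    intro σ
    simp only
    rw [sign_eq_sg, List.map_ofFn]
    rfl
  rw [Finset.sum_congr rfl (fun σ _ => h0 σ)]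
  rw [← Finset.sum_image (s := Finset.univ) (g := fun σ : Equiv.Perm (Fin N) =>
    List.ofFn (fun i => σ i)) (f := fun l : List (Fin N) => sg l • (l.map x).prod)
    (by
      intro σ _ τ _ h
      ext i
      have := congrFun (List.ofFn_injective h) i
      exact congrArg Fin.val this)]
  change ∑ l ∈ words N, sg l • (l.map x).prod = 0
  apply Finset.sum_cancels_of_partition_cancels (Setoid.ker (kap d p))
  intro l hl
  have hl' := (mem_words l).1 hl
  -- some vertex is visited p+1 times
  have hex : ∃ v, p + 1 ≤ visT d v l := by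
    by_contra hcon
    push Not at hcon
    have h1 := sum_visT d l
    have h2 : ∑ u : G, visT d u l ≤ ∑ _u : G, p :=
      Finset.sum_le_sum (fun u _ => Nat.lt_succ_iff.1 (hcon u))
    rw [h1, hl'.2] at h2
    simp at h2
    omega
  have hD := dec_spec d p l hex
  obtain ⟨⟨α, Bs, β⟩, hdec⟩ : ∃ t, dec d p l = t := ⟨_, rfl⟩
  rw [hdec] at hD
  obtain ⟨he, hfirst, hlen, hirr⟩ := hD
  simp only at he hfirst hlen hirr
  have hdegs : ∀ B ∈ Bs, degs d B = 0 := fun B hB => (hirr B hB).2.1
  -- uniqueness consequences
  have hkey : ∀ Bs' : List (List (Fin N)), Bs' ~ Bs →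
      (α ++ (Bs'.flatten ++ β)) ∈ words N ∧ kap d p (α ++ (Bs'.flatten ++ β)) = kap d p l ∧
      dec d p (α ++ (Bs'.flatten ++ β)) = (α, Bs', β) := by
    intro Bs' hBs'
    have hperm : (α ++ (Bs'.flatten ++ β)) ~ l := by
      conv_rhs => rw [he]
      exact (List.Perm.refl α).append ((hBs'.flatten).append (List.Perm.refl β))
    have hvis : (fun u => visT d u (α ++ (Bs'.flatten ++ β))) = fun u => visT d u l := by
      funext u
      conv_rhs => rw [he]
      exact visT_perm d u 0 α β Bs Bs' hBs' hdegs
    have hdec' : dec d p (α ++ (Bs'.flatten ++ β)) = (α, Bs', β) := by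
      have h3 : ∃ v, p + 1 ≤ visT d v (α ++ (Bs'.flatten ++ β)) := by
        obtain ⟨v, hv⟩ := hex
        exact ⟨v, by rw [congrFun hvis v]; exact hv⟩
      have h4 := dec_spec d p _ h3
      apply dec_unique d _ p _ _ _ h4
      rw [hvis]
      exact ⟨rfl, hfirst, hBs'.length_eq.trans hlen, fun B hB => hirr B (hBs'.mem_iff.1 hB)⟩
    refine ⟨?_, ?_, hdec'⟩
    · rw [mem_words]
      exact ⟨hperm.nodup_iff.2 hl'.1, hperm.length_eq.trans hl'.2⟩
    · unfold kap
      rw [hdec', hvis, hdec]
      simp only [Prod.mk.injEq, true_and, and_true]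
      exact Multiset.coe_eq_coe.2 hBs'
  have hset : (words N).filter (fun a => (Setoid.ker (kap d p)) a l) =
      (permutations' Bs).toFinset.image (fun Bs' => α ++ (Bs'.flatten ++ β)) := by
    ext a
    simp only [Finset.mem_filter, Finset.mem_image, List.mem_toFinset, mem_permutations',
      Setoid.ker_def]
    constructor
    · rintro ⟨ha, hk⟩
      have hv : (fun u => visT d u a) = fun u => visT d u l := congrArg Prod.fst hk
      have h3 : ∃ v, p + 1 ≤ visT d v a := by
        obtain ⟨v, hv'⟩ := hex
        exact ⟨v, by rw [congrFun hv v]; exact hv'⟩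
      have h4 := dec_spec d p a h3
      have h5 := congrArg (fun t => t.2.1) hk
      have h6 := congrArg (fun t => t.2.2.1) hk
      have h7 := congrArg (fun t => t.2.2.2) hk
      simp only [kap] at h5 h6 h7
      rw [hdec] at h5 h6 h7
      refine ⟨(dec d p a).2.1, Multiset.coe_eq_coe.1 h6, ?_⟩
      have h8 := h4.1
      rw [h5, h7] at h8
      exact h8.symm
    · rintro ⟨Bs', hBs', rfl⟩
      exact ⟨(hkey Bs' hBs').1, (hkey Bs' hBs').2.1⟩
  have hinj : Set.InjOn (fun Bs' : List (List (Fin N)) => α ++ (Bs'.flatten ++ β))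
      ((permutations' Bs).toFinset : Set (List (List (Fin N)))) := by
    intro B1 h1 B2 h2 h12
    simp only [Finset.mem_coe, List.mem_toFinset, mem_permutations'] at h1 h2
    have h3 := (hkey B1 h1).2.2
    have h4 := (hkey B2 h2).2.2
    simp only at h12
    rw [h12, h4] at h3
    simp only [Prod.mk.injEq, true_and, and_true] at h3
    exact h3.symm
  rw [hset, Finset.sum_image hinj]
  have hprod : ∀ Bs' ∈ (permutations' Bs).toFinset,
      sg (α ++ (Bs'.flatten ++ β)) • ((α ++ (Bs'.flatten ++ β)).map x).prod =
      sg (α ++ (Bs'.flatten ++ β)) • ((α ++ (Bs.flatten ++ β)).map x).prod := by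
    intro Bs' hBs'
    rw [List.mem_toFinset, mem_permutations'] at hBs'
    congr 1
    simp only [List.map_append, List.prod_append]
    congr 2
    rw [List.map_flatten, List.map_flatten, List.prod_flatten, List.prod_flatten, List.map_map,
      List.map_map]
    apply (hBs'.map _).prod_eq'
    rw [List.pairwise_map]
    apply List.pairwise_of_forall_mem_list
    intro B hB B' hB'
    exact hcomm B B' (hdegs B (hBs'.mem_iff.1 hB)) (hdegs B' (hBs'.mem_iff.1 hB'))
  rw [Finset.sum_congr rfl hprod, ← Finset.sum_smul]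
  have hnodupBs : Bs.Nodup := by
    have hnd : (α ++ (Bs.flatten ++ β)).Nodup := he ▸ hl'.1
    have h1 := pairwise_disj α β Bs hnd
    rw [List.nodup_iff_pairwise_ne]
    apply List.Pairwise.imp_of_mem _ h1
    intro A B hA hB hAB hEq
    subst hEq
    obtain ⟨a, ha⟩ := List.exists_mem_of_ne_nil A (hirr A hA).1
    exact hAB a ha a ha rfl
  have hsum : ∑ Bs' ∈ (permutations' Bs).toFinset, sg (α ++ (Bs'.flatten ++ β)) =
      psum α β Bs := by
    rw [List.sum_toFinset]
    · rfl
    · exact ((permutations_perm_permutations' Bs).nodup_iff).1 (List.nodup_permutations Bs hnodupBs)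
  rw [hsum]
  have hdvd := dvd_psum p hp.two_le α β Bs hlen (pairwise_disj α β Bs (he ▸ hl'.1))
  obtain ⟨c, hc⟩ := hdvd
  rw [hc, mul_comm, mul_smul, hchar, smul_zero]

end Main

end Pool.Agent.StdId
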