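import Mathlib

/-!
# A free amalgamation class of partial Steiner systems with two sorts of elements

Elements of `V` are of two types: points (`ty v = true`) and colours (`ty v = false`).
A hyperedge consists of `t` points and one colour.
-/

set_option autoImplicit false
set_option linter.all false

namespace Pool.Agent.SteinerGen

variable {V : Type} [DecidableEq V]

/-- number of edges inside `U` -/
def en (H : Finset (Finset V)) (U : Finset V) : ℕ := (H.filter (fun E => E ⊆ U)).card

/-- predimension -/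
def del (H : Finset (Finset V)) (U : Finset V) : ℤ := (U.card : ℤ) - en H U

/-- number of points in `U` -/
def np (ty : V → Bool) (U : Finset V) : ℕ := (U.filter (fun v => ty v = true)).card

/-- local conditions on the set of edges -/
structure Loc (ty : V → Bool) (t : ℕ) (H : Finset (Finset V)) : Prop where
  card : ∀ E ∈ H, E.card = t + 1
  npts : ∀ E ∈ H, np ty E = t
  lin : ∀ E ∈ H, ∀ E' ∈ H, E ≠ E' → (E ∩ E').card + 1 ≤ t

/-- the class of finite structures -/
structure Good (ty : V → Bool) (t : ℕ) (H : Finset (Finset V)) : Prop extends Loc ty t H where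
  pre : ∀ U : Finset V, t + 1 ≤ np ty U → (t : ℤ) + 1 ≤ del H U

/-- strong (self-sufficient) subsets -/
def Strong (H : Finset (Finset V)) (A : Finset V) : Prop := ∀ U : Finset V, del H (U ∩ A) ≤ del H U

lemma np_mono {ty : V → Bool} {U U' : Finset V} (h : U ⊆ U') : np ty U ≤ np ty U' :=
  Finset.card_le_card (Finset.filter_subset_filter _ h)

lemma np_le_card (ty : V → Bool) (U : Finset V) : np ty U ≤ U.card := Finset.card_filter_le _ _

lemma np_insert {ty : V → Bool} {U : Finset V} {x : V} (hx : x ∉ U) :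
    np ty (insert x U) = np ty U + if ty x = true then 1 else 0 := by
  unfold np
  rw [Finset.filter_insert]
  split_ifs with h
  · rw [Finset.card_insert_of_notMem]
    simp [hx]
  · rfl

lemma en_mono {H : Finset (Finset V)} {U U' : Finset V} (h : U ⊆ U') : en H U ≤ en H U' :=
  Finset.card_le_card (fun E hE => by
    simp only [Finset.mem_filter] at hE ⊢
    exact ⟨hE.1, hE.2.trans h⟩)

/-- an edge contains a colour, so more elements than points -/
lemma Loc.exists_color {ty : V → Bool} {t : ℕ} {H : Finset (Finset V)} (h : Loc ty t H)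
    {E U : Finset V} (hE : E ∈ H) (hU : E ⊆ U) : np ty U + 1 ≤ U.card := by
  have h1 := h.card E hE
  have h2 := h.npts E hE
  obtain ⟨v, hv, hv'⟩ : ∃ v ∈ E, ty v ≠ true := by
    by_contra hcon
    push Not at hcon
    have : E.filter (fun v => ty v = true) = E := Finset.filter_true_of_mem hcon
    unfold np at h2
    rw [this] at h2
    omega
  unfold np
  have h3 : (U.filter (fun v => ty v = true)) ⊆ U.erase v := by
    intro w hw
    rw [Finset.mem_filter] at hw
    rw [Finset.mem_erase]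
    exact ⟨fun h => hv' (h ▸ hw.2), hw.1⟩
  have h4 := Finset.card_le_card h3
  have h5 := Finset.card_erase_add_one (hU hv)
  omega

lemma Loc.en_le_one {ty : V → Bool} {t : ℕ} {H : Finset (Finset V)} (h : Loc ty t H)
    {U : Finset V} (hU : np ty U ≤ t) : en H U ≤ 1 := by
  unfold en
  rw [Finset.card_le_one]
  intro E hE E' hE'
  rw [Finset.mem_filter] at hE hE'
  by_contra hne
  have h1 := h.lin E hE.1 E' hE'.1 hne
  have h2 : ∀ E ∈ H, E ⊆ U → E.filter (fun v => ty v = true) = U.filter (fun v => ty v = true) := by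
    intro E hE hEU
    apply Finset.eq_of_subset_of_card_le (Finset.filter_subset_filter _ hEU)
    have := h.npts E hE
    unfold np at this hU
    rw [this]; exact hU
  have h3 : E.filter (fun v => ty v = true) ⊆ E ∩ E' := by
    intro v hv
    rw [Finset.mem_inter]
    refine ⟨(Finset.mem_filter.1 hv).1, ?_⟩
    have : v ∈ E'.filter (fun v => ty v = true) := by
      rw [h2 E' hE'.1 hE'.2, ← h2 E hE.1 hE.2]; exact hv
    exact (Finset.mem_filter.1 this).1
  have h4 := Finset.card_le_card h3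
  have h5 := h.npts E hE.1
  unfold np at h5
  omega

lemma Loc.small {ty : V → Bool} {t : ℕ} {H : Finset (Finset V)} (h : Loc ty t H)
    {U : Finset V} (hU : t + 1 ≤ np ty U) (he : en H U ≤ 2) : (t : ℤ) + 1 ≤ del H U := by
  have h0 := np_le_card ty U
  unfold del
  rcases Nat.lt_or_ge (en H U) 1 with h1 | h1
  · have : en H U = 0 := by omega
    rw [this]; push_cast; omega
  · rcases Nat.lt_or_ge (en H U) 2 with h2 | h2
    · have h3 : en H U = 1 := by omega
      unfold en at h3
      obtain ⟨E, hE⟩ := Finset.card_pos.1 (by rw [h3]; exact Nat.one_pos)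
      rw [Finset.mem_filter] at hE
      have h4 := h.exists_color hE.1 hE.2
      have h5 : en H U = 1 := h3
      rw [h5]; push_cast; omega
    · have h3 : en H U = 2 := by omega
      have h4 : 1 < (H.filter (fun E => E ⊆ U)).card := by unfold en at h3; omega
      obtain ⟨E, hE, E', hE', hne⟩ := Finset.one_lt_card.1 h4
      rw [Finset.mem_filter] at hE hE'
      have h5 := h.lin E hE.1 E' hE'.1 hne
      have h6 := Finset.card_union_add_card_inter E E'
      rw [h.card E hE.1, h.card E' hE'.1] at h6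
      have h7 : (E ∪ E').card ≤ U.card := Finset.card_le_card (Finset.union_subset hE.2 hE'.2)
      rw [h3]; push_cast; omega

lemma en_super (H : Finset (Finset V)) (U A : Finset V) :
    en H U + en H A ≤ en H (U ∪ A) + en H (U ∩ A) := by
  unfold en
  have h1 : H.filter (fun E => E ⊆ U) ∪ H.filter (fun E => E ⊆ A) ⊆
      H.filter (fun E => E ⊆ U ∪ A) := by
    intro E hE
    simp only [Finset.mem_union, Finset.mem_filter] at hE ⊢
    rcases hE with hE | hE
    · exact ⟨hE.1, hE.2.trans Finset.subset_union_left⟩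
    · exact ⟨hE.1, hE.2.trans Finset.subset_union_right⟩
  have h2 : H.filter (fun E => E ⊆ U) ∩ H.filter (fun E => E ⊆ A) =
      H.filter (fun E => E ⊆ U ∩ A) := by
    ext E
    simp only [Finset.mem_inter, Finset.mem_filter, Finset.subset_inter_iff]
    tauto
  have h3 := Finset.card_union_add_card_inter (H.filter (fun E => E ⊆ U)) (H.filter (fun E => E ⊆ A))
  have h4 := Finset.card_le_card h1
  rw [h2] at h3
  omega

lemma del_sub (H : Finset (Finset V)) (U A : Finset V) :
    del H (U ∪ A) + del H (U ∩ A) ≤ del H U + del H A := by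
  have h1 := en_super H U A
  have h2 := Finset.card_union_add_card_inter U A
  unfold del
  omega

/-- two edges through a new element over a strong set coincide -/
lemma Strong.unique {H : Finset (Finset V)} {A : Finset V} (hA : Strong H A) {x : V}
    (hx : x ∉ A) {E E' : Finset V} (hE : E ∈ H) (hE' : E' ∈ H) (h1 : E ⊆ insert x A)
    (h2 : E' ⊆ insert x A) (h3 : x ∈ E) (h4 : x ∈ E') : E = E' := by
  by_contra hne
  have h5 : insert E (insert E' (H.filter (fun E => E ⊆ A))) ⊆
      H.filter (fun E => E ⊆ insert x A) := by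
    intro F hF
    simp only [Finset.mem_insert, Finset.mem_filter] at hF ⊢
    rcases hF with rfl | rfl | hF
    · exact ⟨hE, h1⟩
    · exact ⟨hE', h2⟩
    · exact ⟨hF.1, hF.2.trans (Finset.subset_insert _ _)⟩
  have h6 := Finset.card_le_card h5
  have h7 : ∀ F : Finset V, x ∈ F → F ∉ H.filter (fun E => E ⊆ A) := by
    intro F hF hF'
    exact hx ((Finset.mem_filter.1 hF').2 hF)
  rw [Finset.card_insert_of_notMem, Finset.card_insert_of_notMem (h7 E' h4)] at h6
  swap
  · rw [Finset.mem_insert, not_or]; exact ⟨hne, h7 E h3⟩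
  have h8 := hA (insert x A)
  have h9 : insert x A ∩ A = A := Finset.inter_eq_right.2 (Finset.subset_insert _ _)
  rw [h9] at h8
  unfold del en at h8
  rw [Finset.card_insert_of_notMem hx] at h8
  push_cast at h8
  omega

/-- adding the last element of an edge to a strong set gives a strong set -/
lemma Strong.insert_edge {H : Finset (Finset V)} {A : Finset V} (hA : Strong H A) {x : V}
    (hx : x ∉ A) {E : Finset V} (hE : E ∈ H) (h1 : E ⊆ insert x A) (h3 : x ∈ E) :
    Strong H (insert x A) := by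
  have h5 : insert E (H.filter (fun E => E ⊆ A)) ⊆ H.filter (fun E => E ⊆ insert x A) := by
    intro F hF
    simp only [Finset.mem_insert, Finset.mem_filter] at hF ⊢
    rcases hF with rfl | hF
    · exact ⟨hE, h1⟩
    · exact ⟨hF.1, hF.2.trans (Finset.subset_insert _ _)⟩
  have h6 := Finset.card_le_card h5
  have h7 : E ∉ H.filter (fun E => E ⊆ A) := by
    intro hF'
    exact hx ((Finset.mem_filter.1 hF').2 h3)
  rw [Finset.card_insert_of_notMem h7] at h6
  have h8 : del H (insert x A) ≤ del H A := by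
    unfold del en
    rw [Finset.card_insert_of_notMem hx]
    push_cast
    omega
  intro U
  have h9 := del_sub H U (insert x A)
  have h10 := hA (U ∪ insert x A)
  have h11 : (U ∪ insert x A) ∩ A = A :=
    Finset.inter_eq_right.2 ((Finset.subset_insert x A).trans Finset.subset_union_right)
  rw [h11] at h10
  omega

/-- partial isomorphisms between strong subsets, given by their graph -/
structure PIso (ty : V → Bool) (H : Finset (Finset V)) (Γ : Finset (V × V)) : Prop where
  fn : ∀ p ∈ Γ, ∀ q ∈ Γ, p.1 = q.1 → p = q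
  inj : ∀ p ∈ Γ, ∀ q ∈ Γ, p.2 = q.2 → p = q
  ty : ∀ p ∈ Γ, ty p.1 = ty p.2
  edge : ∀ Δ ⊆ Γ, (Δ.image Prod.fst ∈ H ↔ Δ.image Prod.snd ∈ H)
  s1 : Strong H (Γ.image Prod.fst)
  s2 : Strong H (Γ.image Prod.snd)

lemma PIso.swap {ty : V → Bool} {H : Finset (Finset V)} {Γ : Finset (V × V)}
    (h : PIso ty H Γ) : PIso ty H (Γ.image Prod.swap) := by
  have e1 : (Γ.image Prod.swap).image Prod.fst = Γ.image Prod.snd := by
    rw [Finset.image_image]; rfl
  have e2 : (Γ.image Prod.swap).image Prod.snd = Γ.image Prod.fst := by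
    rw [Finset.image_image]; rfl
  refine ⟨?_, ?_, ?_, ?_, ?_, ?_⟩
  · rintro ⟨a, b⟩ hp ⟨c, d⟩ hq hpq
    simp only [Finset.mem_image, Prod.exists, Prod.swap_prod_mk, Prod.mk.injEq] at hp hq
    obtain ⟨_, _, hp, rfl, rfl⟩ := hp
    obtain ⟨_, _, hq, rfl, rfl⟩ := hq
    have := h.inj _ hp _ hq hpq
    simp_all
  · rintro ⟨a, b⟩ hp ⟨c, d⟩ hq hpq
    simp only [Finset.mem_image, Prod.exists, Prod.swap_prod_mk, Prod.mk.injEq] at hp hq
    obtain ⟨_, _, hp, rfl, rfl⟩ := hp
    obtain ⟨_, _, hq, rfl, rfl⟩ := hq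
    have := h.fn _ hp _ hq hpq
    simp_all
  · rintro ⟨a, b⟩ hp
    simp only [Finset.mem_image, Prod.exists, Prod.swap_prod_mk, Prod.mk.injEq] at hp
    obtain ⟨_, _, hp, rfl, rfl⟩ := hp
    exact (h.ty _ hp).symm
  · intro Δ hΔ
    have h1 : Δ.image Prod.swap ⊆ Γ := by
      intro p hp
      obtain ⟨q, hq, rfl⟩ := Finset.mem_image.1 hp
      obtain ⟨r, hr, rfl⟩ := Finset.mem_image.1 (hΔ hq)
      simpa using hr
    have h2 := h.edge _ h1
    rw [Finset.image_image, Finset.image_image] at h2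
    exact h2.symm
  · rw [e1]; exact h.s2
  · rw [e2]; exact h.s1

lemma PIso.np_eq {ty : V → Bool} {H : Finset (Finset V)} {Γ : Finset (V × V)}
    (h : PIso ty H Γ) {Δ : Finset (V × V)} (hΔ : Δ ⊆ Γ) :
    np ty (Δ.image Prod.fst) = np ty (Δ.image Prod.snd) := by
  unfold np
  rw [Finset.filter_image, Finset.filter_image, Finset.card_image_of_injOn,
    Finset.card_image_of_injOn]
  · congr 1
    ext p
    simp only [Finset.mem_filter, and_congr_right_iff]
    intro hp
    rw [h.ty p (hΔ hp)]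
  · intro p hp q hq hpq
    exact h.inj p (hΔ (Finset.mem_filter.1 hp).1) q (hΔ (Finset.mem_filter.1 hq).1) hpq
  · intro p hp q hq hpq
    exact h.fn p (hΔ (Finset.mem_filter.1 hp).1) q (hΔ (Finset.mem_filter.1 hq).1) hpq

lemma PIso.card_fst {ty : V → Bool} {H : Finset (Finset V)} {Γ : Finset (V × V)}
    (h : PIso ty H Γ) {Δ : Finset (V × V)} (hΔ : Δ ⊆ Γ) :
    (Δ.image Prod.fst).card = Δ.card :=
  Finset.card_image_of_injOn (fun p hp q hq hpq => h.fn p (hΔ hp) q (hΔ hq) hpq)

lemma PIso.card_snd {ty : V → Bool} {H : Finset (Finset V)} {Γ : Finset (V × V)}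
    (h : PIso ty H Γ) {Δ : Finset (V × V)} (hΔ : Δ ⊆ Γ) :
    (Δ.image Prod.snd).card = Δ.card :=
  Finset.card_image_of_injOn (fun p hp q hq hpq => h.inj p (hΔ hp) q (hΔ hq) hpq)

lemma image_fst_injOn {ty : V → Bool} {H : Finset (Finset V)} {Γ : Finset (V × V)}
    (h : PIso ty H Γ) {Δ Δ' : Finset (V × V)} (hΔ : Δ ⊆ Γ) (hΔ' : Δ' ⊆ Γ)
    (he : Δ.image Prod.fst = Δ'.image Prod.fst) : Δ = Δ' := by
  ext p
  constructor
  · intro hp
    have : p.1 ∈ Δ'.image Prod.fst := by rw [← he]; exact Finset.mem_image_of_mem _ hp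
    obtain ⟨q, hq, hqp⟩ := Finset.mem_image.1 this
    rw [h.fn p (hΔ hp) q (hΔ' hq) hqp.symm]; exact hq
  · intro hp
    have : p.1 ∈ Δ.image Prod.fst := by rw [he]; exact Finset.mem_image_of_mem _ hp
    obtain ⟨q, hq, hqp⟩ := Finset.mem_image.1 this
    rw [h.fn p (hΔ' hp) q (hΔ hq) hqp.symm]; exact hq

lemma image_snd_injOn {ty : V → Bool} {H : Finset (Finset V)} {Γ : Finset (V × V)}
    (h : PIso ty H Γ) {Δ Δ' : Finset (V × V)} (hΔ : Δ ⊆ Γ) (hΔ' : Δ' ⊆ Γ)
    (he : Δ.image Prod.snd = Δ'.image Prod.snd) : Δ = Δ' := by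
  ext p
  constructor
  · intro hp
    have : p.2 ∈ Δ'.image Prod.snd := by rw [← he]; exact Finset.mem_image_of_mem _ hp
    obtain ⟨q, hq, hqp⟩ := Finset.mem_image.1 this
    rw [h.inj p (hΔ hp) q (hΔ' hq) hqp.symm]; exact hq
  · intro hp
    have : p.2 ∈ Δ.image Prod.snd := by rw [he]; exact Finset.mem_image_of_mem _ hp
    obtain ⟨q, hq, hqp⟩ := Finset.mem_image.1 this
    rw [h.inj p (hΔ' hp) q (hΔ hq) hqp.symm]; exact hq

/-- one step extension -/
lemma PIso.step {ty : V → Bool} {t : ℕ} {H : Finset (Finset V)} {Γ : Finset (V × V)}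
    (hH : Loc ty t H) (h : PIso ty H Γ) {Δ : Finset (V × V)} (hΔ : Δ ⊆ Γ) {x y : V}
    (hx : x ∉ Γ.image Prod.fst) (hy : y ∉ Γ.image Prod.snd)
    (h1 : insert x (Δ.image Prod.fst) ∈ H) (h2 : insert y (Δ.image Prod.snd) ∈ H) :
    PIso ty H (insert (x, y) Γ) := by
  have hx' : x ∉ Δ.image Prod.fst := fun h => hx (Finset.image_subset_image hΔ h)
  have hy' : y ∉ Δ.image Prod.snd := fun h => hy (Finset.image_subset_image hΔ h)
  have e1 : (insert (x, y) Γ).image Prod.fst = insert x (Γ.image Prod.fst) := by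
    rw [Finset.image_insert]
  have e2 : (insert (x, y) Γ).image Prod.snd = insert y (Γ.image Prod.snd) := by
    rw [Finset.image_insert]
  have i1 : insert x (Δ.image Prod.fst) ⊆ insert x (Γ.image Prod.fst) :=
    Finset.insert_subset_insert _ (Finset.image_subset_image hΔ)
  have i2 : insert y (Δ.image Prod.snd) ⊆ insert y (Γ.image Prod.snd) :=
    Finset.insert_subset_insert _ (Finset.image_subset_image hΔ)
  refine ⟨?_, ?_, ?_, ?_, ?_, ?_⟩
  · intro p hp q hq hpq
    rw [Finset.mem_insert] at hp hq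
    rcases hp with rfl | hp
    · rcases hq with rfl | hq
      · rfl
      · exact absurd (Finset.mem_image.2 ⟨q, hq, hpq.symm⟩) hx
    · rcases hq with rfl | hq
      · exact absurd (Finset.mem_image.2 ⟨p, hp, hpq⟩) hx
      · exact h.fn p hp q hq hpq
  · intro p hp q hq hpq
    rw [Finset.mem_insert] at hp hq
    rcases hp with rfl | hp
    · rcases hq with rfl | hq
      · rfl
      · exact absurd (Finset.mem_image.2 ⟨q, hq, hpq.symm⟩) hy
    · rcases hq with rfl | hq
      · exact absurd (Finset.mem_image.2 ⟨p, hp, hpq⟩) hy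
      · exact h.inj p hp q hq hpq
  · intro p hp
    rw [Finset.mem_insert] at hp
    rcases hp with rfl | hp
    · have h3 := hH.npts _ h1
      have h4 := hH.npts _ h2
      rw [np_insert hx'] at h3
      rw [np_insert hy'] at h4
      have h5 := h.np_eq hΔ
      simp only
      cases hxx : ty x <;> cases hyy : ty y <;> simp_all
    · exact h.ty p hp
  · intro Δ' hΔ'
    by_cases hxy : (x, y) ∈ Δ'
    · have h6 : Δ'.erase (x, y) ⊆ Γ := by
        intro p hp
        rw [Finset.mem_erase] at hp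
        exact (Finset.mem_insert.1 (hΔ' hp.2)).resolve_left hp.1
      have h7 : Δ' = insert (x, y) (Δ'.erase (x, y)) := (Finset.insert_erase hxy).symm
      have f1 : Δ'.image Prod.fst = insert x ((Δ'.erase (x, y)).image Prod.fst) := by
        conv_lhs => rw [h7]
        rw [Finset.image_insert]
      have f2 : Δ'.image Prod.snd = insert y ((Δ'.erase (x, y)).image Prod.snd) := by
        conv_lhs => rw [h7]
        rw [Finset.image_insert]
      have hx'' : x ∉ (Δ'.erase (x, y)).image Prod.fst :=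
        fun h => hx (Finset.image_subset_image h6 h)
      have hy'' : y ∉ (Δ'.erase (x, y)).image Prod.snd :=
        fun h => hy (Finset.image_subset_image h6 h)
      have j1 : insert x ((Δ'.erase (x, y)).image Prod.fst) ⊆ insert x (Γ.image Prod.fst) :=
        Finset.insert_subset_insert _ (Finset.image_subset_image h6)
      have j2 : insert y ((Δ'.erase (x, y)).image Prod.snd) ⊆ insert y (Γ.image Prod.snd) :=
        Finset.insert_subset_insert _ (Finset.image_subset_image h6)
      rw [f1, f2]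
      constructor
      · intro h8
        have h9 := h.s1.unique hx h1 h8 i1 j1 (Finset.mem_insert_self _ _)
          (Finset.mem_insert_self _ _)
        have h10 : Δ.image Prod.fst = (Δ'.erase (x, y)).image Prod.fst := by
          rw [← Finset.erase_insert hx', h9, Finset.erase_insert hx'']
        rw [← image_fst_injOn h hΔ h6 h10]; exact h2
      · intro h8
        have h9 := h.s2.unique hy h2 h8 i2 j2 (Finset.mem_insert_self _ _)
          (Finset.mem_insert_self _ _)
        have h10 : Δ.image Prod.snd = (Δ'.erase (x, y)).image Prod.snd := by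
          rw [← Finset.erase_insert hy', h9, Finset.erase_insert hy'']
        rw [← image_snd_injOn h hΔ h6 h10]; exact h1
    · apply h.edge
      intro p hp
      exact (Finset.mem_insert.1 (hΔ' hp)).resolve_left (fun h => hxy (h ▸ hp))
  · rw [e1]
    exact h.s1.insert_edge hx h1 i1 (Finset.mem_insert_self _ _)
  · rw [e2]
    exact h.s2.insert_edge hy h2 i2 (Finset.mem_insert_self _ _)

/-- `Γ` admits no one step extension -/
def Stuck (H : Finset (Finset V)) (Γ : Finset (V × V)) : Prop :=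
  ∀ Δ ⊆ Γ, ∀ x y, x ∉ Γ.image Prod.fst → y ∉ Γ.image Prod.snd →
    insert x (Δ.image Prod.fst) ∈ H → insert y (Δ.image Prod.snd) ∈ H → False

lemma PIso.exists_stuck {ty : V → Bool} {t : ℕ} {H : Finset (Finset V)} {Γ : Finset (V × V)}
    (hH : Loc ty t H) (h : PIso ty H Γ) {W : Finset V} (hW : ∀ E ∈ H, E ⊆ W)
    (hΓ : Γ ⊆ W ×ˢ W) :
    ∃ Γ', Γ ⊆ Γ' ∧ Γ' ⊆ W ×ˢ W ∧ PIso ty H Γ' ∧ Stuck H Γ' := by
  classical
  let 𝒮 := (W ×ˢ W).powerset.filter (fun Γ' => Γ ⊆ Γ' ∧ PIso ty H Γ')
  have hne : 𝒮.Nonempty := ⟨Γ, by simp [𝒮, hΓ, h]⟩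
  obtain ⟨Γ', hΓ', hmax⟩ := Finset.exists_max_image 𝒮 Finset.card hne
  simp only [𝒮, Finset.mem_filter, Finset.mem_powerset] at hΓ'
  refine ⟨Γ', hΓ'.2.1, hΓ'.1, hΓ'.2.2, ?_⟩
  intro Δ hΔ x y hx hy h1 h2
  have h3 := hΓ'.2.2.step hH hΔ hx hy h1 h2
  have h4 : insert (x, y) Γ' ∈ 𝒮 := by
    simp only [𝒮, Finset.mem_filter, Finset.mem_powerset]
    refine ⟨?_, hΓ'.2.1.trans (Finset.subset_insert _ _), h3⟩
    apply Finset.insert_subset _ hΓ'.1
    rw [Finset.mem_product]
    exact ⟨hW _ h1 (Finset.mem_insert_self _ _), hW _ h2 (Finset.mem_insert_self _ _)⟩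
  have h5 := hmax _ h4
  rw [Finset.card_insert_of_notMem] at h5
  · omega
  · intro h6
    exact hx (Finset.mem_image.2 ⟨_, h6, rfl⟩)

/-- `H'` is a strong conservative extension of `H` over the finite set `W`. -/
structure Ext (W : Finset V) (H H' : Finset (Finset V)) : Prop where
  sub : H ⊆ H'
  cons : ∀ E ∈ H', E ⊆ W → E ∈ H
  str : Strong H' W

lemma Ext.del_eq {W : Finset V} {H H' : Finset (Finset V)} (h : Ext W H H') {U : Finset V}
    (hU : U ⊆ W) : del H' U = del H U := by
  unfold del en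
  congr 3
  ext E
  simp only [Finset.mem_filter]
  exact ⟨fun ⟨a, b⟩ => ⟨h.cons E a (b.trans hU), b⟩, fun ⟨a, b⟩ => ⟨h.sub a, b⟩⟩

lemma Ext.strong {W : Finset V} {H H' : Finset (Finset V)} (h : Ext W H H') {A : Finset V}
    (hA : A ⊆ W) (hs : Strong H A) : Strong H' A := by
  intro U
  have h1 := h.str U
  have h2 := hs (U ∩ W)
  have h3 : U ∩ W ∩ A = U ∩ A := by
    rw [Finset.inter_assoc, Finset.inter_eq_right.2 hA]
  rw [h3] at h2
  rw [h.del_eq Finset.inter_subset_right] at h1
  rw [h.del_eq (Finset.inter_subset_right.trans hA)]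
  exact h2.trans h1

lemma Ext.piso {ty : V → Bool} {W : Finset V} {H H' : Finset (Finset V)} (h : Ext W H H')
    {Γ : Finset (V × V)} (hΓ : Γ ⊆ W ×ˢ W) (hp : PIso ty H Γ) : PIso ty H' Γ := by
  have h1 : ∀ Δ ⊆ Γ, Δ.image Prod.fst ⊆ W := by
    intro Δ hΔ v hv
    obtain ⟨p, hp, rfl⟩ := Finset.mem_image.1 hv
    exact (Finset.mem_product.1 (hΓ (hΔ hp))).1
  have h2 : ∀ Δ ⊆ Γ, Δ.image Prod.snd ⊆ W := by
    intro Δ hΔ v hv
    obtain ⟨p, hp, rfl⟩ := Finset.mem_image.1 hv
    exact (Finset.mem_product.1 (hΓ (hΔ hp))).2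
  refine ⟨hp.fn, hp.inj, hp.ty, ?_, h.strong (h1 Γ (Finset.Subset.refl _)) hp.s1,
    h.strong (h2 Γ (Finset.Subset.refl _)) hp.s2⟩
  intro Δ hΔ
  constructor
  · intro h3
    exact h.sub ((hp.edge Δ hΔ).1 (h.cons _ h3 (h1 Δ hΔ)))
  · intro h3
    exact h.sub ((hp.edge Δ hΔ).2 (h.cons _ h3 (h2 Δ hΔ)))

end Pool.Agent.SteinerGen
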