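import Pool.Agent.Lib_helper35.SteinerGen1

/-!
# Adding an edge, and amalgamation
-/

set_option autoImplicit false
set_option linter.all false

namespace Pool.Agent.SteinerGen

variable {V : Type} [DecidableEq V]

lemma good_empty (ty : V → Bool) (t : ℕ) : Good ty t (∅ : Finset (Finset V)) := by
  refine { card := by simp, npts := by simp, lin := by simp, pre := ?_ }
  intro U hU
  have := np_le_card ty U
  simp only [del, en, Finset.filter_empty, Finset.card_empty]
  push_cast; omega

/-- adding a hyperedge whose last element is new -/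
lemma add_edge {ty : V → Bool} {t : ℕ} {H : Finset (Finset V)} (hH : Good ty t H)
    {W S : Finset V} (hW : ∀ E ∈ H, E ⊆ W) (hS : S ⊆ W) (hSc : S.card = t)
    (hne : ∀ E ∈ H, ¬ S ⊆ E) {z : V} (hz : z ∉ W)
    (hnp : np ty (insert z S) = t) :
    Good ty t (insert (insert z S) H) ∧ Ext W H (insert (insert z S) H) := by
  have hzS : z ∉ S := fun h => hz (hS h)
  have hzE : ∀ E ∈ H, z ∉ E := fun E hE h => hz (hW E hE h)
  have hnotin : insert z S ∉ H := fun h => hzE _ h (Finset.mem_insert_self _ _)
  have hloc : Loc ty t (insert (insert z S) H) := by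
    refine ⟨?_, ?_, ?_⟩
    · intro E hE
      rcases Finset.mem_insert.1 hE with rfl | hE
      · rw [Finset.card_insert_of_notMem hzS, hSc]
      · exact hH.card E hE
    · intro E hE
      rcases Finset.mem_insert.1 hE with rfl | hE
      · exact hnp
      · exact hH.npts E hE
    · have key : ∀ E ∈ H, ((insert z S) ∩ E).card + 1 ≤ t := by
        intro E hE
        have h1 : (insert z S) ∩ E = S ∩ E := Finset.insert_inter_of_notMem (hzE E hE)
        rw [h1]
        have h2 : (S ∩ E).card < S.card := by
          apply Finset.card_lt_card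
          refine ⟨Finset.inter_subset_left, fun h => hne E hE (h.trans Finset.inter_subset_right)⟩
        omega
      intro E hE E' hE' hEE'
      rcases Finset.mem_insert.1 hE with rfl | hE
      · rcases Finset.mem_insert.1 hE' with rfl | hE'
        · exact absurd rfl hEE'
        · exact key E' hE'
      · rcases Finset.mem_insert.1 hE' with rfl | hE'
        · rw [Finset.inter_comm]; exact key E hE
        · exact hH.lin E hE E' hE' hEE'
  have hen : ∀ U : Finset V, en (insert (insert z S) H) U =
      en H U + if insert z S ⊆ U then 1 else 0 := by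
    intro U
    unfold en
    rw [Finset.filter_insert]
    split_ifs with h
    · rw [Finset.card_insert_of_notMem]
      intro h'
      exact hnotin (Finset.mem_filter.1 h').1
    · rfl
  have henz : ∀ U : Finset V, en H (U.erase z) = en H U := by
    intro U
    unfold en
    congr 1
    ext E
    simp only [Finset.mem_filter, and_congr_right_iff]
    intro hE
    constructor
    · intro h; exact h.trans (Finset.erase_subset _ _)
    · intro h; exact Finset.subset_erase.2 ⟨h, hzE E hE⟩
  refine ⟨{ hloc with pre := ?_ }, ?_⟩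
  · intro U hU
    by_cases hSU : insert z S ⊆ U
    · have hzU : z ∈ U := hSU (Finset.mem_insert_self _ _)
      by_cases h1 : t + 1 ≤ np ty (U.erase z)
      · have h2 := hH.pre _ h1
        have h3 := Finset.card_erase_add_one hzU
        have h4 := hen U
        rw [if_pos hSU] at h4
        unfold del at h2 ⊢
        rw [henz] at h2
        omega
      · apply hloc.small hU
        have h2 := hH.toLoc.en_le_one (U := U.erase z) (by omega)
        rw [henz] at h2
        have h4 := hen U
        rw [if_pos hSU] at h4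
        omega
    · have h4 := hen U
      rw [if_neg hSU] at h4
      have h5 := hH.pre U hU
      unfold del at h5 ⊢
      omega
  · refine ⟨Finset.subset_insert _ _, ?_, ?_⟩
    · intro E hE hEW
      rcases Finset.mem_insert.1 hE with rfl | hE
      · exact absurd (hEW (Finset.mem_insert_self _ _)) hz
      · exact hE
    · intro U
      have h1 : en (insert (insert z S) H) (U ∩ W) = en H U := by
        rw [hen, if_neg]
        · rw [add_zero]
          unfold en
          congr 1
          ext E
          simp only [Finset.mem_filter, and_congr_right_iff, Finset.subset_inter_iff]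
          intro hE
          exact ⟨fun h => h.1, fun h => ⟨h, hW E hE⟩⟩
        · intro h
          exact hz (Finset.mem_inter.1 (h (Finset.mem_insert_self _ _))).2
      unfold del
      rw [h1, hen]
      split_ifs with h
      · have h2 : (U ∩ W).card < U.card := by
          apply Finset.card_lt_card
          refine ⟨Finset.inter_subset_left, fun h' => ?_⟩
          exact hz (Finset.mem_inter.1 (h' (h (Finset.mem_insert_self _ _)))).2
        push_cast
        omega
      · have h2 : (U ∩ W).card ≤ U.card := Finset.card_le_card Finset.inter_subset_left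
        push_cast
        omega

/-- for every finite set there is an injection of `V` avoiding it and keeping types -/
def Fresh (ty : V → Bool) : Prop :=
  ∀ W : Finset V, ∃ φ : V → V, Function.Injective φ ∧ (∀ v, ty (φ v) = ty v) ∧ ∀ v, φ v ∉ W

/-- every `t`-set containing at most one colour is in an edge of a suitable extension -/
lemma exists_add_edge {ty : V → Bool} (hfr : Fresh ty) (hpt : ∃ v, ty v = true)
    (hcol : ∃ v, ty v = false) {t : ℕ} {H : Finset (Finset V)} (hH : Good ty t H)
    {W S : Finset V} (hW : ∀ E ∈ H, E ⊆ W) (hS : S ⊆ W) (hSc : S.card = t)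
    (hSn : t ≤ np ty S + 1) :
    ∃ H' W', Good ty t H' ∧ (∀ E ∈ H', E ⊆ W') ∧ W ⊆ W' ∧ Ext W H H' ∧ ∃ E ∈ H', S ⊆ E := by
  by_cases hex : ∃ E ∈ H, S ⊆ E
  · obtain ⟨E, hE, hSE⟩ := hex
    refine ⟨H, W, hH, hW, Finset.Subset.refl _, ⟨Finset.Subset.refl _, fun E hE _ => hE, ?_⟩,
      E, hE, hSE⟩
    intro U
    unfold del
    have h1 : en H (U ∩ W) = en H U := by
      unfold en
      congr 1
      ext E
      simp only [Finset.mem_filter, and_congr_right_iff, Finset.subset_inter_iff]
      intro hE
      exact ⟨fun h => h.1, fun h => ⟨h, hW E hE⟩⟩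
    rw [h1]
    have h2 : (U ∩ W).card ≤ U.card := Finset.card_le_card Finset.inter_subset_left
    omega
  · push Not at hex
    obtain ⟨φ, -, h2, h3⟩ := hfr W
    obtain ⟨z, hz, hnp⟩ : ∃ z, z ∉ W ∧ np ty (insert z S) = t := by
      obtain ⟨u, hu⟩ := hpt
      obtain ⟨w, hw⟩ := hcol
      by_cases h : np ty S = t
      · refine ⟨φ w, h3 w, ?_⟩
        rw [np_insert (fun h' => h3 w (hS h')), h2, hw, h]; simp
      · refine ⟨φ u, h3 u, ?_⟩
        rw [np_insert (fun h' => h3 u (hS h')), h2, hu]
        have := np_le_card ty S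
        simp; omega
    obtain ⟨h4, h5⟩ := add_edge hH hW hS hSc hex hz hnp
    refine ⟨_, insert z W, h4, ?_, Finset.subset_insert _ _, h5, _, Finset.mem_insert_self _ _,
      Finset.subset_insert _ _⟩
    intro E hE
    rcases Finset.mem_insert.1 hE with rfl | hE
    · exact Finset.insert_subset_insert _ hS
    · exact (hW E hE).trans (Finset.subset_insert _ _)

section Amalg

variable {ty : V → Bool} {t : ℕ} {H : Finset (Finset V)} {W : Finset V} {Γ : Finset (V × V)}

/-- an injection extending `Γ` and sending everything else to new elements -/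
lemma exists_h (hfr : Fresh ty) (hp : PIso ty H Γ) (hΓ : Γ ⊆ W ×ˢ W) :
    ∃ h : V → V, Function.Injective h ∧ (∀ v, ty (h v) = ty v) ∧ (∀ p ∈ Γ, h p.1 = p.2) ∧
      ∀ v, v ∉ Γ.image Prod.fst → h v ∉ W := by
  classical
  obtain ⟨φ, h1, h2, h3⟩ := hfr W
  let h : V → V := fun v => if hv : ∃ y, (v, y) ∈ Γ then hv.choose else φ v
  have hh1 : ∀ p ∈ Γ, h p.1 = p.2 := by
    rintro ⟨a, b⟩ hab
    have hv : ∃ y, (a, y) ∈ Γ := ⟨b, hab⟩
    have : h a = hv.choose := dif_pos hv
    simp only [this]
    have h4 := hp.fn _ hv.choose_spec _ hab rfl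
    exact congrArg Prod.snd h4
  have hh2 : ∀ v, v ∉ Γ.image Prod.fst → h v = φ v := by
    intro v hv
    apply dif_neg
    rintro ⟨y, hy⟩
    exact hv (Finset.mem_image.2 ⟨_, hy, rfl⟩)
  have hB : ∀ v, v ∈ Γ.image Prod.fst → (v, h v) ∈ Γ := by
    intro v hv
    obtain ⟨p, hp', rfl⟩ := Finset.mem_image.1 hv
    rw [hh1 p hp']; exact hp'
  have hWh : ∀ v, v ∈ Γ.image Prod.fst → h v ∈ W :=
    fun v hv => (Finset.mem_product.1 (hΓ (hB v hv))).2
  refine ⟨h, ?_, ?_, hh1, ?_⟩
  · intro v v' hvv
    by_cases ha : v ∈ Γ.image Prod.fst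
    · by_cases ha' : v' ∈ Γ.image Prod.fst
      · have := hp.inj _ (hB v ha) _ (hB v' ha') hvv
        exact congrArg Prod.fst this
      · exfalso
        apply h3 v'
        rw [← hh2 v' ha', ← hvv]; exact hWh v ha
    · by_cases ha' : v' ∈ Γ.image Prod.fst
      · exfalso
        apply h3 v
        rw [← hh2 v ha, hvv]; exact hWh v' ha'
      · rw [hh2 v ha, hh2 v' ha'] at hvv
        exact h1 hvv
  · intro v
    by_cases ha : v ∈ Γ.image Prod.fst
    · exact (hp.ty _ (hB v ha)).symm
    · rw [hh2 v ha, h2]
  · intro v hv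
    rw [hh2 v hv]; exact h3 v

lemma amalg (hfr : Fresh ty) (hH : Good ty t H) (hW : ∀ E ∈ H, E ⊆ W) (hp : PIso ty H Γ)
    (hΓ : Γ ⊆ W ×ˢ W) (hst : Stuck H Γ) :
    ∃ H' W' Γ', Good ty t H' ∧ (∀ E ∈ H', E ⊆ W') ∧ W ⊆ W' ∧ Ext W H H' ∧ PIso ty H' Γ' ∧
      Γ ⊆ Γ' ∧ Γ' ⊆ W' ×ˢ W' ∧ ∀ x ∈ W, ∃ y, (x, y) ∈ Γ' := by
  classical
  obtain ⟨h, hinj, hty, hh1, hh2⟩ := exists_h hfr hp hΓ
  set A := Γ.image Prod.fst with hA
  set B := Γ.image Prod.snd with hBdef
  have hgr : ∀ v ∈ A, (v, h v) ∈ Γ := by
    intro v hv
    obtain ⟨p, hp', rfl⟩ := Finset.mem_image.1 hv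
    rw [hh1 p hp']; exact hp'
  have hAW : A ⊆ W := fun v hv => (Finset.mem_product.1 (hΓ (hgr v hv))).1
  have hBW : B ⊆ W := by
    intro v hv
    obtain ⟨p, hp', rfl⟩ := Finset.mem_image.1 hv
    exact (Finset.mem_product.1 (hΓ hp')).2
  have hAB : A.image h = B := by
    rw [hA, hBdef, Finset.image_image]
    apply Finset.image_congr
    intro p hp'
    exact hh1 p hp'
  -- h v ∈ W iff v ∈ A
  have hmemW : ∀ v, h v ∈ W → v ∈ A := by
    intro v hv
    by_contra hc
    exact hh2 v hc hv
  have hmemB : ∀ v, h v ∈ B → v ∈ A := fun v hv => hmemW v (hBW hv)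
  have hhA : ∀ v ∈ A, h v ∈ B := by
    intro v hv; rw [← hAB]; exact Finset.mem_image_of_mem _ hv
  -- edges inside A and B correspond
  have hedgeAB : ∀ E : Finset V, E ⊆ A → (E ∈ H ↔ E.image h ∈ H) := by
    intro E hE
    have h3 := hp.edge (E.image (fun v => (v, h v))) (by
      intro p hp'
      obtain ⟨v, hv, rfl⟩ := Finset.mem_image.1 hp'
      exact hgr v (hE hv))
    rw [Finset.image_image, Finset.image_image] at h3
    have e1 : (Prod.fst ∘ fun v => (v, h v)) = (id : V → V) := rfl
    have e2 : (Prod.snd ∘ fun v => (v, h v)) = h := rfl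
    rw [e1, e2, Finset.image_id] at h3
    exact h3
  have himinj : Function.Injective (fun E : Finset V => E.image h) := Finset.image_injective hinj
  set H2 := H.image (fun E : Finset V => E.image h) with hH2
  set H' := H ∪ H2 with hH'
  -- intersection of H and H2
  have hinter : H ∩ H2 = H.filter (fun E => E ⊆ B) := by
    ext E
    simp only [Finset.mem_inter, Finset.mem_filter, hH2, Finset.mem_image]
    constructor
    · rintro ⟨hE, E0, hE0, rfl⟩
      refine ⟨hE, ?_⟩
      intro v hv
      obtain ⟨u, hu, rfl⟩ := Finset.mem_image.1 hv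
      exact hhA u (hmemW u (hW _ hE hv))
    · rintro ⟨hE, hEB⟩
      refine ⟨hE, ?_⟩
      obtain ⟨E0, hE0A, hE0⟩ : ∃ E0 ⊆ A, E0.image h = E := by
        refine ⟨A.filter (fun v => h v ∈ E), Finset.filter_subset _ _, ?_⟩
        ext v
        simp only [Finset.mem_image, Finset.mem_filter]
        constructor
        · rintro ⟨u, hu, rfl⟩; exact hu.2
        · intro hv
          have := hEB hv
          rw [← hAB] at this
          obtain ⟨u, hu, rfl⟩ := Finset.mem_image.1 this
          exact ⟨u, ⟨hu, hv⟩, rfl⟩
      exact ⟨E0, (hedgeAB E0 hE0A).2 (hE0 ▸ hE), hE0⟩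
  -- preimage
  have hpre : ∀ (U E : Finset V), E.image h ⊆ U ↔ E ⊆ U.preimage h hinj.injOn := by
    intro U E
    rw [Finset.image_subset_iff]
    simp only [Finset.subset_iff, Finset.mem_preimage]
  have hen2 : ∀ U : Finset V, en H2 U = en H (U.preimage h hinj.injOn) := by
    intro U
    unfold en
    rw [hH2, Finset.filter_image, Finset.card_image_of_injective _ himinj]
    congr 1
    ext E
    simp only [Finset.mem_filter, hpre]
  have hen : ∀ U : Finset V, en H' U + en H (U ∩ B) = en H U + en H (U.preimage h hinj.injOn) := by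
    intro U
    have h3 : (H'.filter (fun E => E ⊆ U)) =
        (H.filter (fun E => E ⊆ U)) ∪ (H2.filter (fun E => E ⊆ U)) := by
      rw [hH', Finset.filter_union]
    have h4 : (H.filter (fun E => E ⊆ U)) ∩ (H2.filter (fun E => E ⊆ U)) =
        H.filter (fun E => E ⊆ U ∩ B) := by
      ext E
      have h5 := Finset.ext_iff.1 hinter E
      simp only [Finset.mem_inter, Finset.mem_filter, Finset.subset_inter_iff] at h5 ⊢
      tauto
    have h5 := Finset.card_union_add_card_inter (H.filter (fun E => E ⊆ U))
      (H2.filter (fun E => E ⊆ U))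
    rw [← h3, h4] at h5
    have h6 := hen2 U
    unfold en at h6 ⊢
    omega
  have henW : ∀ U : Finset V, en H (U ∩ W) = en H U := by
    intro U
    unfold en
    congr 1
    ext E
    simp only [Finset.mem_filter, and_congr_right_iff, Finset.subset_inter_iff]
    intro hE
    exact ⟨fun h => h.1, fun h => ⟨h, hW E hE⟩⟩
  -- counting in the images
  have hcard2 : ∀ U : Finset V, (U.preimage h hinj.injOn ∩ W).card = (U ∩ W.image h).card := by
    intro U
    rw [← Finset.card_image_of_injective _ hinj]
    congr 1
    ext v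
    simp only [Finset.mem_image, Finset.mem_inter, Finset.mem_preimage]
    constructor
    · rintro ⟨u, ⟨hu, hu'⟩, rfl⟩; exact ⟨hu, u, hu', rfl⟩
    · rintro ⟨hv, u, hu, rfl⟩; exact ⟨u, ⟨hv, hu⟩, rfl⟩
  have hWhW : W ∩ W.image h = B := by
    ext v
    simp only [Finset.mem_inter, Finset.mem_image]
    constructor
    · rintro ⟨hv, u, hu, rfl⟩; exact hhA u (hmemW u hv)
    · intro hv
      refine ⟨hBW hv, ?_⟩
      rw [← hAB] at hv
      obtain ⟨u, hu, rfl⟩ := Finset.mem_image.1 hv
      exact ⟨u, hAW hu, rfl⟩
  have hcard3 : ∀ U : Finset V, (U ∩ W).card + (U ∩ W.image h).card ≤ U.card + (U ∩ B).card := by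
    intro U
    have h3 := Finset.card_union_add_card_inter (U ∩ W) (U ∩ W.image h)
    have h4 : (U ∩ W) ∩ (U ∩ W.image h) = U ∩ B := by
      rw [← hWhW]; ext v; simp only [Finset.mem_inter]; tauto
    have h5 : ((U ∩ W) ∪ (U ∩ W.image h)).card ≤ U.card :=
      Finset.card_le_card (Finset.union_subset Finset.inter_subset_left Finset.inter_subset_left)
    rw [h4] at h3
    omega
  have hpreA : ∀ U : Finset V, (U.preimage h hinj.injOn ∩ A).card = (U ∩ B).card ∧
      en H (U.preimage h hinj.injOn ∩ A) = en H (U ∩ B) := by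
    intro U
    have h3 : (U.preimage h hinj.injOn ∩ A).image h = U ∩ B := by
      ext v
      simp only [Finset.mem_image, Finset.mem_inter, Finset.mem_preimage]
      constructor
      · rintro ⟨u, ⟨hu, hu'⟩, rfl⟩; exact ⟨hu, hhA u hu'⟩
      · rintro ⟨hv, hvB⟩
        rw [← hAB] at hvB
        obtain ⟨u, hu, rfl⟩ := Finset.mem_image.1 hvB
        exact ⟨u, ⟨hv, hu⟩, rfl⟩
    constructor
    · rw [← h3, Finset.card_image_of_injective _ hinj]
    · unfold en
      rw [← Finset.card_image_of_injective _ himinj]
      congr 1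
      ext E
      simp only [Finset.mem_image, Finset.mem_filter]
      constructor
      · rintro ⟨E0, ⟨hE0, hE0'⟩, rfl⟩
        refine ⟨(hedgeAB E0 (hE0'.trans Finset.inter_subset_right)).1 hE0, ?_⟩
        rw [← h3]; exact Finset.image_subset_image hE0'
      · rintro ⟨hE, hE'⟩
        rw [← h3] at hE'
        obtain ⟨E0, hE0, hE0'⟩ := Finset.subset_image_iff.1 hE'
        have hE0'' : E0 ⊆ U.preimage h hinj.injOn ∩ A := by exact_mod_cast hE0
        refine ⟨E0, ⟨?_, hE0''⟩, hE0'⟩
        apply (hedgeAB E0 (hE0''.trans Finset.inter_subset_right)).2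
        rw [hE0']; exact hE
  -- the two basic inequalities
  have hineq1 : ∀ U : Finset V, del H (U ∩ W) ≤ del H' U := by
    intro U
    have h3 := hp.s1 (U.preimage h hinj.injOn ∩ W)
    have h4 : U.preimage h hinj.injOn ∩ W ∩ A = U.preimage h hinj.injOn ∩ A := by
      rw [Finset.inter_assoc, Finset.inter_eq_right.2 hAW]
    rw [← hA, h4] at h3
    have h5 := hpreA U
    have h6 := hcard2 U
    have h7 := hcard3 U
    have h8 := hen U
    have h9 := henW U
    have h10 := henW (U.preimage h hinj.injOn)
    unfold del at h3 ⊢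
    omega
  have hineq2 : ∀ U : Finset V, del H (U.preimage h hinj.injOn ∩ W) ≤ del H' U := by
    intro U
    have h3 := hp.s2 (U ∩ W)
    have h4 : U ∩ W ∩ B = U ∩ B := by
      rw [Finset.inter_assoc, Finset.inter_eq_right.2 hBW]
    rw [← hBdef, h4] at h3
    have h5 := hpreA U
    have h6 := hcard2 U
    have h7 := hcard3 U
    have h8 := hen U
    have h9 := henW U
    have h10 := henW (U.preimage h hinj.injOn)
    unfold del at h3 ⊢
    omega
  -- conservativity
  have hcons : ∀ E ∈ H', E ⊆ W → E ∈ H := by
    intro E hE hEW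
    rcases Finset.mem_union.1 hE with hE | hE
    · exact hE
    · obtain ⟨E0, hE0, rfl⟩ := Finset.mem_image.1 hE
      apply (hedgeAB E0 _).1 hE0
      intro v hv
      exact hmemW v (hEW (Finset.mem_image_of_mem _ hv))
  have hcons2 : ∀ E ∈ H', E ⊆ W.image h → E ∈ H2 := by
    intro E hE hEW
    rcases Finset.mem_union.1 hE with hE | hE
    · have : E ⊆ B := by rw [← hWhW]; exact Finset.subset_inter (hW E hE) hEW
      have h3 : E ∈ H ∩ H2 := by rw [hinter, Finset.mem_filter]; exact ⟨hE, this⟩
      exact (Finset.mem_inter.1 h3).2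
    · exact hE
  -- types
  have hnph : ∀ E : Finset V, np ty (E.image h) = np ty E := by
    intro E
    unfold np
    rw [Finset.filter_image, Finset.card_image_of_injective _ hinj]
    congr 1
    ext v
    simp only [Finset.mem_filter, hty]
  -- local conditions
  have hloc : Loc ty t H' := by
    refine ⟨?_, ?_, ?_⟩
    · intro E hE
      rcases Finset.mem_union.1 hE with hE | hE
      · exact hH.card E hE
      · obtain ⟨E0, hE0, rfl⟩ := Finset.mem_image.1 hE
        rw [Finset.card_image_of_injective _ hinj]; exact hH.card E0 hE0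
    · intro E hE
      rcases Finset.mem_union.1 hE with hE | hE
      · exact hH.npts E hE
      · obtain ⟨E0, hE0, rfl⟩ := Finset.mem_image.1 hE
        simp only [hnph]; exact hH.npts E0 hE0
    · have hlin2 : ∀ E ∈ H2, ∀ E' ∈ H2, E ≠ E' → (E ∩ E').card + 1 ≤ t := by
        intro E hE E' hE' hne
        obtain ⟨E0, hE0, rfl⟩ := Finset.mem_image.1 hE
        obtain ⟨E0', hE0', rfl⟩ := Finset.mem_image.1 hE'
        rw [← Finset.image_inter _ _ hinj, Finset.card_image_of_injective _ hinj]
        exact hH.lin E0 hE0 E0' hE0' (fun h => hne (by rw [h]))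
      -- mixed case
      have hmix : ∀ E ∈ H, ∀ E' ∈ H2, E ≠ E' → (E ∩ E').card + 1 ≤ t := by
        intro E hE E' hE' hne
        by_contra hcon
        push Not at hcon
        by_cases hE2 : E ∈ H2
        · have := hlin2 E hE2 E' hE' hne; omega
        by_cases hE1 : E' ∈ H
        · have := hH.lin E hE E' hE1 hne; omega
        obtain ⟨E0, hE0, hE0'⟩ := Finset.mem_image.1 hE'
        have hcE := hH.card E hE
        have hcE' : E'.card = t + 1 := by
          rw [← hE0', Finset.card_image_of_injective _ hinj]; exact hH.card E0 hE0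
        -- the intersection lies in B
        have hSB : E ∩ E' ⊆ B := by
          rw [← hWhW]
          apply Finset.subset_inter (Finset.inter_subset_left.trans (hW E hE))
          apply Finset.inter_subset_right.trans
          rw [← hE0']
          exact Finset.image_subset_image (hW E0 hE0)
        have hSt : (E ∩ E').card = t := by
          have h3 : (E ∩ E').card < E.card := by
            apply Finset.card_lt_card
            refine ⟨Finset.inter_subset_left, fun h' => ?_⟩
            have h4 : E ⊆ E' := h'.trans Finset.inter_subset_right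
            exact hne (Finset.eq_of_subset_of_card_le h4 (by omega))
          omega
        -- the two remaining elements
        obtain ⟨x, hx⟩ : ∃ x, E \ E' = {x} := by
          rw [← Finset.card_eq_one]
          have := Finset.card_sdiff_add_card_inter E E'
          omega
        obtain ⟨y, hy⟩ : ∃ y, E' \ E = {y} := by
          rw [← Finset.card_eq_one]
          have := Finset.card_sdiff_add_card_inter E' E
          rw [Finset.inter_comm] at this
          omega
        have hEx : E = insert x (E ∩ E') := by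
          ext v
          have h3 := Finset.ext_iff.1 hx v
          simp only [Finset.mem_sdiff, Finset.mem_singleton] at h3
          simp only [Finset.mem_insert, Finset.mem_inter]
          tauto
        have hEy : E' = insert y (E ∩ E') := by
          ext v
          have h3 := Finset.ext_iff.1 hy v
          simp only [Finset.mem_sdiff, Finset.mem_singleton] at h3
          simp only [Finset.mem_insert, Finset.mem_inter]
          tauto
        have hxB : x ∉ B := by
          intro hxB
          apply hE2
          have : E ⊆ B := by rw [hEx]; exact Finset.insert_subset hxB hSB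
          have h3 : E ∈ H ∩ H2 := by rw [hinter, Finset.mem_filter]; exact ⟨hE, this⟩
          exact (Finset.mem_inter.1 h3).2
        have hyB : y ∉ B := by
          intro hyB
          apply hE1
          have h3 : E' ⊆ W := by rw [hEy]; exact Finset.insert_subset (hBW hyB) (hSB.trans hBW)
          exact hcons E' (Finset.mem_union_right _ hE') h3
        -- pull back
        have hyE' : y ∈ E' := by rw [hEy]; exact Finset.mem_insert_self _ _
        rw [← hE0'] at hyE'
        obtain ⟨y0, hy0, hy0'⟩ := Finset.mem_image.1 hyE'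
        have hy0A : y0 ∉ A := by
          intro h3
          apply hyB
          rw [← hy0']; exact hhA y0 h3
        let Δ := Γ.filter (fun p => p.2 ∈ E ∩ E')
        have hΔs : Δ.image Prod.snd = E ∩ E' := by
          ext v
          simp only [Δ, Finset.mem_image, Finset.mem_filter]
          constructor
          · rintro ⟨p, ⟨-, hp2⟩, rfl⟩; exact hp2
          · intro hv
            obtain ⟨p, hp', hpv⟩ := Finset.mem_image.1 (hSB hv)
            exact ⟨p, ⟨hp', by rw [hpv]; exact hv⟩, hpv⟩
        have hΔf : insert y0 (Δ.image Prod.fst) = E0 := by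
          apply himinj
          simp only
          rw [hE0', Finset.image_insert, hy0']
          have h3 : (Δ.image Prod.fst).image h = E ∩ E' := by
            rw [← hΔs, Finset.image_image]
            apply Finset.image_congr
            intro p hp'
            exact hh1 p (Finset.mem_filter.1 hp').1
          rw [h3]
          exact hEy.symm
        exact hst Δ (Finset.filter_subset _ _) y0 x hy0A hxB (by rw [hΔf]; exact hE0)
          (by rw [hΔs, ← hEx]; exact hE)
      intro E hE E' hE' hne
      rcases Finset.mem_union.1 hE with hE | hE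
      · rcases Finset.mem_union.1 hE' with hE' | hE'
        · exact hH.lin E hE E' hE' hne
        · exact hmix E hE E' hE' hne
      · rcases Finset.mem_union.1 hE' with hE' | hE'
        · rw [Finset.inter_comm]; exact hmix E' hE' E hE hne.symm
        · exact hlin2 E hE E' hE' hne
  -- the predimension condition
  have hgood : Good ty t H' := by
    refine { hloc with pre := ?_ }
    intro U hU
    by_cases h3 : t + 1 ≤ np ty (U ∩ W)
    · exact (hH.pre _ h3).trans (hineq1 U)
    by_cases h4 : t + 1 ≤ np ty (U.preimage h hinj.injOn ∩ W)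
    · exact (hH.pre _ h4).trans (hineq2 U)
    apply hloc.small hU
    have h5 := hH.toLoc.en_le_one (U := U ∩ W) (by omega)
    have h6 := hH.toLoc.en_le_one (U := U.preimage h hinj.injOn ∩ W) (by omega)
    rw [henW] at h5 h6
    have h7 := hen U
    omega
  have hext : Ext W H H' := by
    refine ⟨Finset.subset_union_left, hcons, ?_⟩
    intro U
    have h3 : del H' (U ∩ W) = del H (U ∩ W) := by
      unfold del en
      congr 3
      ext E
      simp only [Finset.mem_filter]
      constructor
      · rintro ⟨hE, hE'⟩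
        exact ⟨hcons E hE (hE'.trans Finset.inter_subset_right), hE'⟩
      · rintro ⟨hE, hE'⟩
        exact ⟨Finset.mem_union_left _ hE, hE'⟩
    rw [h3]; exact hineq1 U
  -- the new partial isomorphism
  let Γ' := W.image (fun v => (v, h v))
  have hΓ'f : ∀ Δ ⊆ Γ', Δ.image Prod.snd = (Δ.image Prod.fst).image h := by
    intro Δ hΔ
    rw [Finset.image_image]
    apply Finset.image_congr
    intro p hp'
    obtain ⟨v, hv, rfl⟩ := Finset.mem_image.1 (hΔ hp')
    rfl
  have hΓ'W : ∀ Δ ⊆ Γ', Δ.image Prod.fst ⊆ W := by
    intro Δ hΔ v hv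
    obtain ⟨p, hp', rfl⟩ := Finset.mem_image.1 hv
    obtain ⟨w, hw, rfl⟩ := Finset.mem_image.1 (hΔ hp')
    exact hw
  have e1 : Γ'.image Prod.fst = W := by
    simp only [Γ', Finset.image_image]
    have : (Prod.fst ∘ fun v => (v, h v)) = (id : V → V) := rfl
    rw [this, Finset.image_id]
  have e2 : Γ'.image Prod.snd = W.image h := by
    simp only [Γ', Finset.image_image]
    rfl
  have hpiso : PIso ty H' Γ' := by
    refine ⟨?_, ?_, ?_, ?_, ?_, ?_⟩
    · intro p hp' q hq hpq
      obtain ⟨v, hv, rfl⟩ := Finset.mem_image.1 hp'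
      obtain ⟨w, hw, rfl⟩ := Finset.mem_image.1 hq
      simp only at hpq
      rw [hpq]
    · intro p hp' q hq hpq
      obtain ⟨v, hv, rfl⟩ := Finset.mem_image.1 hp'
      obtain ⟨w, hw, rfl⟩ := Finset.mem_image.1 hq
      simp only at hpq
      rw [hinj hpq]
    · intro p hp'
      obtain ⟨v, hv, rfl⟩ := Finset.mem_image.1 hp'
      exact (hty v).symm
    · intro Δ hΔ
      rw [hΓ'f Δ hΔ]
      constructor
      · intro h3
        have h4 := hcons _ h3 (hΓ'W Δ hΔ)
        exact Finset.mem_union_right _ (Finset.mem_image_of_mem (fun E : Finset V => E.image h) h4)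
      · intro h3
        have h4 := hcons2 _ h3 (Finset.image_subset_image (hΓ'W Δ hΔ))
        obtain ⟨E0, hE0, hE0'⟩ := Finset.mem_image.1 h4
        have h5 : E0 = Δ.image Prod.fst := himinj hE0'
        rw [← h5]
        exact Finset.mem_union_left _ hE0
    · rw [e1]; exact hext.str
    · rw [e2]
      intro U
      have h3 := hineq2 U
      have h4 : (U ∩ W.image h).preimage h hinj.injOn = U.preimage h hinj.injOn ∩ W := by
        ext v
        simp only [Finset.mem_preimage, Finset.mem_inter, Finset.mem_image]
        constructor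
        · rintro ⟨ha, u, hu, huv⟩; rw [← hinj huv]; exact ⟨by rw [hinj huv]; exact ha, hu⟩
        · rintro ⟨ha, hb⟩; exact ⟨ha, v, hb, rfl⟩
      have h5 : en H' (U ∩ W.image h) = en H (U.preimage h hinj.injOn ∩ W) := by
        have h6 : en H' (U ∩ W.image h) = en H2 (U ∩ W.image h) := by
          unfold en
          congr 1
          ext E
          simp only [Finset.mem_filter]
          constructor
          · rintro ⟨hE, hE'⟩
            exact ⟨hcons2 E hE (hE'.trans Finset.inter_subset_right), hE'⟩
          · rintro ⟨hE, hE'⟩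
            exact ⟨Finset.mem_union_right _ hE, hE'⟩
        rw [h6, hen2, h4]
      have h6 := hcard2 U
      unfold del at h3 ⊢
      rw [h5, ← h6]
      exact h3
  refine ⟨H', W ∪ W.image h, Γ', hgood, ?_, Finset.subset_union_left, hext, hpiso, ?_, ?_, ?_⟩
  · intro E hE
    rcases Finset.mem_union.1 hE with hE | hE
    · exact (hW E hE).trans Finset.subset_union_left
    · obtain ⟨E0, hE0, rfl⟩ := Finset.mem_image.1 hE
      exact (Finset.image_subset_image (hW E0 hE0)).trans Finset.subset_union_right
  · rintro ⟨a, b⟩ hab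
    have h3 := hh1 _ hab
    have h4 := (Finset.mem_product.1 (hΓ hab)).1
    simp only at h3
    exact Finset.mem_image.2 ⟨a, h4, by rw [h3]⟩
  · intro p hp'
    obtain ⟨v, hv, rfl⟩ := Finset.mem_image.1 hp'
    rw [Finset.mem_product]
    exact ⟨Finset.mem_union_left _ hv, Finset.mem_union_right _ (Finset.mem_image_of_mem _ hv)⟩
  · intro x hx
    exact ⟨h x, Finset.mem_image.2 ⟨x, hx, rfl⟩⟩

/-- amalgamation without the assumption that `Γ` is stuck -/
lemma amalg' (hfr : Fresh ty) (hH : Good ty t H) (hW : ∀ E ∈ H, E ⊆ W) (hp : PIso ty H Γ)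
    (hΓ : Γ ⊆ W ×ˢ W) :
    ∃ H' W' Γ', Good ty t H' ∧ (∀ E ∈ H', E ⊆ W') ∧ W ⊆ W' ∧ Ext W H H' ∧ PIso ty H' Γ' ∧
      Γ ⊆ Γ' ∧ Γ' ⊆ W' ×ˢ W' ∧ ∀ x ∈ W, ∃ y, (x, y) ∈ Γ' := by
  obtain ⟨Γ1, h1, h2, h3, h4⟩ := hp.exists_stuck hH.toLoc hW hΓ
  obtain ⟨H', W', Γ', k1, k2, k3, k4, k5, k6, k7, k8⟩ := amalg hfr hH hW h3 h2 h4
  exact ⟨H', W', Γ', k1, k2, k3, k4, k5, h1.trans k6, k7, k8⟩

end Amalg

end Pool.Agent.SteinerGen
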