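import Pool.Agent.Lib_helper35.SteinerGen2

/-!
# The generic limit
-/

set_option autoImplicit false
set_option linter.all false

namespace Pool.Agent.SteinerGen

variable {V : Type} [DecidableEq V]

/-- graph of a bijection between two sets of at most `t + 1` points -/
structure IsInit (ty : V → Bool) (t : ℕ) (Γ : Finset (V × V)) : Prop where
  fn : ∀ p ∈ Γ, ∀ q ∈ Γ, p.1 = q.1 → p = q
  inj : ∀ p ∈ Γ, ∀ q ∈ Γ, p.2 = q.2 → p = q
  ty1 : ∀ p ∈ Γ, ty p.1 = true
  ty2 : ∀ p ∈ Γ, ty p.2 = true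
  card : Γ.card ≤ t + 1

lemma strong_points {ty : V → Bool} {t : ℕ} {H : Finset (Finset V)} (hH : Good ty t H)
    {A : Finset V} (hA : ∀ v ∈ A, ty v = true) (hc : A.card ≤ t + 1) : Strong H A := by
  intro U
  have h1 : (U ∩ A).card ≤ np ty U := by
    apply Finset.card_le_card
    intro v hv
    rw [Finset.mem_inter] at hv
    rw [Finset.mem_filter]
    exact ⟨hv.1, hA v hv.2⟩
  have h2 : (U ∩ A).card ≤ A.card := Finset.card_le_card Finset.inter_subset_right
  have h3 : del H (U ∩ A) ≤ (U ∩ A).card := by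
    unfold del; omega
  apply h3.trans
  by_cases h4 : t + 1 ≤ np ty U
  · have := hH.pre U h4
    omega
  · have h5 := hH.toLoc.en_le_one (U := U) (by omega)
    have h6 := np_le_card ty U
    unfold del
    rcases Nat.lt_or_ge (en H U) 1 with h7 | h7
    · omega
    · have h8 : 0 < (H.filter (fun E => E ⊆ U)).card := by unfold en at h7; omega
      obtain ⟨E, hE⟩ := Finset.card_pos.1 h8
      rw [Finset.mem_filter] at hE
      have h9 := hH.toLoc.exists_color hE.1 hE.2
      omega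

lemma not_edge_of_points {ty : V → Bool} {t : ℕ} {H : Finset (Finset V)} (hH : Loc ty t H)
    {A : Finset V} (hA : ∀ v ∈ A, ty v = true) : A ∉ H := by
  intro h
  have h1 := hH.exists_color h (Finset.Subset.refl _)
  have h2 : np ty A = A.card := by
    unfold np; rw [Finset.filter_true_of_mem hA]
  omega

lemma init_piso {ty : V → Bool} {t : ℕ} {H : Finset (Finset V)} (hH : Good ty t H)
    {Γ : Finset (V × V)} (hΓ : IsInit ty t Γ) : PIso ty H Γ := by
  have p1 : ∀ Δ ⊆ Γ, ∀ v ∈ Δ.image Prod.fst, ty v = true := by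
    intro Δ hΔ v hv
    obtain ⟨p, hp, rfl⟩ := Finset.mem_image.1 hv
    exact hΓ.ty1 p (hΔ hp)
  have p2 : ∀ Δ ⊆ Γ, ∀ v ∈ Δ.image Prod.snd, ty v = true := by
    intro Δ hΔ v hv
    obtain ⟨p, hp, rfl⟩ := Finset.mem_image.1 hv
    exact hΓ.ty2 p (hΔ hp)
  refine ⟨hΓ.fn, hΓ.inj, ?_, ?_, ?_, ?_⟩
  · intro p hp; rw [hΓ.ty1 p hp, hΓ.ty2 p hp]
  · intro Δ hΔ
    constructor
    · intro h; exact absurd h (not_edge_of_points hH.toLoc (p1 Δ hΔ))
    · intro h; exact absurd h (not_edge_of_points hH.toLoc (p2 Δ hΔ))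
  · exact strong_points hH (p1 Γ (Finset.Subset.refl _)) (Finset.card_image_le.trans hΓ.card)
  · exact strong_points hH (p2 Γ (Finset.Subset.refl _)) (Finset.card_image_le.trans hΓ.card)

/-- finite approximations -/
structure Cond (ty : V → Bool) (t : ℕ) {I : Type} (init : I → Finset (V × V)) where
  W : Finset V
  H : Finset (Finset V)
  Γ : I → Finset (V × V)
  hW : ∀ E ∈ H, E ⊆ W
  good : Good ty t H
  piso : ∀ i, PIso ty H (Γ i)
  sub : ∀ i, init i ⊆ Γ i
  bd : ∀ i, Γ i = init i ∨ Γ i ⊆ W ×ˢ W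

section

variable {ty : V → Bool} {t : ℕ} {I : Type} {init : I → Finset (V × V)}

/-- extension of approximations -/
def Cond.le (p q : Cond ty t init) : Prop := p.H ⊆ q.H ∧ ∀ i, p.Γ i ⊆ q.Γ i

lemma Cond.le_refl (p : Cond ty t init) : p.le p := ⟨Finset.Subset.refl _, fun _ => Finset.Subset.refl _⟩

lemma Cond.le_trans {p q r : Cond ty t init} (h1 : p.le q) (h2 : q.le r) : p.le r :=
  ⟨h1.1.trans h2.1, fun i => (h1.2 i).trans (h2.2 i)⟩

lemma prod_mono {W W' : Finset V} (h : W ⊆ W') : W ×ˢ W ⊆ W' ×ˢ W' :=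
  Finset.product_subset_product h h

lemma Cond.dense_edge (hfr : Fresh ty) (hpt : ∃ v, ty v = true) (hcol : ∃ v, ty v = false)
    (hinit : ∀ i, IsInit ty t (init i)) (p : Cond ty t init) (S : Finset V) (hS : S.card = t)
    (hSn : t ≤ np ty S + 1) : ∃ q : Cond ty t init, p.le q ∧ ∃ E ∈ q.H, S ⊆ E := by
  obtain ⟨H', W', k1, k2, k3, k4, E, hE, hSE⟩ := exists_add_edge hfr hpt hcol p.good
    (W := p.W ∪ S) (fun E hE => (p.hW E hE).trans Finset.subset_union_left)
    Finset.subset_union_right hS hSn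
  refine ⟨⟨W', H', p.Γ, k2, k1, ?_, p.sub, ?_⟩, ⟨k4.sub, fun i => Finset.Subset.refl _⟩, E, hE, hSE⟩
  · intro i
    rcases p.bd i with h | h
    · rw [h]; exact init_piso k1 (hinit i)
    · exact k4.piso (h.trans (prod_mono Finset.subset_union_left)) (p.piso i)
  · intro i
    rcases p.bd i with h | h
    · exact Or.inl h
    · exact Or.inr (h.trans (prod_mono (Finset.subset_union_left.trans k3)))

lemma Cond.bd_big (p : Cond ty t init) (i : I) (W1 : Finset V) (h1 : p.W ⊆ W1)
    (h2 : (init i).image Prod.fst ⊆ W1) (h3 : (init i).image Prod.snd ⊆ W1) :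
    p.Γ i ⊆ W1 ×ˢ W1 := by
  rcases p.bd i with h | h
  · rw [h]
    intro q hq
    rw [Finset.mem_product]
    exact ⟨h2 (Finset.mem_image_of_mem _ hq), h3 (Finset.mem_image_of_mem _ hq)⟩
  · exact h.trans (prod_mono h1)

lemma Cond.extend (hinit : ∀ i, IsInit ty t (init i)) (p : Cond ty t init) (i : I)
    (W1 W' : Finset V) (H' : Finset (Finset V)) (Γ' : Finset (V × V))
    (h1 : p.W ⊆ W1) (k1 : Good ty t H') (k2 : ∀ E ∈ H', E ⊆ W') (k3 : W1 ⊆ W')
    (k4 : Ext W1 p.H H') (k5 : PIso ty H' Γ') (k6 : p.Γ i ⊆ Γ') (k7 : Γ' ⊆ W' ×ˢ W') :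
    ∃ q : Cond ty t init, p.le q ∧ q.Γ i = Γ' := by
  classical
  refine ⟨⟨W', H', Function.update p.Γ i Γ', k2, k1, ?_, ?_, ?_⟩, ⟨k4.sub, ?_⟩, ?_⟩
  · intro j
    by_cases hj : j = i
    · subst hj; rw [Function.update_self]; exact k5
    · rw [Function.update_of_ne hj]
      rcases p.bd j with h | h
      · rw [h]; exact init_piso k1 (hinit j)
      · exact k4.piso (h.trans (prod_mono h1)) (p.piso j)
  · intro j
    by_cases hj : j = i
    · subst hj; rw [Function.update_self]; exact (p.sub j).trans k6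
    · rw [Function.update_of_ne hj]; exact p.sub j
  · intro j
    by_cases hj : j = i
    · subst hj; rw [Function.update_self]; exact Or.inr k7
    · rw [Function.update_of_ne hj]
      rcases p.bd j with h | h
      · exact Or.inl h
      · exact Or.inr (h.trans (prod_mono (h1.trans k3)))
  · intro j
    by_cases hj : j = i
    · subst hj; simp only [Function.update_self]; exact k6
    · simp only [Function.update_of_ne hj]; exact Finset.Subset.refl _
  · simp only [Function.update_self]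

lemma Cond.dense_dom (hfr : Fresh ty) (hinit : ∀ i, IsInit ty t (init i)) (p : Cond ty t init)
    (i : I) (x : V) : ∃ q : Cond ty t init, p.le q ∧ ∃ y, (x, y) ∈ q.Γ i := by
  set W1 := p.W ∪ ({x} ∪ ((init i).image Prod.fst ∪ (init i).image Prod.snd)) with hW1
  have h1 : p.W ⊆ W1 := Finset.subset_union_left
  have hx : x ∈ W1 := by simp [hW1]
  have h2 : (init i).image Prod.fst ⊆ W1 := by
    rw [hW1]
    exact (Finset.subset_union_left.trans Finset.subset_union_right).trans Finset.subset_union_right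
  have h3 : (init i).image Prod.snd ⊆ W1 := by
    rw [hW1]
    exact (Finset.subset_union_right.trans Finset.subset_union_right).trans Finset.subset_union_right
  obtain ⟨H', W', Γ', k1, k2, k3, k4, k5, k6, k7, k8⟩ := amalg' hfr p.good
    (fun E hE => (p.hW E hE).trans h1) (p.piso i) (p.bd_big i W1 h1 h2 h3)
  obtain ⟨q, hq, hq'⟩ := p.extend hinit i W1 W' H' Γ' h1 k1 k2 k3 k4 k5 k6 k7
  exact ⟨q, hq, by rw [hq']; exact k8 x hx⟩

lemma Cond.dense_ran (hfr : Fresh ty) (hinit : ∀ i, IsInit ty t (init i)) (p : Cond ty t init)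
    (i : I) (y : V) : ∃ q : Cond ty t init, p.le q ∧ ∃ x, (x, y) ∈ q.Γ i := by
  set W1 := p.W ∪ ({y} ∪ ((init i).image Prod.fst ∪ (init i).image Prod.snd)) with hW1
  have h1 : p.W ⊆ W1 := Finset.subset_union_left
  have hy : y ∈ W1 := by simp [hW1]
  have h2 : (init i).image Prod.fst ⊆ W1 := by
    rw [hW1]
    exact (Finset.subset_union_left.trans Finset.subset_union_right).trans Finset.subset_union_right
  have h3 : (init i).image Prod.snd ⊆ W1 := by
    rw [hW1]
    exact (Finset.subset_union_right.trans Finset.subset_union_right).trans Finset.subset_union_right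
  have h4 : (p.Γ i).image Prod.swap ⊆ W1 ×ˢ W1 := by
    intro q hq
    obtain ⟨r, hr, rfl⟩ := Finset.mem_image.1 hq
    have := Finset.mem_product.1 (p.bd_big i W1 h1 h2 h3 hr)
    rw [Finset.mem_product]; exact ⟨this.2, this.1⟩
  obtain ⟨H', W', Γ', k1, k2, k3, k4, k5, k6, k7, k8⟩ := amalg' hfr p.good
    (fun E hE => (p.hW E hE).trans h1) (p.piso i).swap h4
  have k6' : p.Γ i ⊆ Γ'.image Prod.swap := by
    intro q hq
    refine Finset.mem_image.2 ⟨q.swap, k6 (Finset.mem_image_of_mem _ hq), by simp⟩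
  have k7' : Γ'.image Prod.swap ⊆ W' ×ˢ W' := by
    intro q hq
    obtain ⟨r, hr, rfl⟩ := Finset.mem_image.1 hq
    have := Finset.mem_product.1 (k7 hr)
    rw [Finset.mem_product]; exact ⟨this.2, this.1⟩
  obtain ⟨q, hq, hq'⟩ := p.extend hinit i W1 W' H' (Γ'.image Prod.swap) h1 k1 k2 k3 k4 k5.swap
    k6' k7'
  obtain ⟨x, hx⟩ := k8 y hy
  exact ⟨q, hq, x, by rw [hq']; exact Finset.mem_image.2 ⟨_, hx, rfl⟩⟩

/-- an abstract chain lemma -/
lemma exists_chain {P T : Type} [Countable T] [Nonempty T] (le : P → P → Prop)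
    (hrefl : ∀ p, le p p) (htrans : ∀ p q r, le p q → le q r → le p r)
    (D : T → P → Prop) (hD : ∀ τ p, ∃ q, le p q ∧ D τ q) (p0 : P) :
    ∃ f : ℕ → P, (∀ m n, m ≤ n → le (f m) (f n)) ∧ ∀ τ, ∃ n, D τ (f n) := by
  obtain ⟨e, he⟩ := exists_surjective_nat T
  choose nx hnx using hD
  let f : ℕ → P := fun n => Nat.rec p0 (fun n p => nx (e n) p) n
  refine ⟨f, ?_, ?_⟩
  · intro m n hmn
    induction hmn with
    | refl => exact hrefl _
    | step _ ih => exact htrans _ _ _ ih (hnx (e _) _).1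
  · intro τ
    obtain ⟨n, hn⟩ := he τ
    refine ⟨n + 1, ?_⟩
    rw [← hn]
    exact (hnx (e n) (f n)).2

theorem exists_limit [Countable V] [Countable I] (hfr : Fresh ty) (hpt : ∃ v, ty v = true)
    (hcol : ∃ v, ty v = false) (hinit : ∀ i, IsInit ty t (init i)) :
    ∃ Hinf : Set (Finset V),
      (∀ E ∈ Hinf, E.card = t + 1 ∧ np ty E = t) ∧
      (∀ E ∈ Hinf, ∀ E' ∈ Hinf, E ≠ E' → (E ∩ E').card + 1 ≤ t) ∧
      (∀ S : Finset V, S.card = t → t ≤ np ty S + 1 → ∃ E ∈ Hinf, S ⊆ E) ∧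
      ∀ i, ∃ e : Equiv.Perm V, (∀ v, ty (e v) = ty v) ∧
        (∀ E : Finset V, E ∈ Hinf ↔ E.image e ∈ Hinf) ∧ ∀ p ∈ init i, e p.1 = p.2 := by
  classical
  let T := Finset V ⊕ ((I × V) ⊕ (I × V))
  let D : T → Cond ty t init → Prop := fun τ q =>
    match τ with
    | Sum.inl S => S.card = t → t ≤ np ty S + 1 → ∃ E ∈ q.H, S ⊆ E
    | Sum.inr (Sum.inl (i, x)) => ∃ y, (x, y) ∈ q.Γ i
    | Sum.inr (Sum.inr (i, y)) => ∃ x, (x, y) ∈ q.Γ i
  have hD : ∀ τ p, ∃ q, Cond.le p q ∧ D τ q := by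
    intro τ p
    match τ with
    | Sum.inl S =>
      by_cases h : S.card = t ∧ t ≤ np ty S + 1
      · obtain ⟨q, hq, hq'⟩ := p.dense_edge hfr hpt hcol hinit S h.1 h.2
        exact ⟨q, hq, fun _ _ => hq'⟩
      · exact ⟨p, p.le_refl, fun h1 h2 => absurd ⟨h1, h2⟩ h⟩
    | Sum.inr (Sum.inl (i, x)) => exact p.dense_dom hfr hinit i x
    | Sum.inr (Sum.inr (i, y)) => exact p.dense_ran hfr hinit i y
  let p0 : Cond ty t init :=
    { W := ∅
      H := ∅
      Γ := init
      hW := by simp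
      good := good_empty ty t
      piso := fun i => init_piso (good_empty ty t) (hinit i)
      sub := fun i => Finset.Subset.refl _
      bd := fun i => Or.inl rfl }
  obtain ⟨f, hf, hf'⟩ := exists_chain (T := T) Cond.le Cond.le_refl
    (fun p q r h1 h2 => Cond.le_trans h1 h2) D hD p0
  refine ⟨{E | ∃ n, E ∈ (f n).H}, ?_, ?_, ?_, ?_⟩
  · rintro E ⟨n, hn⟩
    exact ⟨(f n).good.card E hn, (f n).good.npts E hn⟩
  · rintro E ⟨n, hn⟩ E' ⟨m, hm⟩ hne
    have h1 : E ∈ (f (max n m)).H := (hf n _ (le_max_left _ _)).1 hn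
    have h2 : E' ∈ (f (max n m)).H := (hf m _ (le_max_right _ _)).1 hm
    exact (f (max n m)).good.lin E h1 E' h2 hne
  · intro S h1 h2
    obtain ⟨n, hn⟩ := hf' (Sum.inl S)
    obtain ⟨E, hE, hSE⟩ := hn h1 h2
    exact ⟨E, ⟨n, hE⟩, hSE⟩
  · intro i
    -- the limit relation
    let R : V → V → Prop := fun x y => ∃ n, (x, y) ∈ (f n).Γ i
    have htot : ∀ x, ∃ y, R x y := by
      intro x
      obtain ⟨n, y, hy⟩ := hf' (Sum.inr (Sum.inl (i, x)))
      exact ⟨y, n, hy⟩
    have hsur : ∀ y, ∃ x, R x y := by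
      intro y
      obtain ⟨n, x, hx⟩ := hf' (Sum.inr (Sum.inr (i, y)))
      exact ⟨x, n, hx⟩
    have hfn : ∀ x y y', R x y → R x y' → y = y' := by
      rintro x y y' ⟨n, hn⟩ ⟨m, hm⟩
      have h1 := (hf n _ (le_max_left n m)).2 i hn
      have h2 := (hf m _ (le_max_right n m)).2 i hm
      exact congrArg Prod.snd (((f (max n m)).piso i).fn _ h1 _ h2 rfl)
    have hinj : ∀ x x' y, R x y → R x' y → x = x' := by
      rintro x x' y ⟨n, hn⟩ ⟨m, hm⟩
      have h1 := (hf n _ (le_max_left n m)).2 i hn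
      have h2 := (hf m _ (le_max_right n m)).2 i hm
      exact congrArg Prod.fst (((f (max n m)).piso i).inj _ h1 _ h2 rfl)
    choose g hg using htot
    choose g' hg' using hsur
    let e : Equiv.Perm V :=
      { toFun := g
        invFun := g'
        left_inv := fun x => hinj _ _ _ (hg' (g x)) (hg x)
        right_inv := fun y => hfn _ _ _ (hg (g' y)) (hg' y) }
    have he : ∀ x y, R x y → e x = y := fun x y h => hfn _ _ _ (hg x) h
    -- finitely many values are decided at one stage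
    have hfin : ∀ E : Finset V, ∃ n, ∀ x ∈ E, (x, e x) ∈ (f n).Γ i := by
      intro E
      induction E using Finset.induction_on with
      | empty => exact ⟨0, by simp⟩
      | insert a E _ ih =>
        obtain ⟨n, hn⟩ := ih
        obtain ⟨m, hm⟩ := hg a
        refine ⟨max n m, ?_⟩
        intro x hx
        rcases Finset.mem_insert.1 hx with rfl | hx
        · exact (hf m _ (le_max_right n m)).2 i hm
        · exact (hf n _ (le_max_left n m)).2 i (hn x hx)
    refine ⟨e, ?_, ?_, ?_⟩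
    · intro v
      obtain ⟨n, hn⟩ := hg v
      exact (((f n).piso i).ty _ hn).symm
    · intro E
      obtain ⟨n, hn⟩ := hfin E
      have key : ∀ m, n ≤ m → (E ∈ (f m).H ↔ E.image e ∈ (f m).H) := by
        intro m hm
        have h1 : E.image (fun x => (x, e x)) ⊆ (f m).Γ i := by
          intro p hp
          obtain ⟨x, hx, rfl⟩ := Finset.mem_image.1 hp
          exact (hf n m hm).2 i (hn x hx)
        have h2 := ((f m).piso i).edge _ h1
        rw [Finset.image_image, Finset.image_image] at h2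
        have e1 : (Prod.fst ∘ fun v => (v, e v)) = (id : V → V) := rfl
        have e2 : (Prod.snd ∘ fun v => (v, e v)) = (e : V → V) := rfl
        rw [e1, e2, Finset.image_id] at h2
        exact h2
      constructor
      · rintro ⟨m, hm⟩
        refine ⟨max n m, ?_⟩
        exact (key _ (le_max_left _ _)).1 ((hf m _ (le_max_right n m)).1 hm)
      · rintro ⟨m, hm⟩
        refine ⟨max n m, ?_⟩
        exact (key _ (le_max_left _ _)).2 ((hf m _ (le_max_right n m)).1 hm)
    · intro p hp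
      exact he _ _ ⟨0, (f 0).sub i hp⟩

end

end Pool.Agent.SteinerGen
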